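import Mathlib

set_option autoImplicit false

/-!
Power series with complex coefficients whose radius of convergence is at least one, and the weighted norms
`∑ |f_s| r^s`.
-/

namespace Pool.Agent.N780

open PowerSeries

/-- radius of convergence at least one -/
def Conv (f : ℂ⟦X⟧) : Prop := ∀ r : ℝ, 0 ≤ r → r < 1 → Summable fun s => ‖coeff s f‖ * r ^ s

/-- the weighted norm -/
noncomputable def nrm (r : ℝ) (f : ℂ⟦X⟧) : ℝ := ∑' s, ‖coeff s f‖ * r ^ s

theorem nrm_nonneg {r : ℝ} (hr : 0 ≤ r) (f : ℂ⟦X⟧) : 0 ≤ nrm r f :=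
  tsum_nonneg fun s => mul_nonneg (norm_nonneg _) (pow_nonneg hr _)

theorem le_nrm {r : ℝ} (hr : 0 ≤ r) (hr1 : r < 1) {f : ℂ⟦X⟧} (hf : Conv f) (s : ℕ) :
    ‖coeff s f‖ * r ^ s ≤ nrm r f :=
  (hf r hr hr1).le_tsum s fun _ _ => mul_nonneg (norm_nonneg _) (pow_nonneg hr _)

theorem Conv.of_le {f g : ℂ⟦X⟧} (hg : Conv g) (h : ∀ s, ‖coeff s f‖ ≤ ‖coeff s g‖) : Conv f := by
  intro r hr hr1
  refine Summable.of_nonneg_of_le (fun s => mul_nonneg (norm_nonneg _) (pow_nonneg hr _))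
    (fun s => ?_) (hg r hr hr1)
  exact mul_le_mul_of_nonneg_right (h s) (pow_nonneg hr _)

theorem Conv.add {f g : ℂ⟦X⟧} (hf : Conv f) (hg : Conv g) : Conv (f + g) := by
  intro r hr hr1
  refine Summable.of_nonneg_of_le (fun s => mul_nonneg (norm_nonneg _) (pow_nonneg hr _))
    (fun s => ?_) ((hf r hr hr1).add (hg r hr hr1))
  rw [map_add, ← add_mul]
  exact mul_le_mul_of_nonneg_right (norm_add_le _ _) (pow_nonneg hr _)

theorem nrm_add {r : ℝ} (hr : 0 ≤ r) (hr1 : r < 1) {f g : ℂ⟦X⟧} (hf : Conv f) (hg : Conv g) :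
    nrm r (f + g) ≤ nrm r f + nrm r g := by
  unfold nrm
  rw [← (hf r hr hr1).tsum_add (hg r hr hr1)]
  refine (hf.add hg r hr hr1).tsum_le_tsum (fun s => ?_) ((hf r hr hr1).add (hg r hr hr1))
  rw [map_add, ← add_mul]
  exact mul_le_mul_of_nonneg_right (norm_add_le _ _) (pow_nonneg hr _)

theorem mul_aux {r : ℝ} (hr : 0 ≤ r) (f g : ℂ⟦X⟧) (s : ℕ) :
    ‖coeff s (f * g)‖ * r ^ s ≤
      ∑ p ∈ Finset.HasAntidiagonal.antidiagonal s, (‖coeff p.1 f‖ * r ^ p.1) * (‖coeff p.2 g‖ * r ^ p.2) := by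
  rw [coeff_mul]
  calc _ ≤ (∑ p ∈ Finset.HasAntidiagonal.antidiagonal s, ‖coeff p.1 f * coeff p.2 g‖) * r ^ s :=
        mul_le_mul_of_nonneg_right (norm_sum_le _ _) (pow_nonneg hr _)
    _ = _ := by
        rw [Finset.sum_mul]
        refine Finset.sum_congr rfl fun p hp => ?_
        rw [Finset.HasAntidiagonal.mem_antidiagonal] at hp
        rw [norm_mul, ← hp, pow_add]
        ring

theorem Conv.mul {f g : ℂ⟦X⟧} (hf : Conv f) (hg : Conv g) : Conv (f * g) := by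
  intro r hr hr1
  refine Summable.of_nonneg_of_le (fun s => mul_nonneg (norm_nonneg _) (pow_nonneg hr _))
    (fun s => mul_aux hr f g s) ?_
  exact summable_sum_mul_antidiagonal_of_summable_mul (f := fun s => ‖coeff s f‖ * r ^ s)
    (g := fun s => ‖coeff s g‖ * r ^ s)
    (summable_mul_of_summable_norm (f := fun s => ‖coeff s f‖ * r ^ s)
      (g := fun s => ‖coeff s g‖ * r ^ s) (hf r hr hr1).norm (hg r hr hr1).norm)

theorem nrm_mul {r : ℝ} (hr : 0 ≤ r) (hr1 : r < 1) {f g : ℂ⟦X⟧} (hf : Conv f) (hg : Conv g) :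
    nrm r (f * g) ≤ nrm r f * nrm r g := by
  unfold nrm
  have h1 := summable_mul_of_summable_norm (f := fun s => ‖coeff s f‖ * r ^ s)
      (g := fun s => ‖coeff s g‖ * r ^ s) (hf r hr hr1).norm (hg r hr hr1).norm
  have h2 := (hf r hr hr1).tsum_mul_tsum_eq_tsum_sum_antidiagonal (hg r hr hr1) h1
  rw [h2]
  exact (hf.mul hg r hr hr1).tsum_le_tsum (fun s => mul_aux hr f g s)
    (summable_sum_mul_antidiagonal_of_summable_mul (f := fun s => ‖coeff s f‖ * r ^ s)
    (g := fun s => ‖coeff s g‖ * r ^ s) h1)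

theorem conv_poly (P : Polynomial ℂ) : Conv (P : ℂ⟦X⟧) := by
  intro r _ _
  refine summable_of_ne_finset_zero (s := Finset.range (P.natDegree + 1)) fun s hs => ?_
  rw [Finset.mem_range, not_lt] at hs
  rw [Polynomial.coeff_coe, Polynomial.coeff_eq_zero_of_natDegree_lt (by omega)]
  simp

theorem conv_C (a : ℂ) : Conv (C a) := by
  have := conv_poly (Polynomial.C a)
  rwa [Polynomial.coe_C] at this

theorem conv_zero : Conv 0 := by
  have := conv_C 0
  rwa [map_zero] at this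

theorem conv_one : Conv 1 := by
  have := conv_C 1
  rwa [map_one] at this

theorem conv_X : Conv (X : ℂ⟦X⟧) := by
  have := conv_poly Polynomial.X
  rwa [Polynomial.coe_X] at this

theorem Conv.neg {f : ℂ⟦X⟧} (hf : Conv f) : Conv (-f) :=
  hf.of_le fun s => by rw [map_neg, norm_neg]

theorem Conv.sub {f g : ℂ⟦X⟧} (hf : Conv f) (hg : Conv g) : Conv (f - g) := by
  rw [sub_eq_add_neg]; exact hf.add hg.neg

theorem Conv.pow {f : ℂ⟦X⟧} (hf : Conv f) (k : ℕ) : Conv (f ^ k) := by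
  induction k with
  | zero => rw [pow_zero]; exact conv_one
  | succ k ih => rw [pow_succ]; exact ih.mul hf

theorem Conv.sum {ι : Type*} (t : Finset ι) {f : ι → ℂ⟦X⟧} (hf : ∀ i ∈ t, Conv (f i)) :
    Conv (∑ i ∈ t, f i) := by
  classical
  induction t using Finset.induction_on with
  | empty => rw [Finset.sum_empty]; exact conv_zero
  | insert a t ha ih =>
    rw [Finset.sum_insert ha]
    exact (hf a (Finset.mem_insert_self _ _)).add
      (ih fun i hi => hf i (Finset.mem_insert_of_mem hi))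

theorem nrm_zero (r : ℝ) : nrm r 0 = 0 := by
  unfold nrm; simp

theorem nrm_sum {ι : Type*} {r : ℝ} (hr : 0 ≤ r) (hr1 : r < 1) (t : Finset ι) {f : ι → ℂ⟦X⟧}
    (hf : ∀ i ∈ t, Conv (f i)) : nrm r (∑ i ∈ t, f i) ≤ ∑ i ∈ t, nrm r (f i) := by
  classical
  induction t using Finset.induction_on with
  | empty => rw [Finset.sum_empty, Finset.sum_empty, nrm_zero]
  | insert a t ha ih =>
    rw [Finset.sum_insert ha, Finset.sum_insert ha]
    refine (nrm_add hr hr1 (hf a (Finset.mem_insert_self _ _))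
      (Conv.sum t fun i hi => hf i (Finset.mem_insert_of_mem hi))).trans ?_
    exact add_le_add le_rfl (ih fun i hi => hf i (Finset.mem_insert_of_mem hi))

theorem nrm_C {r : ℝ} (a : ℂ) : nrm r (C a) = ‖a‖ := by
  unfold nrm
  rw [tsum_eq_single 0]
  · simp
  · intro s hs
    rw [coeff_C, if_neg hs]; simp

theorem nrm_one {r : ℝ} : nrm r 1 = 1 := by
  have := nrm_C (r := r) 1
  rwa [map_one, norm_one] at this

theorem nrm_pow {r : ℝ} (hr : 0 ≤ r) (hr1 : r < 1) {f : ℂ⟦X⟧} (hf : Conv f) (k : ℕ) :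
    nrm r (f ^ k) ≤ nrm r f ^ k := by
  induction k with
  | zero => rw [pow_zero, pow_zero, nrm_one]
  | succ k ih =>
    rw [pow_succ, pow_succ]
    exact (nrm_mul hr hr1 (hf.pow k) hf).trans (mul_le_mul_of_nonneg_right ih (nrm_nonneg hr f))

/-- ratio test -/
theorem summable_poly_mul (θ : ℝ) (h0 : 0 ≤ θ) (h1 : θ < 1) :
    ∃ C : ℝ, 0 ≤ C ∧ ∀ s : ℕ, ((s : ℝ) + 1) * θ ^ s ≤ C := by
  have hs : Summable fun s : ℕ => ((s : ℝ) + 1) * θ ^ s := by
    have h2 := summable_pow_mul_geometric_of_norm_lt_one 1 (r := θ)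
      (by rw [Real.norm_of_nonneg h0]; exact h1)
    have h3 := summable_geometric_of_lt_one h0 h1
    have h4 := h2.add h3
    refine h4.congr fun s => ?_
    simp only [pow_one]; ring
  exact ⟨∑' s : ℕ, ((s : ℝ) + 1) * θ ^ s, tsum_nonneg fun s => by positivity,
    fun s => hs.le_tsum s fun _ _ => by positivity⟩

theorem Conv.derivative {f : ℂ⟦X⟧} (hf : Conv f) : Conv (d⁄dX ℂ f) := by
  intro r hr hr1
  obtain ⟨r1, h1, h2⟩ := exists_between hr1
  have hr1' : 0 < r1 := lt_of_le_of_lt hr h1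
  obtain ⟨C, hC0, hC⟩ := summable_poly_mul (r / r1) (by positivity) ((div_lt_one hr1').2 h1)
  have hs : Summable fun s => C / r1 * (‖coeff (s + 1) f‖ * r1 ^ (s + 1)) :=
    ((summable_nat_add_iff 1).2 (hf r1 hr1'.le h2)).mul_left _
  refine Summable.of_nonneg_of_le (fun s => mul_nonneg (norm_nonneg _) (pow_nonneg hr _))
    (fun s => ?_) hs
  rw [coeff_derivative, norm_mul]
  have e : ‖((s : ℂ) + 1)‖ = (s : ℝ) + 1 := by
    rw [← Nat.cast_succ, Complex.norm_natCast, Nat.cast_succ]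
  rw [e]
  have h3 := hC s
  have h4 : r ^ s = (r / r1) ^ s * r1 ^ s := by
    rw [← mul_pow, div_mul_cancel₀ _ hr1'.ne']
  calc ‖coeff (s + 1) f‖ * ((s : ℝ) + 1) * r ^ s
      = ‖coeff (s + 1) f‖ * r1 ^ s * (((s : ℝ) + 1) * (r / r1) ^ s) := by rw [h4]; ring
    _ ≤ ‖coeff (s + 1) f‖ * r1 ^ s * C := by gcongr
    _ = C / r1 * (‖coeff (s + 1) f‖ * r1 ^ (s + 1)) := by
        rw [pow_succ]; field_simp

/-- coefficient growth -/
theorem Conv.coeff_le {f : ℂ⟦X⟧} (hf : Conv f) {r : ℝ} (hr : 0 < r) (hr1 : r < 1) (s : ℕ) :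
    ‖coeff s f‖ ≤ nrm r f * (1 / r) ^ s := by
  have h := le_nrm hr.le hr1 hf s
  rw [one_div, inv_pow, ← div_eq_mul_inv, le_div_iff₀ (pow_pos hr s)]
  exact h

/-- substitution of `X ^ m` -/
theorem conv_pow_var {f g : ℂ⟦X⟧} (hf : Conv f) {m : ℕ} (hm : 1 ≤ m)
    (hg : ∀ s, coeff s g = if m ∣ s then coeff (s / m) f else 0) : Conv g := by
  intro r hr hr1
  have hinj : Function.Injective fun s : ℕ => m * s := fun a b h =>
    Nat.eq_of_mul_eq_mul_left (by omega) h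
  have hsup : ∀ x ∉ Set.range (fun s : ℕ => m * s), ‖coeff x g‖ * r ^ x = 0 := by
    intro x hx
    have : ¬ m ∣ x := by
      rintro ⟨c, rfl⟩
      exact hx ⟨c, rfl⟩
    rw [hg, if_neg this]; simp
  rw [← hinj.summable_iff hsup]
  have hrm : r ^ m < 1 := pow_lt_one₀ hr hr1 (by omega)
  refine (hf (r ^ m) (pow_nonneg hr _) hrm).congr fun s => ?_
  simp only [Function.comp]
  rw [hg, if_pos (dvd_mul_right _ _), Nat.mul_div_cancel_left _ (by omega), pow_mul]

end Pool.Agent.N780
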