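import Mathlib
import Pool.Agent.N780.Conv

set_option autoImplicit false

/-!
Formal linear differential systems `Y' = G Y`: the matrices `G_s` with `Y^(s) = G_s Y`, the fundamental
matrix, divisibility of `G_s` by `p^[s/p]` when `G_p` is divisible by `p`, convergence of the solutions.
-/

namespace Pool.Agent.N780

open PowerSeries Matrix

variable {ι κ μ : Type*} [Fintype ι] [DecidableEq ι] [Fintype κ]

theorem c0_mul (f g : ℂ⟦X⟧) : coeff 0 (f * g) = coeff 0 f * coeff 0 g := by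
  rw [coeff_zero_eq_constantCoeff_apply, coeff_zero_eq_constantCoeff_apply,
    coeff_zero_eq_constantCoeff_apply, map_mul]

/-- entrywise derivative -/
noncomputable def mD (M : Matrix ι κ ℂ⟦X⟧) : Matrix ι κ ℂ⟦X⟧ := M.map (d⁄dX ℂ)

omit [Fintype ι] [DecidableEq ι] [Fintype κ] in
theorem mD_apply (M : Matrix ι κ ℂ⟦X⟧) (i : ι) (j : κ) : mD M i j = d⁄dX ℂ (M i j) := rfl

omit [Fintype ι] [DecidableEq ι] [Fintype κ] in
theorem mD_add (M N : Matrix ι κ ℂ⟦X⟧) : mD (M + N) = mD M + mD N := by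
  ext1 i j; simp [mD_apply]

omit [Fintype ι] [DecidableEq ι] [Fintype κ] in
theorem mD_nsmul (k : ℕ) (M : Matrix ι κ ℂ⟦X⟧) : mD (k • M) = k • mD M := by
  ext1 i j; simp only [mD_apply, Matrix.smul_apply]; rw [map_nsmul]

omit [Fintype ι] [DecidableEq ι] [Fintype κ] in
theorem mD_sum {α : Type*} (t : Finset α) (f : α → Matrix ι κ ℂ⟦X⟧) :
    mD (∑ a ∈ t, f a) = ∑ a ∈ t, mD (f a) := by
  ext1 i j; simp only [mD_apply, Matrix.sum_apply]; rw [map_sum]

omit [Fintype ι] [DecidableEq ι] in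
theorem mD_mul (M : Matrix ι κ ℂ⟦X⟧) (N : Matrix κ μ ℂ⟦X⟧) :
    mD (M * N) = mD M * N + M * mD N := by
  ext1 i j
  simp only [mD_apply, Matrix.mul_apply, Matrix.add_apply, map_sum, Derivation.leibniz, smul_eq_mul]
  rw [← Finset.sum_add_distrib]
  refine Finset.sum_congr rfl fun k _ => ?_
  ring

omit [Fintype ι] in
theorem mD_one : mD (1 : Matrix ι ι ℂ⟦X⟧) = 0 := by
  ext1 i j
  rw [mD_apply, Matrix.one_apply]
  split_ifs <;> simp

/-- `M ↦ M' + M G` -/
noncomputable def dl (G M : Matrix ι ι ℂ⟦X⟧) : Matrix ι ι ℂ⟦X⟧ := mD M + M * G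

/-- the matrices `G_s` -/
noncomputable def gs (G : Matrix ι ι ℂ⟦X⟧) (s : ℕ) : Matrix ι ι ℂ⟦X⟧ := (dl G)^[s] 1

theorem gs_zero (G : Matrix ι ι ℂ⟦X⟧) : gs G 0 = 1 := rfl

theorem gs_succ (G : Matrix ι ι ℂ⟦X⟧) (s : ℕ) : gs G (s + 1) = mD (gs G s) + gs G s * G := by
  unfold gs; rw [Function.iterate_succ_apply']; rfl

theorem dl_one (G : Matrix ι ι ℂ⟦X⟧) : dl G 1 = G := by
  unfold dl; rw [mD_one, one_mul, zero_add]

theorem gs_succ' (G : Matrix ι ι ℂ⟦X⟧) (s : ℕ) : gs G (s + 1) = (dl G)^[s] G := by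
  unfold gs; rw [Function.iterate_succ_apply, dl_one]

omit [DecidableEq ι] in
theorem dl_add (G M N : Matrix ι ι ℂ⟦X⟧) : dl G (M + N) = dl G M + dl G N := by
  unfold dl; rw [mD_add, add_mul]; abel

omit [DecidableEq ι] in
theorem dl_nsmul (G M : Matrix ι ι ℂ⟦X⟧) (k : ℕ) : dl G (k • M) = k • dl G M := by
  unfold dl; rw [mD_nsmul, smul_mul_assoc, smul_add]

omit [DecidableEq ι] in
theorem dl_sum {α : Type*} (G : Matrix ι ι ℂ⟦X⟧) (t : Finset α) (f : α → Matrix ι ι ℂ⟦X⟧) :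
    dl G (∑ a ∈ t, f a) = ∑ a ∈ t, dl G (f a) := by
  unfold dl; rw [mD_sum, Finset.sum_mul, Finset.sum_add_distrib]

omit [DecidableEq ι] in
theorem dl_mul (G M N : Matrix ι ι ℂ⟦X⟧) : dl G (M * N) = mD M * N + M * dl G N := by
  unfold dl; rw [mD_mul, mul_add, mul_assoc]; abel

/-- Leibniz rule -/
theorem leib (G N : Matrix ι ι ℂ⟦X⟧) (t : ℕ) :
    (dl G)^[t] N = ∑ p ∈ Finset.HasAntidiagonal.antidiagonal t,
      t.choose p.1 • ((mD)^[p.1] N * gs G p.2) := by
  induction t with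
  | zero => simp [gs_zero]
  | succ t ih =>
    rw [Function.iterate_succ_apply', ih, dl_sum,
      Finset.sum_antidiagonal_choose_succ_nsmul (fun i j => (mD)^[i] N * gs G j) t,
      ← Finset.sum_add_distrib]
    refine Finset.sum_congr rfl fun p hp => ?_
    rw [Finset.HasAntidiagonal.mem_antidiagonal] at hp
    rw [dl_nsmul, dl_mul, smul_add, ← Function.iterate_succ_apply' mD]
    have e : t.choose p.2 = t.choose p.1 := by
      rw [← hp, add_comm, Nat.choose_symm_add, add_comm]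
    have e2 : gs G (p.2 + 1) = dl G (gs G p.2) := gs_succ G p.2
    rw [e, add_comm, e2]

/-! ### divisibility -/

/-- all coefficients are in `c O` -/
def Dv (O : Subring ℂ) (c : ℂ) (f : ℂ⟦X⟧) : Prop := ∀ s, ∃ a ∈ O, coeff s f = c * a

/-- all entries are in `c O[[X]]` -/
def Mv (O : Subring ℂ) (c : ℂ) (M : Matrix ι κ ℂ⟦X⟧) : Prop := ∀ i j, Dv O c (M i j)

variable {O : Subring ℂ}

theorem Dv.zero (c : ℂ) : Dv O c 0 := fun s => ⟨0, O.zero_mem, by simp⟩

theorem Dv.add {c : ℂ} {f g : ℂ⟦X⟧} (hf : Dv O c f) (hg : Dv O c g) : Dv O c (f + g) := by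
  intro s
  obtain ⟨a, ha, h1⟩ := hf s
  obtain ⟨b, hb, h2⟩ := hg s
  exact ⟨a + b, O.add_mem ha hb, by rw [map_add, h1, h2, mul_add]⟩

theorem Dv.sum {α : Type*} {c : ℂ} (t : Finset α) {f : α → ℂ⟦X⟧} (hf : ∀ a ∈ t, Dv O c (f a)) :
    Dv O c (∑ a ∈ t, f a) := by
  classical
  induction t using Finset.induction_on with
  | empty => rw [Finset.sum_empty]; exact Dv.zero c
  | insert a t ha ih =>
    rw [Finset.sum_insert ha]
    exact (hf a (Finset.mem_insert_self _ _)).add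
      (ih fun i hi => hf i (Finset.mem_insert_of_mem hi))

theorem Dv.mul {c d : ℂ} {f g : ℂ⟦X⟧} (hf : Dv O c f) (hg : Dv O d g) : Dv O (c * d) (f * g) := by
  intro s
  choose a ha h1 using hf
  choose b hb h2 using hg
  refine ⟨∑ p ∈ Finset.HasAntidiagonal.antidiagonal s, a p.1 * b p.2,
    O.sum_mem fun p _ => O.mul_mem (ha _) (hb _), ?_⟩
  rw [coeff_mul, Finset.mul_sum]
  refine Finset.sum_congr rfl fun p _ => ?_
  rw [h1, h2]; ring

theorem Dv.one_one : Dv O 1 (1 : ℂ⟦X⟧) := by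
  intro s
  rw [coeff_one]
  split_ifs
  · exact ⟨1, O.one_mem, by simp⟩
  · exact ⟨0, O.zero_mem, by simp⟩

theorem Dv.nsmul {c : ℂ} {f : ℂ⟦X⟧} (hf : Dv O c f) {p k : ℕ} (hpk : p ∣ k) :
    Dv O (c * p) (k • f) := by
  intro s
  obtain ⟨a, ha, h1⟩ := hf s
  obtain ⟨l, rfl⟩ := hpk
  refine ⟨(l : ℂ) * a, O.mul_mem (natCast_mem O l) ha, ?_⟩
  rw [map_nsmul, h1, nsmul_eq_mul]
  push_cast; ring

theorem Dv.nsmul' {c : ℂ} {f : ℂ⟦X⟧} (hf : Dv O c f) (k : ℕ) : Dv O c (k • f) := by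
  have := hf.nsmul (one_dvd k)
  rwa [Nat.cast_one, mul_one] at this

omit [Fintype ι] [DecidableEq ι] [Fintype κ] in
theorem iter_mD_apply (M : Matrix ι κ ℂ⟦X⟧) (k : ℕ) (i : ι) (j : κ) :
    ((mD)^[k] M) i j = (d⁄dX ℂ)^[k] (M i j) := by
  induction k with
  | zero => rfl
  | succ k ih => rw [Function.iterate_succ_apply', Function.iterate_succ_apply', mD_apply, ih]

theorem Dv.iter {c : ℂ} {f : ℂ⟦X⟧} (hf : Dv O c f) (k : ℕ) : Dv O c ((d⁄dX ℂ)^[k] f) := by
  intro s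
  obtain ⟨a, ha, h1⟩ := hf (s + k)
  refine ⟨((s + 1).ascFactorial k : ℂ) * a, O.mul_mem (natCast_mem O _) ha, ?_⟩
  rw [coeff_iterate_derivative, h1]; ring

omit [Fintype ι] [DecidableEq ι] in
theorem Mv.mul {c d : ℂ} {M : Matrix ι κ ℂ⟦X⟧} {N : Matrix κ μ ℂ⟦X⟧} (hM : Mv O c M)
    (hN : Mv O d N) : Mv O (c * d) (M * N) := by
  intro i j
  rw [Matrix.mul_apply]
  exact Dv.sum _ fun k _ => (hM i k).mul (hN k j)

omit [Fintype ι] in
theorem Mv.one_one : Mv O 1 (1 : Matrix ι ι ℂ⟦X⟧) := by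
  intro i j
  rw [Matrix.one_apply]
  split_ifs
  · exact Dv.one_one
  · exact Dv.zero 1

omit [DecidableEq ι] in
theorem Mv.dl {c : ℂ} {G M : Matrix ι ι ℂ⟦X⟧} (hM : Mv O c M) (hG : Mv O 1 G) :
    Mv O c (dl G M) := by
  intro i j
  refine ((hM i j).iter 1).add ?_
  have := hM.mul hG i j
  rwa [mul_one] at this

theorem mv_gs {G : Matrix ι ι ℂ⟦X⟧} (hG : Mv O 1 G) (s : ℕ) : Mv O 1 (gs G s) := by
  induction s with
  | zero => exact Mv.one_one
  | succ s ih => rw [gs_succ]; exact ih.dl hG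

theorem Dv.of_dvd {c : ℂ} {f : ℂ⟦X⟧} {a b : ℕ} (hf : Dv O (c * b) f) (h : a ∣ b) :
    Dv O (c * a) f := by
  intro s
  obtain ⟨x, hx, h1⟩ := hf s
  obtain ⟨l, rfl⟩ := h
  refine ⟨(l : ℂ) * x, O.mul_mem (natCast_mem O l) hx, ?_⟩
  rw [h1]; push_cast; ring

theorem Dv.iter_fac {c : ℂ} {f : ℂ⟦X⟧} (hf : Dv O c f) (k : ℕ) :
    Dv O (c * k.factorial) ((d⁄dX ℂ)^[k] f) := by
  intro s
  obtain ⟨a, ha, h1⟩ := hf (s + k)
  obtain ⟨l, hl⟩ := Nat.factorial_dvd_ascFactorial (s + 1) k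
  refine ⟨(l : ℂ) * a, O.mul_mem (natCast_mem O _) ha, ?_⟩
  have h3 : (((s + 1).ascFactorial k : ℕ) : ℂ) = (k.factorial : ℂ) * l := by
    rw [hl]; push_cast; ring
  rw [coeff_iterate_derivative, h1]
  have h4 : ((s + 1 : ℕ).ascFactorial k : ℂ) = (k.factorial : ℂ) * l := h3
  rw [h4]; ring

/-- the exponent of `p` in `s!` -/
def vf (p s : ℕ) : ℕ := padicValNat p s.factorial

theorem Mv.dl_level {c : ℂ} {G M : Matrix ι ι ℂ⟦X⟧} (hM : Mv O c M) {p : ℕ}
    (hp : p.Prime) {N : ℕ} (hl : ∀ s ≤ N, Mv O ((p ^ vf p s : ℕ) : ℂ) (gs G s)) :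
    Mv O (c * ((p ^ vf p N : ℕ) : ℂ)) ((N780.dl G)^[N] M) := by
  have := Fact.mk hp
  rw [leib]
  intro i j
  rw [Matrix.sum_apply]
  refine Dv.sum _ fun q hq => ?_
  rw [Finset.HasAntidiagonal.mem_antidiagonal] at hq
  rw [Matrix.smul_apply]
  have h2 : Mv O (c * (q.1.factorial : ℂ)) ((mD)^[q.1] M) := by
    intro i j
    rw [iter_mD_apply]
    exact (hM i j).iter_fac _
  have h3 := (h2.mul (hl q.2 (by omega))) i j
  have h4 := h3.nsmul (dvd_refl (N.choose q.1))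
  have h5 : c * (q.1.factorial : ℂ) * ((p ^ vf p q.2 : ℕ) : ℂ) * ((N.choose q.1 : ℕ) : ℂ) =
      c * ((N.choose q.1 * q.1.factorial * p ^ vf p q.2 : ℕ) : ℂ) := by push_cast; ring
  rw [h5] at h4
  refine h4.of_dvd ?_
  have h6 := Nat.choose_mul_factorial_mul_factorial (n := N) (k := q.1) (by omega)
  have h7 : N - q.1 = q.2 := by omega
  rw [h7] at h6
  have h8 : vf p N = padicValNat p (N.choose q.1 * q.1.factorial) + vf p q.2 := by
    unfold vf
    rw [← h6, padicValNat.mul (mul_ne_zero (Nat.choose_pos (by omega)).ne'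
      (Nat.factorial_ne_zero _)) (Nat.factorial_ne_zero _)]
  rw [h8, pow_add]
  exact mul_dvd_mul pow_padicValNat_dvd (dvd_refl _)

/-- the exponent of `p` which divides `G_s` when the level at `p` is `h` -/
def lv (p h s : ℕ) : ℕ := ∑ j ∈ Finset.Ico 1 (h + 1), s / p ^ j

theorem vf_eq {p : ℕ} (hp : p.Prime) {h s : ℕ} (hs : s ≤ p ^ h) : vf p s = lv p h s := by
  have := Fact.mk hp
  unfold vf lv
  rcases Nat.lt_or_ge s (p ^ h) with h1 | h1
  · have h2 : Nat.log p s < h + 1 := by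
      have := Nat.log_lt_of_lt_pow' (b := p) (x := h + 1) (y := s) (by omega)
        (h1.trans (Nat.pow_lt_pow_right hp.one_lt (by omega)))
      exact this
    exact padicValNat_factorial h2
  · have h2 : s = p ^ h := le_antisymm hs h1
    refine padicValNat_factorial ?_
    rw [h2, Nat.log_pow hp.one_lt]
    omega

theorem lv_add (p h t : ℕ) : lv p h (p ^ h + t) = lv p h t + lv p h (p ^ h) := by
  unfold lv
  rw [← Finset.sum_add_distrib]
  refine Finset.sum_congr rfl fun j hj => ?_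
  rw [Finset.mem_Ico] at hj
  have h1 : p ^ j ∣ p ^ h := pow_dvd_pow p (by omega)
  rw [add_comm, Nat.add_div_of_dvd_left h1]

/-- divisibility of `G_s` -/
theorem mv_gs_pow {G : Matrix ι ι ℂ⟦X⟧} {p : ℕ} (hp : p.Prime) {h : ℕ}
    (hl : ∀ s ≤ p ^ h, Mv O ((p ^ vf p s : ℕ) : ℂ) (gs G s)) (s : ℕ) :
    Mv O ((p ^ lv p h s : ℕ) : ℂ) (gs G s) := by
  induction s using Nat.strong_induction_on with
  | _ s ih =>
    rcases le_or_gt s (p ^ h) with h1 | h1
    · rw [← vf_eq hp h1]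
      exact hl s h1
    · obtain ⟨t, rfl⟩ := Nat.exists_eq_add_of_le h1.le
      have e : gs G (p ^ h + t) = (dl G)^[p ^ h] (gs G t) := by
        unfold gs; rw [Function.iterate_add_apply]
      have h2 : 0 < p ^ h := pow_pos hp.pos _
      have h3 := (ih t (by omega)).dl_level hp hl
      rw [e, lv_add, pow_add, ← vf_eq hp (le_refl (p ^ h))]
      push_cast at h3 ⊢
      exact h3

/-! ### the fundamental matrix -/

/-- the fundamental matrix -/
noncomputable def fund (G : Matrix ι ι ℂ⟦X⟧) : Matrix ι ι ℂ⟦X⟧ :=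
  fun i j => mk fun s => coeff 0 (gs G s i j) / (s.factorial : ℂ)

theorem coeff_fund (G : Matrix ι ι ℂ⟦X⟧) (i j : ι) (s : ℕ) :
    coeff s (fund G i j) = coeff 0 (gs G s i j) / (s.factorial : ℂ) := by
  unfold fund; rw [coeff_mk]

theorem fund_ode (G : Matrix ι ι ℂ⟦X⟧) : mD (fund G) = G * fund G := by
  ext1 i j
  ext s
  have hs : (s.factorial : ℂ) ≠ 0 := by exact_mod_cast s.factorial_ne_zero
  rw [mD_apply, coeff_derivative, coeff_fund, Matrix.mul_apply, map_sum]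
  have e1 : coeff 0 (gs G (s + 1) i j) / ((s + 1).factorial : ℂ) * ((s : ℂ) + 1) =
      coeff 0 (gs G (s + 1) i j) / (s.factorial : ℂ) := by
    have : ((s : ℂ) + 1) ≠ 0 := by exact_mod_cast (Nat.succ_ne_zero s)
    rw [Nat.factorial_succ]; push_cast; field_simp
  rw [e1, div_eq_iff hs, gs_succ', leib, Matrix.sum_apply, map_sum, Finset.sum_mul]
  simp only [coeff_mul, Finset.sum_mul]
  rw [Finset.sum_comm' (t' := Finset.HasAntidiagonal.antidiagonal s)
    (s' := fun _ => (Finset.univ : Finset ι)) (by intro x y; simp)]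
  refine Finset.sum_congr rfl fun q hq => ?_
  rw [Finset.HasAntidiagonal.mem_antidiagonal] at hq
  rw [Matrix.smul_apply, map_nsmul, Matrix.mul_apply, map_sum, nsmul_eq_mul, Finset.mul_sum]
  refine Finset.sum_congr rfl fun k _ => ?_
  rw [coeff_fund, c0_mul, iter_mD_apply]
  have h3 : coeff 0 ((d⁄dX ℂ)^[q.1] (G i k)) = (q.1.factorial : ℂ) * coeff q.1 (G i k) := by
    have := constantCoeff_iterate_derivative (G i k) q.1
    rwa [← coeff_zero_eq_constantCoeff_apply] at this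
  rw [h3]
  have h4 : ((q.2).factorial : ℂ) ≠ 0 := by exact_mod_cast (q.2).factorial_ne_zero
  have h5 : (s.choose q.1 : ℂ) * q.1.factorial * q.2.factorial = s.factorial := by
    have h6 := Nat.choose_mul_factorial_mul_factorial (n := s) (k := q.1) (by omega)
    have h7 : s - q.1 = q.2 := by omega
    rw [h7] at h6
    exact_mod_cast h6
  rw [← h5]
  field_simp

theorem fund_zero (G : Matrix ι ι ℂ⟦X⟧) (i j : ι) :
    coeff 0 (fund G i j) = (1 : Matrix ι ι ℂ) i j := by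
  rw [coeff_fund, gs_zero, Matrix.one_apply, Matrix.one_apply]
  split_ifs <;> simp

/-- every solution is a combination of the columns of the fundamental matrix -/
theorem sol_eq (G : Matrix ι ι ℂ⟦X⟧) (y : ι → ℂ⟦X⟧)
    (hy : ∀ i, d⁄dX ℂ (y i) = ∑ j, G i j * y j) (i : ι) :
    y i = ∑ j, C (coeff 0 (y j)) * fund G i j := by
  have h1 : ∀ s : ℕ, ∀ i, (d⁄dX ℂ)^[s] (y i) = ∑ j, gs G s i j * y j := by
    intro s
    induction s with
    | zero =>
      intro i
      rw [gs_zero]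
      simp [Matrix.one_apply]
    | succ s ih =>
      intro i
      rw [Function.iterate_succ_apply', ih i, map_sum, gs_succ]
      simp only [Matrix.add_apply, Matrix.mul_apply, add_mul, Derivation.leibniz, smul_eq_mul,
        Finset.sum_add_distrib, mD_apply, hy]
      rw [add_comm]
      congr 1
      · exact Finset.sum_congr rfl fun j _ => mul_comm _ _
      · simp only [Finset.mul_sum, Finset.sum_mul]
        rw [Finset.sum_comm]
        exact Finset.sum_congr rfl fun j _ => Finset.sum_congr rfl fun k _ => by ring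
  ext s
  have hs : (s.factorial : ℂ) ≠ 0 := by exact_mod_cast s.factorial_ne_zero
  have h2 : coeff 0 ((d⁄dX ℂ)^[s] (y i)) = (s.factorial : ℂ) * coeff s (y i) := by
    have := constantCoeff_iterate_derivative (y i) s
    rwa [← coeff_zero_eq_constantCoeff_apply] at this
  rw [h1 s i, map_sum] at h2
  rw [map_sum]
  simp only [coeff_C_mul, coeff_fund]
  rw [← mul_right_inj' hs, ← h2, Finset.mul_sum]
  refine Finset.sum_congr rfl fun j _ => ?_
  rw [c0_mul]
  field_simp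

/-! ### convergence of solutions -/

omit [DecidableEq ι] in
theorem conv_of_ode (B : Matrix ι ι ℂ⟦X⟧) (hB : ∀ i j, Conv (B i j)) (w : ι → ℂ⟦X⟧)
    (hw : ∀ i, d⁄dX ℂ (w i) = ∑ j, B i j * w j) (i₀ : ι) : Conv (w i₀) := by
  intro r hr hr1
  obtain ⟨r1, h1, h2⟩ := exists_between hr1
  have hr1' : 0 < r1 := lt_of_le_of_lt hr h1
  set θ : ℝ := r / r1 with hθ
  have hθ0 : 0 ≤ θ := by positivity
  have hθ1 : θ < 1 := (div_lt_one hr1').2 h1
  set M : ℝ := ∑ i, ∑ j, nrm r1 (B i j) with hM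
  have hM0 : 0 ≤ M := Finset.sum_nonneg fun i _ => Finset.sum_nonneg fun j _ =>
    nrm_nonneg hr1'.le _
  set u : ℕ → ℝ := fun s => ∑ i, ‖coeff s (w i)‖ * r1 ^ s with hu
  have hu0 : ∀ s, 0 ≤ u s := fun s => Finset.sum_nonneg fun i _ =>
    mul_nonneg (norm_nonneg _) (pow_nonneg hr1'.le _)
  set V : ℕ → ℝ := fun s => ∑ b ∈ Finset.range (s + 1), u b with hV
  have hV0 : ∀ s, 0 ≤ V s := fun s => Finset.sum_nonneg fun b _ => hu0 b
  have hwj : ∀ (j : ι) (s b : ℕ), b ≤ s → ‖coeff b (w j)‖ * r1 ^ b ≤ u b := by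
    intro j s b _
    exact Finset.single_le_sum (f := fun i => ‖coeff b (w i)‖ * r1 ^ b)
      (fun i _ => mul_nonneg (norm_nonneg _) (pow_nonneg hr1'.le _)) (Finset.mem_univ j)
  have key : ∀ s : ℕ, ((s : ℝ) + 1) * u (s + 1) ≤ M * V s := by
    intro s
    have e1 : ∀ i, ((s : ℝ) + 1) * (‖coeff (s + 1) (w i)‖ * r1 ^ (s + 1)) ≤
        ∑ j, nrm r1 (B i j) * V s := by
      intro i
      have e2 : coeff (s + 1) (w i) * ((s : ℂ) + 1) = ∑ j, coeff s (B i j * w j) := by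
        rw [← coeff_derivative, hw, map_sum]
      have e3 : ‖((s : ℂ) + 1)‖ = (s : ℝ) + 1 := by
        rw [← Nat.cast_succ, Complex.norm_natCast, Nat.cast_succ]
      have e4 : ‖coeff (s + 1) (w i)‖ * ((s : ℝ) + 1) ≤ ∑ j, ‖coeff s (B i j * w j)‖ := by
        rw [← e3, ← norm_mul, e2]
        exact norm_sum_le _ _
      have e5 : ∀ j, ‖coeff s (B i j * w j)‖ * r1 ^ s ≤ nrm r1 (B i j) * V s := by
        intro j
        refine (mul_aux hr1'.le _ _ s).trans ?_
        rw [hV, Finset.mul_sum, Finset.Nat.sum_antidiagonal_eq_sum_range_succ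
          (fun a b => (‖coeff a (B i j)‖ * r1 ^ a) * (‖coeff b (w j)‖ * r1 ^ b)) s]
        rw [← Finset.sum_range_reflect]
        refine Finset.sum_le_sum fun b hb => ?_
        rw [Finset.mem_range] at hb
        have e6 : s - (s + 1 - 1 - b) = b := by omega
        rw [e6]
        exact mul_le_mul (le_nrm hr1'.le h2 (hB i j) _) (hwj j s b (by omega))
          (mul_nonneg (norm_nonneg _) (pow_nonneg hr1'.le _)) (nrm_nonneg hr1'.le _)
      calc ((s : ℝ) + 1) * (‖coeff (s + 1) (w i)‖ * r1 ^ (s + 1))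
          = (‖coeff (s + 1) (w i)‖ * ((s : ℝ) + 1)) * r1 ^ s * r1 := by rw [pow_succ]; ring
        _ ≤ (∑ j, ‖coeff s (B i j * w j)‖) * r1 ^ s * 1 := by gcongr
        _ = ∑ j, ‖coeff s (B i j * w j)‖ * r1 ^ s := by rw [mul_one, Finset.sum_mul]
        _ ≤ _ := Finset.sum_le_sum fun j _ => e5 j
    calc ((s : ℝ) + 1) * u (s + 1)
        = ∑ i, ((s : ℝ) + 1) * (‖coeff (s + 1) (w i)‖ * r1 ^ (s + 1)) := by
          rw [hu, Finset.mul_sum]
      _ ≤ ∑ i, ∑ j, nrm r1 (B i j) * V s := Finset.sum_le_sum fun i _ => e1 i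
      _ = M * V s := by rw [hM, Finset.sum_mul]; simp only [Finset.sum_mul]
  have hstep : ∀ s : ℕ, V (s + 1) ≤ (1 + M / ((s : ℝ) + 1)) * V s := by
    intro s
    have hp : (0 : ℝ) < (s : ℝ) + 1 := by positivity
    have e1 : V (s + 1) = V s + u (s + 1) := Finset.sum_range_succ _ _
    have e2 : u (s + 1) ≤ M * V s / ((s : ℝ) + 1) := by
      rw [le_div_iff₀ hp]; linarith [key s]
    rw [e1, add_mul, one_mul]
    have e3 : M / ((s : ℝ) + 1) * V s = M * V s / ((s : ℝ) + 1) := by ring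
    rw [e3]
    linarith
  have hsum : Summable fun s => V s * θ ^ s := by
    refine summable_of_ratio_norm_eventually_le (r := (1 + θ) / 2) (by linarith) ?_
    have htend : Filter.Tendsto (fun s : ℕ => (1 + M / ((s : ℝ) + 1)) * θ) Filter.atTop
        (nhds ((1 + 0) * θ)) := by
      refine Filter.Tendsto.mul_const _ (tendsto_const_nhds.add ?_)
      exact tendsto_const_nhds.div_atTop
        (Filter.tendsto_atTop_add_const_right _ _ tendsto_natCast_atTop_atTop)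
    have hlt : (1 + 0) * θ < (1 + θ) / 2 := by linarith
    filter_upwards [htend.eventually (gt_mem_nhds hlt)] with s hs
    have a1 : 0 ≤ V s * θ ^ s := mul_nonneg (hV0 s) (pow_nonneg hθ0 _)
    have a2 : 0 ≤ V (s + 1) * θ ^ (s + 1) := mul_nonneg (hV0 _) (pow_nonneg hθ0 _)
    rw [Real.norm_of_nonneg a1, Real.norm_of_nonneg a2]
    calc V (s + 1) * θ ^ (s + 1) ≤ ((1 + M / ((s : ℝ) + 1)) * V s) * θ ^ (s + 1) := by
          have := hstep s
          gcongr
      _ = ((1 + M / ((s : ℝ) + 1)) * θ) * (V s * θ ^ s) := by rw [pow_succ]; ring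
      _ ≤ (1 + θ) / 2 * (V s * θ ^ s) := by
          have := hs.le
          gcongr
  refine Summable.of_nonneg_of_le (fun s => mul_nonneg (norm_nonneg _) (pow_nonneg hr _))
    (fun s => ?_) hsum
  have h4 : r ^ s = r1 ^ s * θ ^ s := by
    rw [hθ, ← mul_pow, mul_div_cancel₀ _ hr1'.ne']
  rw [h4, ← mul_assoc]
  refine mul_le_mul_of_nonneg_right ?_ (pow_nonneg hθ0 _)
  refine (hwj i₀ s s le_rfl).trans ?_
  exact Finset.single_le_sum (f := u) (fun b _ => hu0 b) (Finset.self_mem_range_succ s)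

theorem conv_fund (B : Matrix ι ι ℂ⟦X⟧) (hB : ∀ i j, Conv (B i j)) (i j : ι) :
    Conv (fund B i j) := by
  refine conv_of_ode B hB (fun i => fund B i j) (fun i => ?_) i
  have := congrFun (congrFun (fund_ode B) i) j
  rwa [mD_apply, Matrix.mul_apply] at this

/-- roots of units -/
theorem exists_root {u u' : ℂ⟦X⟧} (hu : Conv u) (hu' : Conv u') (h : u * u' = 1) {m : ℕ}
    (hm : 1 ≤ m) {c : ℂ} (hc : c ^ m = coeff 0 u) :
    ∃ v : ℂ⟦X⟧, Conv v ∧ v ^ m = u ∧ coeff 0 v = c := by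
  set B : ℂ⟦X⟧ := C ((1 : ℂ) / m) * (d⁄dX ℂ u * u') with hB
  have hBc : Conv B := (conv_C _).mul (hu.derivative.mul hu')
  set G : Matrix (Fin 1) (Fin 1) ℂ⟦X⟧ := fun _ _ => B with hG
  set f : ℂ⟦X⟧ := fund G 0 0 with hf
  have hfc : Conv f := conv_fund G (fun _ _ => hBc) 0 0
  have hf0 : coeff 0 f = 1 := by rw [hf, fund_zero]; simp
  have hfd : d⁄dX ℂ f = B * f := by
    have := congrFun (congrFun (fund_ode G) 0) 0
    rw [mD_apply, Matrix.mul_apply] at this
    simpa using this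
  have hu0 : coeff 0 u * coeff 0 u' = 1 := by rw [← c0_mul, h]; simp
  have hm0 : (m : ℂ) ≠ 0 := by exact_mod_cast (by omega : m ≠ 0)
  refine ⟨C c * f, (conv_C c).mul hfc, ?_, by rw [coeff_C_mul, hf0, mul_one]⟩
  -- `(c f)^m u' = 1`
  have hconst : (C c * f) ^ m * u' = 1 := by
    refine derivative.ext ?_ ?_
    · have hdu : d⁄dX ℂ u * u' + u * d⁄dX ℂ u' = 0 := by
        have := congrArg (d⁄dX ℂ) h
        rw [Derivation.leibniz, smul_eq_mul, smul_eq_mul, derivative_one] at this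
        linear_combination this
      have hdu' : d⁄dX ℂ u' = - (d⁄dX ℂ u * u') * u' := by
        have : u' * (d⁄dX ℂ u * u' + u * d⁄dX ℂ u') = 0 := by rw [hdu, mul_zero]
        linear_combination this - (d⁄dX ℂ u') * h
      obtain ⟨k, rfl⟩ := Nat.exists_eq_add_of_le hm
      have hk : (C ((1 : ℂ) / ((1 + k : ℕ) : ℂ)) : ℂ⟦X⟧) * (((1 + k : ℕ) : ℕ) : ℂ⟦X⟧) = 1 := by
        have : (((1 + k : ℕ) : ℕ) : ℂ⟦X⟧) = C (((1 + k : ℕ) : ℂ)) := by simp
        rw [this, ← map_mul, one_div, inv_mul_cancel₀ hm0, map_one]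
      rw [Derivation.leibniz, smul_eq_mul, smul_eq_mul, derivative_pow, Derivation.leibniz,
        smul_eq_mul, smul_eq_mul, derivative_C, hfd, hdu', derivative_one, hB]
      have e : 1 + k - 1 = k := by omega
      rw [e, pow_add, pow_one]
      linear_combination (C c * f * (C c * f) ^ k * u' * u' * d⁄dX ℂ u) * hk
    · rw [← coeff_zero_eq_constantCoeff_apply, ← coeff_zero_eq_constantCoeff_apply, c0_mul]
      have e : coeff 0 ((C c * f) ^ m) = c ^ m := by
        rw [coeff_zero_eq_constantCoeff_apply, map_pow, ← coeff_zero_eq_constantCoeff_apply,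
          coeff_C_mul, hf0, mul_one]
      rw [e, hc, hu0]; simp
  calc (C c * f) ^ m = (C c * f) ^ m * (u * u') := by rw [h, mul_one]
    _ = ((C c * f) ^ m * u') * u := by ring
    _ = u := by rw [hconst, one_mul]

end Pool.Agent.N780
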