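import Mathlib
import Pool.Agent.N780.Ode

set_option autoImplicit false

/-!
The denominators `d_s = ∏_p p^{e_p(s)}` of the solutions of a system which has level `h(p)` at the primes `p`:
`e_p(s) = ∑_{j > h(p)} [s/p^j]`.
-/

namespace Pool.Agent.N780

open PowerSeries Matrix

/-- the exponent of `p` -/
def ex (h : ℕ → ℕ) (p s : ℕ) : ℕ :=
  ∑ j ∈ Finset.Ico (h p + 1) (s + 1), s / p ^ j

/-- the denominator -/
def den (h : ℕ → ℕ) (s : ℕ) : ℕ :=
  ∏ p ∈ (Finset.range (s + 1)).filter Nat.Prime, p ^ ex h p s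

theorem ex_eq (h : ℕ → ℕ) {p : ℕ} (hp : p.Prime) {s B : ℕ} (hB : s + 1 ≤ B) :
    ex h p s = ∑ j ∈ Finset.Ico (h p + 1) B, s / p ^ j := by
  unfold ex
  refine Finset.sum_subset (Finset.Ico_subset_Ico le_rfl hB) fun j hj hj' => ?_
  rw [Finset.mem_Ico] at hj hj'
  push Not at hj'
  refine Nat.div_eq_of_lt ?_
  have h1 : s < j := by have := hj' hj.1; omega
  exact h1.trans (Nat.lt_pow_self hp.one_lt)

theorem ex_add (h : ℕ → ℕ) {p : ℕ} (hp : p.Prime) (a b : ℕ) :
    ex h p a + ex h p b ≤ ex h p (a + b) := by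
  rw [ex_eq h hp (show a + 1 ≤ a + b + 1 by omega), ex_eq h hp (show b + 1 ≤ a + b + 1 by omega),
    ex_eq h hp le_rfl, ← Finset.sum_add_distrib]
  exact Finset.sum_le_sum fun j _ => Nat.div_add_div_le_add_div

theorem ex_zero_of_lt (h : ℕ → ℕ) {p : ℕ} {s : ℕ} (hs : s < p) : ex h p s = 0 := by
  unfold ex
  refine Finset.sum_eq_zero fun j hj => Nat.div_eq_of_lt ?_
  rw [Finset.mem_Ico] at hj
  exact lt_of_lt_of_le hs (Nat.le_self_pow (by omega) p)

theorem den_ne_zero (h : ℕ → ℕ) (s : ℕ) : den h s ≠ 0 := by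
  unfold den
  refine Finset.prod_ne_zero_iff.2 fun p hp => ?_
  exact pow_ne_zero _ (Finset.mem_filter.1 hp).2.ne_zero

theorem den_eq (h : ℕ → ℕ) {s B : ℕ} (hB : s ≤ B) :
    den h s = ∏ p ∈ (Finset.range (B + 1)).filter Nat.Prime, p ^ ex h p s := by
  unfold den
  refine Finset.prod_subset ?_ fun p hp hp' => ?_
  · exact Finset.filter_subset_filter _ (Finset.range_mono (by omega))
  · rw [Finset.mem_filter] at hp hp'
    have h1 : ¬ p ∈ Finset.range (s + 1) := fun h => hp' ⟨h, hp.2⟩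
    rw [Finset.mem_range] at h1
    rw [ex_zero_of_lt h (by omega), pow_zero]

theorem den_mul (h : ℕ → ℕ) (a b : ℕ) : den h a * den h b ∣ den h (a + b) := by
  rw [den_eq h (show a ≤ a + b by omega), den_eq h (show b ≤ a + b by omega), den,
    ← Finset.prod_mul_distrib]
  refine Finset.prod_dvd_prod_of_dvd _ _ fun p hp => ?_
  rw [← pow_add]
  exact pow_dvd_pow p (ex_add h (Finset.mem_filter.1 hp).2 a b)

/-- the contribution of `p` to the growth -/
noncomputable def wt (h : ℕ → ℕ) (p : ℕ) : ℝ := Real.log p / (((p : ℝ) - 1) * (p : ℝ) ^ h p)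

theorem wt_nonneg (h : ℕ → ℕ) {p : ℕ} (hp : p.Prime) : 0 ≤ wt h p := by
  have h1 : (1 : ℝ) < p := by exact_mod_cast hp.one_lt
  have h2 : 0 ≤ Real.log p := Real.log_nonneg h1.le
  have h3 : 0 < (p : ℝ) - 1 := by linarith
  unfold wt
  positivity

theorem geom_Ico {x : ℝ} (h0 : 0 ≤ x) (h1 : x < 1) (a b : ℕ) :
    ∑ j ∈ Finset.Ico a b, x ^ j ≤ x ^ a / (1 - x) := by
  have h2 : 0 < 1 - x := by linarith
  rcases le_or_gt a b with h | h
  · rw [geom_sum_Ico' h1.ne h]
    gcongr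
    have := pow_nonneg h0 b
    linarith
  · rw [Finset.Ico_eq_empty (by omega), Finset.sum_empty]
    have := pow_nonneg h0 a
    positivity

theorem ex_le (h : ℕ → ℕ) {p : ℕ} (hp : p.Prime) (s : ℕ) :
    (ex h p s : ℝ) * Real.log p ≤ wt h p * s := by
  have hp1 : (1 : ℝ) < p := by exact_mod_cast hp.one_lt
  have hp0 : (0 : ℝ) < p := by linarith
  have h2 : 0 ≤ Real.log p := Real.log_nonneg hp1.le
  have h3 : 0 < (p : ℝ) - 1 := by linarith
  have hx0 : (0 : ℝ) ≤ 1 / p := by positivity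
  have hx1 : 1 / (p : ℝ) < 1 := (div_lt_one hp0).2 hp1
  have key : (∑ j ∈ Finset.Ico (h p + 1) (s + 1), (((s / p ^ j : ℕ)) : ℝ)) ≤
      s * ((1 / (p : ℝ)) ^ (h p + 1) / (1 - 1 / p)) := by
    calc (∑ j ∈ Finset.Ico (h p + 1) (s + 1), (((s / p ^ j : ℕ)) : ℝ))
        ≤ ∑ j ∈ Finset.Ico (h p + 1) (s + 1), (s : ℝ) * (1 / (p : ℝ)) ^ j := by
          refine Finset.sum_le_sum fun j _ => ?_
          refine Nat.cast_div_le.trans (le_of_eq ?_)
          push_cast
          rw [one_div, inv_pow, div_eq_mul_inv]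
      _ = s * ∑ j ∈ Finset.Ico (h p + 1) (s + 1), (1 / (p : ℝ)) ^ j := by rw [Finset.mul_sum]
      _ ≤ _ := by
          have := geom_Ico hx0 hx1 (h p + 1) (s + 1)
          gcongr
  unfold ex wt
  push_cast at key ⊢
  have e : (1 / (p : ℝ)) ^ (h p + 1) / (1 - 1 / p) = 1 / (((p : ℝ) - 1) * (p : ℝ) ^ h p) := by
    rw [one_div, inv_pow, pow_succ]
    field_simp
  rw [e] at key
  calc _ ≤ (s * (1 / (((p : ℝ) - 1) * (p : ℝ) ^ h p))) * Real.log p := by gcongr
    _ = _ := by ring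

theorem den_le (h : ℕ → ℕ) {T : ℝ}
    (hT : ∀ F : Finset ℕ, (∀ p ∈ F, p.Prime) → ∑ p ∈ F, wt h p ≤ T) (s : ℕ) :
    (den h s : ℝ) ≤ Real.exp (T * s) := by
  have h0 : (0 : ℝ) < den h s := by
    exact_mod_cast Nat.pos_of_ne_zero (den_ne_zero h s)
  rw [← Real.log_le_iff_le_exp h0]
  unfold den
  push_cast
  rw [Real.log_prod fun p hp => ?_]
  · calc (∑ p ∈ (Finset.range (s + 1)).filter Nat.Prime, Real.log ((p : ℝ) ^ ex h p s))
        = ∑ p ∈ (Finset.range (s + 1)).filter Nat.Prime, (ex h p s : ℝ) * Real.log p := by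
          refine Finset.sum_congr rfl fun p _ => ?_
          rw [Real.log_pow]
      _ ≤ ∑ p ∈ (Finset.range (s + 1)).filter Nat.Prime, wt h p * s :=
          Finset.sum_le_sum fun p hp => ex_le h (Finset.mem_filter.1 hp).2 s
      _ = (∑ p ∈ (Finset.range (s + 1)).filter Nat.Prime, wt h p) * s := by rw [Finset.sum_mul]
      _ ≤ T * s := by
          have := hT ((Finset.range (s + 1)).filter Nat.Prime) fun p hp =>
            (Finset.mem_filter.1 hp).2
          gcongr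
  · have h1 := (Finset.mem_filter.1 hp).2.pos
    have : (p : ℝ) ≠ 0 := by exact_mod_cast h1.ne'
    exact pow_ne_zero _ this

/-- the factorial divides the product of `d_s` and the known divisors -/
theorem factorial_dvd (h : ℕ → ℕ) (s : ℕ) : s.factorial ∣ den h s *
    ∏ p ∈ (Finset.range (s + 1)).filter Nat.Prime, p ^ lv p (h p) s := by
  have h1 : s.factorial = ∏ p ∈ (Finset.range (s + 1)).filter Nat.Prime,
      p ^ s.factorial.factorization p := by
    conv_lhs => rw [← Nat.prod_factorization_pow_eq_self s.factorial_ne_zero]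
    refine Finsupp.prod_of_support_subset _ ?_ _ fun p _ => pow_zero p
    intro p hp
    rw [Nat.support_factorization, Nat.mem_primeFactors] at hp
    rw [Finset.mem_filter, Finset.mem_range]
    have := (hp.1.dvd_factorial).1 hp.2.1
    exact ⟨by omega, hp.1⟩
  rw [h1, den, ← Finset.prod_mul_distrib]
  refine Finset.prod_dvd_prod_of_dvd _ _ fun p hp => ?_
  have hpp := (Finset.mem_filter.1 hp).2
  have := Fact.mk hpp
  rw [← pow_add]
  refine pow_dvd_pow p ?_
  have h2 : s.factorial.factorization p = ∑ j ∈ Finset.Ico 1 (s + 1), s / p ^ j := by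
    rw [Nat.factorization_def _ hpp]
    refine padicValNat_factorial ?_
    have := Nat.log_le_self p s
    omega
  rw [h2]
  unfold ex lv
  rcases le_or_gt (h p + 1) (s + 1) with h3 | h3
  · exact (Finset.sum_Ico_consecutive (fun j => s / p ^ j) (show 1 ≤ h p + 1 by omega)
      h3).symm.le.trans (Nat.add_comm _ _).le
  · refine le_trans ?_ (Nat.le_add_left _ _)
    exact Finset.sum_le_sum_of_subset (Finset.Ico_subset_Ico le_rfl (by omega))

/-- divisibility by coprime numbers -/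
theorem crt {O : Subring ℂ} {α : ℂ} {M N : ℕ} (h : M.Coprime N) (hM : ∃ a ∈ O, α = M * a)
    (hN : ∃ a ∈ O, α = N * a) : ∃ a ∈ O, α = ((M * N : ℕ) : ℂ) * a := by
  obtain ⟨a, ha, h1⟩ := hM
  obtain ⟨b, hb, h2⟩ := hN
  have h3 : IsCoprime (M : ℤ) (N : ℤ) := Nat.isCoprime_iff_coprime.2 h
  obtain ⟨u, v, huv⟩ := h3
  refine ⟨(u : ℂ) * b + v * a, O.add_mem (O.mul_mem (intCast_mem O u) hb)
    (O.mul_mem (intCast_mem O v) ha), ?_⟩
  have h4 : (u : ℂ) * M + v * N = 1 := by exact_mod_cast huv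
  push_cast
  calc α = ((u : ℂ) * M + v * N) * α := by rw [h4, one_mul]
    _ = u * M * α + v * N * α := by ring
    _ = u * M * (N * b) + v * N * (M * a) := by rw [← h2, ← h1]
    _ = _ := by ring

theorem crt_prod {O : Subring ℂ} {α : ℂ} (hα : α ∈ O) (k : ℕ → ℕ) (F : Finset ℕ)
    (hF : ∀ p ∈ F, p.Prime) (h : ∀ p ∈ F, ∃ a ∈ O, α = ((p ^ k p : ℕ) : ℂ) * a) :
    ∃ a ∈ O, α = ((∏ p ∈ F, p ^ k p : ℕ) : ℂ) * a := by
  classical
  induction F using Finset.induction_on with
  | empty => exact ⟨α, hα, by simp⟩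
  | insert q F hq ih =>
    rw [Finset.prod_insert hq]
    refine crt ?_ (h q (Finset.mem_insert_self _ _))
      (ih (fun p hp => hF p (Finset.mem_insert_of_mem hp))
        (fun p hp => h p (Finset.mem_insert_of_mem hp)))
    refine Nat.Coprime.prod_right fun p hp => ?_
    refine Nat.Coprime.pow _ _ ?_
    rw [Nat.coprime_primes (hF q (Finset.mem_insert_self _ _))
      (hF p (Finset.mem_insert_of_mem hp))]
    rintro rfl
    exact hq hp

variable {ι : Type*} [Fintype ι] [DecidableEq ι]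

/-- the denominators of the fundamental matrix -/
theorem den_fund {O : Subring ℂ} {G : Matrix ι ι ℂ⟦X⟧} (hG : Mv O 1 G) {h : ℕ → ℕ}
    (hh : ∀ p : ℕ, p.Prime → ∀ s ≤ p ^ h p, Mv O ((p ^ vf p s : ℕ) : ℂ) (gs G s))
    (i j : ι) (s : ℕ) :
    (den h s : ℂ) * coeff s (fund G i j) ∈ O := by
  set α : ℂ := coeff 0 (gs G s i j) with hα
  have hαO : α ∈ O := by
    obtain ⟨a, ha, h⟩ := mv_gs hG s i j 0
    rw [hα, h, one_mul]; exact ha
  obtain ⟨a, ha, h1⟩ := crt_prod hαO (fun p => lv p (h p) s)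
    ((Finset.range (s + 1)).filter Nat.Prime) (fun p hp => (Finset.mem_filter.1 hp).2)
    (fun p hp => by
      have hpp := (Finset.mem_filter.1 hp).2
      exact mv_gs_pow hpp (hh p hpp) s i j 0)
  obtain ⟨l, hl⟩ := factorial_dvd h s
  have h2 : (den h s : ℂ) * ((∏ p ∈ (Finset.range (s + 1)).filter Nat.Prime,
      p ^ lv p (h p) s : ℕ) : ℂ) = (s.factorial : ℂ) * l := by
    exact_mod_cast hl
  have hs : (s.factorial : ℂ) ≠ 0 := by exact_mod_cast s.factorial_ne_zero
  have e : (den h s : ℂ) * coeff s (fund G i j) = l * a := by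
    rw [coeff_fund, ← hα, mul_div_assoc', div_eq_iff hs, h1, ← mul_assoc, h2]
    ring
  rw [e]
  exact O.mul_mem (natCast_mem O l) ha

end Pool.Agent.N780
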