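import Mathlib
import Pool.Agent.N780.Arith

set_option autoImplicit false

/-!
The bound for the number of power series with restricted denominators and large conformal radius which are
linearly independent over the rational functions (Siegel's lemma).
-/

namespace Pool.Agent.N780

open PowerSeries Matrix

/-- integer polynomials as power series with complex coefficients -/
noncomputable def ev : Polynomial ℤ →+* ℂ⟦X⟧ :=
  (Polynomial.coeToPowerSeries.ringHom (R := ℂ)).comp (Polynomial.mapRingHom (Int.castRingHom ℂ))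

theorem ev_apply (P : Polynomial ℤ) :
    ev P = ((P.map (Int.castRingHom ℂ) : Polynomial ℂ) : ℂ⟦X⟧) := rfl

theorem coeff_ev (P : Polynomial ℤ) (s : ℕ) : coeff s (ev P) = (P.coeff s : ℂ) := by
  rw [ev_apply, Polynomial.coeff_coe, Polynomial.coeff_map]; rfl

/-- the data -/
structure Datum where
  O : Subring ℂ
  hO : ∀ a ∈ O, a ≠ 0 → 1 ≤ ‖a‖
  co : Fin 2 → O →+ ℤ
  Cc : ℝ
  hCc : 0 ≤ Cc
  hco : ∀ l a, |((co l a : ℤ) : ℝ)| ≤ Cc * ‖(a : ℂ)‖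
  hco0 : ∀ a, (∀ l, co l a = 0) → a = 0
  d : ℕ → ℕ
  hd0 : ∀ s, d s ≠ 0
  hdm : ∀ a b, d a * d b ∣ d (a + b)
  T : ℝ
  hT : 0 ≤ T
  hdT : ∀ s, (d s : ℝ) ≤ Real.exp (T * s)
  φ : ℂ⟦X⟧
  hφ : Conv φ
  hφ0 : constantCoeff φ = 0
  hφ1 : Real.exp T < ‖coeff 1 φ‖

namespace Datum

variable (E : Datum)

theorem hs : HasSubst E.φ := HasSubst.of_constantCoeff_zero' E.hφ0

/-- substitution of `φ` -/
noncomputable def σ : ℂ⟦X⟧ →ₐ[ℂ] ℂ⟦X⟧ := substAlgHom E.hs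

theorem σ_X : E.σ X = E.φ := substAlgHom_X E.hs

theorem σ_C (a : ℂ) : E.σ (C a) = C a := by
  have h := E.σ.commutes a
  have e : algebraMap ℂ ℂ⟦X⟧ a = C a := rfl
  rwa [e] at h

theorem σ_deriv (f : ℂ⟦X⟧) : d⁄dX ℂ (E.σ f) = E.σ (d⁄dX ℂ f) * d⁄dX ℂ E.φ := by
  unfold σ
  rw [coe_substAlgHom]
  exact derivative_subst E.hs

theorem σ_poly (P : Polynomial ℂ) : E.σ (P : ℂ⟦X⟧) = Polynomial.aeval E.φ P := by
  unfold σ
  exact substAlgHom_coe E.hs P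

theorem coeff_zero_σ (f : ℂ⟦X⟧) : coeff 0 (E.σ f) = coeff 0 f := by
  have h1 : X ∣ f - C (coeff 0 f) := by
    rw [X_dvd_iff, map_sub, ← coeff_zero_eq_constantCoeff_apply, ← coeff_zero_eq_constantCoeff_apply,
      coeff_zero_C, sub_self]
  obtain ⟨g, hg⟩ := h1
  have h2 : f = C (coeff 0 f) + X * g := by rw [← hg]; ring
  have h3 : coeff 0 E.φ = 0 := by rw [coeff_zero_eq_constantCoeff_apply, E.hφ0]
  conv_lhs => rw [h2]
  rw [map_add, map_mul, E.σ_C, E.σ_X, map_add, c0_mul, h3, zero_mul, add_zero, coeff_zero_C]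

theorem coeff_σ (f : ℂ⟦X⟧) (N : ℕ) (h : ∀ s < N, coeff s f = 0) :
    coeff N (E.σ f) = (coeff 1 E.φ) ^ N * coeff N f := by
  obtain ⟨g, rfl⟩ := X_pow_dvd_iff.2 h
  obtain ⟨ψ, hψ⟩ := X_dvd_iff.2 E.hφ0
  have e0 : ∀ (M : ℕ) (u : ℂ⟦X⟧), coeff M (X ^ M * u) = coeff 0 u := by
    intro M u
    have := coeff_X_pow_mul u M 0
    rwa [zero_add] at this
  have e1 : coeff 1 E.φ = coeff 0 ψ := by
    rw [hψ]
    have := e0 1 ψ
    rwa [pow_one] at this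
  rw [map_mul, map_pow, E.σ_X, hψ, mul_pow, mul_assoc, e0, e0, c0_mul, coeff_zero_σ, ← hψ, e1]
  congr 1
  rw [coeff_zero_eq_constantCoeff_apply, coeff_zero_eq_constantCoeff_apply, map_pow]

/-- the good power series -/
def Good (f : ℂ⟦X⟧) : Prop :=
  (∀ s, (E.d s : ℂ) * coeff s f ∈ E.O) ∧ Conv f ∧ Conv (E.σ f)

theorem good_den {f : ℂ⟦X⟧} (hf : E.Good f) {s t : ℕ} (h : s ≤ t) :
    (E.d t : ℂ) * coeff s f ∈ E.O := by
  obtain ⟨k, rfl⟩ := Nat.exists_eq_add_of_le h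
  obtain ⟨l, hl⟩ := (dvd_mul_right _ _).trans (E.hdm s k)
  have e : ((E.d (s + k) : ℕ) : ℂ) * coeff s f = (l : ℂ) * ((E.d s : ℂ) * coeff s f) := by
    rw [hl]; push_cast; ring
  rw [e]
  exact E.O.mul_mem (natCast_mem _ l) (hf.1 s)

theorem good_mul {f g : ℂ⟦X⟧} (hf : E.Good f) (hg : E.Good g) : E.Good (f * g) := by
  refine ⟨fun s => ?_, hf.2.1.mul hg.2.1, by rw [map_mul]; exact hf.2.2.mul hg.2.2⟩
  rw [coeff_mul, Finset.mul_sum]
  refine E.O.sum_mem fun p hp => ?_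
  rw [Finset.HasAntidiagonal.mem_antidiagonal] at hp
  obtain ⟨l, hl⟩ := E.hdm p.1 p.2
  rw [hp] at hl
  have e : (E.d s : ℂ) * (coeff p.1 f * coeff p.2 g) =
      (l : ℂ) * (((E.d p.1 : ℂ) * coeff p.1 f) * ((E.d p.2 : ℂ) * coeff p.2 g)) := by
    rw [hl]; push_cast; ring
  rw [e]
  exact E.O.mul_mem (natCast_mem _ l) (E.O.mul_mem (hf.1 _) (hg.1 _))

theorem good_one : E.Good 1 := by
  refine ⟨fun s => ?_, conv_one, by rw [map_one]; exact conv_one⟩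
  rw [coeff_one]
  split_ifs
  · rw [mul_one]; exact natCast_mem _ _
  · rw [mul_zero]; exact E.O.zero_mem

/-- choice of the radius -/
theorem exists_r : ∃ r : ℝ, 0 < r ∧ r < 1 ∧ 0 < Real.log (‖coeff 1 E.φ‖ * r) - E.T := by
  have h0 : 0 < ‖coeff 1 E.φ‖ := (Real.exp_pos _).trans E.hφ1
  obtain ⟨r, h1, h2⟩ := exists_between ((div_lt_one h0).2 E.hφ1)
  have hr : 0 < r := lt_trans (by positivity) h1
  refine ⟨r, hr, h2, ?_⟩
  rw [sub_pos, Real.lt_log_iff_exp_lt (by positivity)]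
  rw [div_lt_iff₀ h0] at h1
  linarith

end Datum

end Pool.Agent.N780
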