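import Mathlib

set_option autoImplicit false

/-!
Definitions for the statements about the `p`-curvature: linear differential systems `q Y' = A Y`.
-/

namespace Pool.Agent.N780.PCurv

open PowerSeries
open scoped RatFunc

/-- The matrices `D_s` such that `q^s Y^(s) = D_s Y` for every solution `Y` of `q Y' = A Y`:
`D_0 = 1` and `D_(s+1) = q D_s' - s q' D_s + D_s A`. -/
noncomputable def der {R : Type*} [CommRing R] {n : ℕ} (q : Polynomial R)
    (A : Matrix (Fin n) (Fin n) (Polynomial R)) : ℕ → Matrix (Fin n) (Fin n) (Polynomial R)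
  | 0 => 1
  | s + 1 => q • (der q A s).map Polynomial.derivative -
      ((s : Polynomial R) * Polynomial.derivative q) • der q A s + der q A s * A

/-- The system `q Y' = A Y` has level `h` at the prime `p`: for all `s ≤ p^h`, the matrix `D_s / s!` (which
gives the divided derivative `Y^(s) / s!`, up to the factor `q^s`) is integral at `p`, that is, `D_s` is
divisible by the power of `p` in `s!`. Level `0` is no condition. Level `1` says `D_p ≡ 0` modulo `p`:
the `p`-curvature of the system vanishes modulo `p`. -/
def HasLevel {R : Type*} [CommRing R] {n : ℕ} (q : Polynomial R)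
    (A : Matrix (Fin n) (Fin n) (Polynomial R)) (p h : ℕ) : Prop :=
  ∀ s ≤ p ^ h, ∀ i j, ((p ^ padicValNat p s.factorial : ℕ) : Polynomial R) ∣ der q A s i j

/-- The expansion of a polynomial over `R` at the point `c`, in the variable `t = x - c`;
`ρ` sends the coefficients to `ℂ`. -/
noncomputable def expand {R : Type*} [CommRing R] (ρ : R →+* ℂ) (c : ℂ) (P : Polynomial R) : ℂ⟦X⟧ :=
  Polynomial.eval₂ ((C : ℂ →+* ℂ⟦X⟧).comp ρ) (X + C c) P

/-- The vector `y` of formal power series in `x - c` is a solution of `q Y' = A Y`. -/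
def IsSolution {R : Type*} [CommRing R] (ρ : R →+* ℂ) (c : ℂ) (q : Polynomial R) {n : ℕ}
    (A : Matrix (Fin n) (Fin n) (Polynomial R)) (y : Fin n → ℂ⟦X⟧) : Prop :=
  ∀ i, expand ρ c q * d⁄dX ℂ (y i) = ∑ j, expand ρ c (A i j) * y j

/-- There is ONE finite extension `L` of `ℂ(x)` which contains all entries of all formal solutions at `c`
of all systems `q^k Y' = A Y` of level `h(p)` at `p` for every prime `p`: the coefficients of `A` lie in any
ring `R` finite and free over `ℤ` with a map to `ℂ` (for instance the integers of any number field);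
all ranks `n`, all exponents `k`, all degrees. -/
def UniformlyAlgebraic (c : ℂ) (q : Polynomial ℤ) (h : ℕ → ℕ) : Prop :=
  ∃ L : IntermediateField (RatFunc ℂ) (LaurentSeries ℂ), FiniteDimensional (RatFunc ℂ) L ∧
    ∀ (R : Type) [CommRing R] [Module.Free ℤ R] [Module.Finite ℤ R] (ρ : R →+* ℂ) (n k : ℕ)
      (A : Matrix (Fin n) (Fin n) (Polynomial R)),
      (∀ p : ℕ, p.Prime → HasLevel (q.map (Int.castRingHom R) ^ k) A p (h p)) →
      ∀ y : Fin n → ℂ⟦X⟧, IsSolution ρ c (q.map (Int.castRingHom R) ^ k) A y →
        ∀ i, HahnSeries.ofPowerSeries ℤ ℂ (y i) ∈ L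

open Classical in
/-- level `0` (no condition) at the primes in `S`, and level `1` (`p`-curvature zero) at the others -/
noncomputable def outside (S : Set ℕ) (p : ℕ) : ℕ := if p ∈ S then 0 else 1

/-- level `N` at the primes up to `N`, and level `1` (`p`-curvature zero) at the others -/
def upTo (N p : ℕ) : ℕ := if p ≤ N then N else 1

end Pool.Agent.N780.PCurv
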