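import Mathlib
import Pool.Agent.N780.Defs

set_option autoImplicit false

/-!
Definition of the effective form.
-/

namespace Pool.Agent.N780.PCurv

open PowerSeries
open scoped RatFunc

/-- Effective form. There is a number `N` such that for every ring `R` with a basis `b` over `ℤ` (for instance the
integers of a number field), every rank `n`, exponent `k` and degree `a` there is a constant `K` such that: if `A`
is an `n × n` matrix of polynomials over `R` of degree at most `a`, the coordinates of the coefficients being at most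
`H`, and the system `q^k Y' = A Y` has level `h(p)` at the primes `p ≤ K (H + 1)`, then all its formal solutions
at `c` lie in an extension of `ℂ(x)` of degree at most `N`. -/
def EffectivelyAlgebraic (c : ℂ) (q : Polynomial ℤ) (h : ℕ → ℕ) : Prop :=
  ∃ N : ℕ, ∀ (R : Type) [CommRing R] (d : ℕ) (b : Module.Basis (Fin d) ℤ R) (n k a : ℕ), ∃ K : ℕ,
    ∀ (ρ : R →+* ℂ) (H : ℕ) (A : Matrix (Fin n) (Fin n) (Polynomial R)),
      (∀ i j, (A i j).natDegree ≤ a) →
      (∀ i j l e, |b.repr ((A i j).coeff l) e| ≤ (H : ℤ)) →
      (∀ p : ℕ, p.Prime → p ≤ K * (H + 1) →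
        HasLevel (q.map (Int.castRingHom R) ^ k) A p (h p)) →
      ∃ L : IntermediateField (RatFunc ℂ) (LaurentSeries ℂ), FiniteDimensional (RatFunc ℂ) L ∧
        Module.finrank (RatFunc ℂ) L ≤ N ∧
        ∀ y : Fin n → ℂ⟦X⟧, IsSolution ρ c (q.map (Int.castRingHom R) ^ k) A y →
          ∀ i, HahnSeries.ofPowerSeries ℤ ℂ (y i) ∈ L

end Pool.Agent.N780.PCurv
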