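import Mathlib

set_option autoImplicit false

/-!
If products of `m` elements of a set which contains `1` span a space of dimension smaller than `m`, then the set
generates an extension of degree at most `m`.
-/

namespace Pool.Agent.N780

open Submodule
open scoped Pointwise

theorem adjoin_small {F E : Type*} [Field F] [Field E] [Algebra F E] {γ : Type} [Finite γ]
    (v : γ → E) (g0 : γ) (hg0 : v g0 = 1) (m : ℕ)
    (hdep : ∀ f : Fin m → (Fin m → γ), ¬ LinearIndependent F (fun i => ∏ l, v (f i l))) :
    FiniteDimensional F (IntermediateField.adjoin F (Set.range v)) ∧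
      Module.finrank F (IntermediateField.adjoin F (Set.range v)) ≤ m := by
  classical
  set V : Submodule F E := span F (Set.range v) with hV
  have hfgV : V.FG := fg_span (Set.finite_range v)
  have hfg : ∀ j, (V ^ j).FG := fun j => hfgV.pow j
  have hfin : ∀ j, FiniteDimensional F ↥(V ^ j) := fun j => Module.Finite.iff_fg.2 (hfg j)
  have h1V : (1 : E) ∈ V := by rw [← hg0]; exact subset_span ⟨g0, rfl⟩
  have h1 : ∀ j, (1 : E) ∈ V ^ j := by
    intro j
    induction j with
    | zero => rw [pow_zero]; exact Submodule.one_le.1 le_rfl
    | succ j ih => rw [pow_succ, ← one_mul (1 : E)]; exact mul_mem_mul ih h1V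
  have hmono : ∀ j, V ^ j ≤ V ^ (j + 1) := by
    intro j x hx
    rw [pow_succ, ← mul_one x]
    exact mul_mem_mul hx h1V
  -- the dimension
  have hdim : Module.finrank F ↥(V ^ m) < m := by
    by_contra hcon
    push Not at hcon
    have hsp : V ^ m = span F ((Set.range v) ^ m) := span_pow _ _
    obtain ⟨b, hbs, hspan, hli⟩ := exists_linearIndependent F ((Set.range v) ^ m)
    have hbfin : b.Finite := by
      have h2 : (Set.range v ^ m).Finite := by
        have h3 : ∀ i : ℕ, (Set.range v ^ i).Finite := by
          intro i
          induction i with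
          | zero => rw [pow_zero]; exact Set.finite_one
          | succ i ih => rw [pow_succ]; exact ih.mul (Set.finite_range v)
        exact h3 m
      exact h2.subset hbs
    have := hbfin.fintype
    have hcard : Module.finrank F ↥(V ^ m) = Fintype.card b := by
      rw [hsp, ← hspan]
      have h2 := finrank_span_eq_card hli
      rwa [Subtype.range_coe] at h2
    rw [hcard] at hcon
    obtain ⟨e⟩ : Nonempty (Fin m ↪ b) := by
      rw [Function.Embedding.nonempty_iff_card_le, Fintype.card_fin]
      exact hcon
    have hmem : ∀ i : Fin m, ∃ f : Fin m → γ, ((e i : b) : E) = ∏ l, v (f l) := by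
      intro i
      have h3 := hbs (e i).2
      rw [Set.mem_pow] at h3
      obtain ⟨f, hf⟩ := h3
      have h4 : ∀ l, ∃ g, v g = (f l : E) := fun l => (f l).2
      choose g hg using h4
      refine ⟨g, ?_⟩
      rw [← hf, List.prod_ofFn]
      exact Finset.prod_congr rfl fun l _ => (hg l).symm
    choose f hf using hmem
    apply hdep f
    have h5 : (fun i => ∏ l, v (f i l)) = fun i : Fin m => ((e i : b) : E) :=
      funext fun i => (hf i).symm
    rw [h5]
    exact hli.comp e e.injective
  -- a stationary index
  obtain ⟨j, hjm, hj⟩ : ∃ j, j < m ∧ V ^ j = V ^ (j + 1) := by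
    by_contra hcon
    push Not at hcon
    have h2 : ∀ j, j ≤ m → j ≤ Module.finrank F ↥(V ^ j) := by
      intro j
      induction j with
      | zero => intro _; exact Nat.zero_le _
      | succ j ih =>
        intro hjm
        have := hfin (j + 1)
        have h3 := finrank_lt_finrank_of_lt (lt_of_le_of_ne (hmono j) (hcon j (by omega)))
        have h4 := ih (by omega)
        omega
    have := h2 m le_rfl
    omega
  have hstab : ∀ i, V ^ (j + i) = V ^ j := by
    intro i
    induction i with
    | zero => rfl
    | succ i ih => rw [← add_assoc, pow_succ, ih, ← pow_succ, hj.symm]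
  set S : Subalgebra F E := (V ^ j).toSubalgebra (h1 j) (by
    intro x y hx hy
    have h2 := mul_mem_mul hx hy
    rwa [← pow_add, hstab] at h2) with hS
  have hrange : Set.range v ⊆ S := by
    rintro _ ⟨g, rfl⟩
    have h2 : v g ∈ V := subset_span ⟨g, rfl⟩
    have h3 := mul_mem_mul (h1 j) h2
    rw [one_mul, ← pow_succ, ← hj] at h3
    exact h3
  have hadj : Subalgebra.toSubmodule (Algebra.adjoin F (Set.range v)) ≤ V ^ j := by
    have h2 := Algebra.adjoin_le hrange
    intro x hx
    exact h2 hx
  have hfinj := hfin j
  have hfadj : FiniteDimensional F ↥(Subalgebra.toSubmodule (Algebra.adjoin F (Set.range v))) :=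
    Submodule.finiteDimensional_of_le hadj
  have hint : ∀ x ∈ Set.range v, IsIntegral F x := by
    intro x hx
    refine IsIntegral.of_mem_of_fg _ (Module.Finite.iff_fg.1 hfadj) x (Algebra.subset_adjoin hx)
  have heq : (IntermediateField.adjoin F (Set.range v)).toSubalgebra =
      Algebra.adjoin F (Set.range v) :=
    IntermediateField.adjoin_toSubalgebra_of_isAlgebraic fun x hx => (hint x hx).isAlgebraic
  have hjm2 : Module.finrank F ↥(V ^ j) ≤ m := by
    have h2 : ∀ i, j + i ≤ m → Module.finrank F ↥(V ^ j) ≤ Module.finrank F ↥(V ^ (j + i)) := by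
      intro i _
      rw [hstab]
    have h3 := h2 (m - j) (by omega)
    have h4 : j + (m - j) = m := by omega
    rw [h4] at h3
    omega
  have hfinal : Module.finrank F ↥(Subalgebra.toSubmodule (Algebra.adjoin F (Set.range v))) ≤ m :=
    (Submodule.finrank_mono hadj).trans hjm2
  rw [← heq] at hfadj hfinal
  exact ⟨hfadj, hfinal⟩

end Pool.Agent.N780
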