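import Mathlib
import Pool.Agent.N780.Ode

set_option autoImplicit false

/-!
Explicit majorants for the solutions of linear differential systems.
-/

namespace Pool.Agent.N780

open PowerSeries

variable {ι : Type*} [Fintype ι]

theorem nrm_of_ode (B : Matrix ι ι ℂ⟦X⟧) (hB : ∀ i j, Conv (B i j)) (w : ι → ℂ⟦X⟧)
    (hw : ∀ i, d⁄dX ℂ (w i) = ∑ j, B i j * w j) {r r1 : ℝ} (hr : 0 ≤ r) (h1 : r < r1) (h2 : r1 < 1)
    {M' : ℕ} (hMM : ∑ i, ∑ j, nrm r1 (B i j) ≤ M') (i₀ : ι) :
    nrm r (w i₀) ≤ (∑ i, ‖coeff 0 (w i)‖) * ((1 - r / r1)⁻¹) ^ (M' + 1) := by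
  have hr1' : 0 < r1 := lt_of_le_of_lt hr h1
  set θ : ℝ := r / r1 with hθ
  have hθ0 : 0 ≤ θ := by positivity
  have hθ1 : θ < 1 := (div_lt_one hr1').2 h1
  set M : ℝ := ∑ i, ∑ j, nrm r1 (B i j) with hM
  have hM0 : 0 ≤ M := Finset.sum_nonneg fun i _ => Finset.sum_nonneg fun j _ =>
    nrm_nonneg hr1'.le _
  set u : ℕ → ℝ := fun s => ∑ i, ‖coeff s (w i)‖ * r1 ^ s with hu
  have hu0 : ∀ s, 0 ≤ u s := fun s => Finset.sum_nonneg fun i _ =>
    mul_nonneg (norm_nonneg _) (pow_nonneg hr1'.le _)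
  set V : ℕ → ℝ := fun s => ∑ b ∈ Finset.range (s + 1), u b with hV
  have hV0 : ∀ s, 0 ≤ V s := fun s => Finset.sum_nonneg fun b _ => hu0 b
  have hwj : ∀ (j : ι) (s b : ℕ), b ≤ s → ‖coeff b (w j)‖ * r1 ^ b ≤ u b := by
    intro j s b _
    exact Finset.single_le_sum (f := fun i => ‖coeff b (w i)‖ * r1 ^ b)
      (fun i _ => mul_nonneg (norm_nonneg _) (pow_nonneg hr1'.le _)) (Finset.mem_univ j)
  have key : ∀ s : ℕ, ((s : ℝ) + 1) * u (s + 1) ≤ M * V s := by
    intro s
    have e1 : ∀ i, ((s : ℝ) + 1) * (‖coeff (s + 1) (w i)‖ * r1 ^ (s + 1)) ≤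
        ∑ j, nrm r1 (B i j) * V s := by
      intro i
      have e2 : coeff (s + 1) (w i) * ((s : ℂ) + 1) = ∑ j, coeff s (B i j * w j) := by
        rw [← coeff_derivative, hw, map_sum]
      have e3 : ‖((s : ℂ) + 1)‖ = (s : ℝ) + 1 := by
        rw [← Nat.cast_succ, Complex.norm_natCast, Nat.cast_succ]
      have e4 : ‖coeff (s + 1) (w i)‖ * ((s : ℝ) + 1) ≤ ∑ j, ‖coeff s (B i j * w j)‖ := by
        rw [← e3, ← norm_mul, e2]
        exact norm_sum_le _ _
      have e5 : ∀ j, ‖coeff s (B i j * w j)‖ * r1 ^ s ≤ nrm r1 (B i j) * V s := by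
        intro j
        refine (mul_aux hr1'.le _ _ s).trans ?_
        rw [hV, Finset.mul_sum, Finset.Nat.sum_antidiagonal_eq_sum_range_succ
          (fun a b => (‖coeff a (B i j)‖ * r1 ^ a) * (‖coeff b (w j)‖ * r1 ^ b)) s]
        rw [← Finset.sum_range_reflect]
        refine Finset.sum_le_sum fun b hb => ?_
        rw [Finset.mem_range] at hb
        have e6 : s - (s + 1 - 1 - b) = b := by omega
        rw [e6]
        exact mul_le_mul (le_nrm hr1'.le h2 (hB i j) _) (hwj j s b (by omega))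
          (mul_nonneg (norm_nonneg _) (pow_nonneg hr1'.le _)) (nrm_nonneg hr1'.le _)
      calc ((s : ℝ) + 1) * (‖coeff (s + 1) (w i)‖ * r1 ^ (s + 1))
          = (‖coeff (s + 1) (w i)‖ * ((s : ℝ) + 1)) * r1 ^ s * r1 := by rw [pow_succ]; ring
        _ ≤ (∑ j, ‖coeff s (B i j * w j)‖) * r1 ^ s * 1 := by gcongr
        _ = ∑ j, ‖coeff s (B i j * w j)‖ * r1 ^ s := by rw [mul_one, Finset.sum_mul]
        _ ≤ _ := Finset.sum_le_sum fun j _ => e5 j
    calc ((s : ℝ) + 1) * u (s + 1)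
        = ∑ i, ((s : ℝ) + 1) * (‖coeff (s + 1) (w i)‖ * r1 ^ (s + 1)) := by
          rw [hu, Finset.mul_sum]
      _ ≤ ∑ i, ∑ j, nrm r1 (B i j) * V s := Finset.sum_le_sum fun i _ => e1 i
      _ = M * V s := by rw [hM, Finset.sum_mul]; simp only [Finset.sum_mul]
  have hstep : ∀ s : ℕ, V (s + 1) ≤ (1 + M / ((s : ℝ) + 1)) * V s := by
    intro s
    have hp : (0 : ℝ) < (s : ℝ) + 1 := by positivity
    have e1 : V (s + 1) = V s + u (s + 1) := Finset.sum_range_succ _ _
    have e2 : u (s + 1) ≤ M * V s / ((s : ℝ) + 1) := by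
      rw [le_div_iff₀ hp]; linarith [key s]
    rw [e1, add_mul, one_mul]
    have e3 : M / ((s : ℝ) + 1) * V s = M * V s / ((s : ℝ) + 1) := by ring
    rw [e3]
    linarith
  have hVb : ∀ s : ℕ, V s ≤ u 0 * ((s + M').choose M' : ℕ) := by
    intro s
    induction s with
    | zero =>
      have : V 0 = u 0 := Finset.sum_range_one _
      rw [this, zero_add, Nat.choose_self]; simp
    | succ s ih =>
      have hp : (0 : ℝ) < (s : ℝ) + 1 := by positivity
      have e1 : ((s + 1 + M').choose M' : ℕ) * (s + 1) = (s + M' + 1) * (s + M').choose M' := by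
        have h3 := Nat.add_one_mul_choose_eq (s + M') s
        have h4 : (s + M').choose s = (s + M').choose M' := Nat.choose_symm_add
        have h5 : (s + M' + 1).choose (s + 1) = (s + 1 + M').choose M' := by
          have : s + M' + 1 = (s + 1) + M' := by ring
          rw [this, Nat.choose_symm_add]
        rw [h4, h5] at h3
        exact h3.symm
      have e2 : (((s + 1 + M').choose M' : ℕ) : ℝ) = ((s : ℝ) + M' + 1) / ((s : ℝ) + 1) *
          ((s + M').choose M' : ℕ) := by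
        rw [div_mul_eq_mul_div, eq_div_iff hp.ne']
        exact_mod_cast e1
      calc V (s + 1) ≤ (1 + M / ((s : ℝ) + 1)) * V s := hstep s
        _ ≤ (1 + M' / ((s : ℝ) + 1)) * (u 0 * ((s + M').choose M' : ℕ)) := by
            have := hV0 s
            gcongr
        _ = u 0 * ((s + 1 + M').choose M' : ℕ) := by
            rw [e2]
            field_simp
            ring
  have hnorm : ‖θ‖ < 1 := by rwa [Real.norm_of_nonneg hθ0]
  have hS := (summable_choose_mul_geometric_of_norm_lt_one M' hnorm).mul_left (u 0)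
  have hts := tsum_choose_mul_geometric_of_norm_lt_one M' hnorm
  have hu00 : u 0 = ∑ i, ‖coeff 0 (w i)‖ := by
    rw [hu]; simp
  have hterm : ∀ s, ‖coeff s (w i₀)‖ * r ^ s ≤ u 0 * (((s + M').choose M' : ℕ) * θ ^ s) := by
    intro s
    have h4 : r ^ s = r1 ^ s * θ ^ s := by
      rw [hθ, ← mul_pow, mul_div_cancel₀ _ hr1'.ne']
    rw [h4, ← mul_assoc, ← mul_assoc]
    refine mul_le_mul_of_nonneg_right ?_ (pow_nonneg hθ0 _)
    refine (hwj i₀ s s le_rfl).trans ?_
    exact (Finset.single_le_sum (f := u) (fun b _ => hu0 b) (Finset.self_mem_range_succ s)).trans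
      (hVb s)
  have hsm : Summable fun s => ‖coeff s (w i₀)‖ * r ^ s :=
    Summable.of_nonneg_of_le (fun s => mul_nonneg (norm_nonneg _) (pow_nonneg hr _)) hterm hS
  calc nrm r (w i₀) ≤ ∑' s, u 0 * (((s + M').choose M' : ℕ) * θ ^ s) := hsm.tsum_le_tsum hterm hS
    _ = u 0 * (1 / (1 - θ) ^ (M' + 1)) := by rw [tsum_mul_left, hts]
    _ = _ := by rw [hu00, one_div, inv_pow]

end Pool.Agent.N780
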