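import Mathlib
import Pool.Agent.N780.Fld

set_option autoImplicit false

/-!
Systems `q Y' = A Y` with integer polynomials, expanded at a point `c`, and their `p`-curvature.
-/

namespace Pool.Agent.N780

open PowerSeries
open scoped RatFunc

/-- the matrices with `q^s Y^(s) = der q A s * Y` for every solution of `q Y' = A Y` -/
noncomputable def der {R : Type*} [CommRing R] {ι : Type*} [Fintype ι] [DecidableEq ι]
    (q : Polynomial R) (A : Matrix ι ι (Polynomial R)) : ℕ → Matrix ι ι (Polynomial R)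
  | 0 => 1
  | s + 1 => q • (der q A s).map Polynomial.derivative -
      ((s : Polynomial R) * Polynomial.derivative q) • der q A s + der q A s * A

/-- the system `q Y' = A Y` has level (at least) `h` at the prime `p`: the matrices which express
`(1/s!) Y^(s)` by `Y` are `p`-integral for `s ≤ p^h`. Level `1` means that the `p`-curvature is zero. -/
def Level {R : Type*} [CommRing R] {ι : Type*} [Fintype ι] [DecidableEq ι]
    (q : Polynomial R) (A : Matrix ι ι (Polynomial R)) (p h : ℕ) : Prop :=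
  ∀ s ≤ p ^ h, ∀ i j, ((p ^ padicValNat p s.factorial : ℕ) : Polynomial R) ∣ der q A s i j

/-- expansion of an integer polynomial at `c` -/
noncomputable def sh (c : ℂ) : Polynomial ℤ →+* ℂ⟦X⟧ :=
  Polynomial.eval₂RingHom (Int.castRingHom ℂ⟦X⟧) (X + C c)

theorem sh_X (c : ℂ) : sh c Polynomial.X = X + C c := by
  unfold sh; simp

theorem sh_C (c : ℂ) (a : ℤ) : sh c (Polynomial.C a) = C (a : ℂ) := by
  unfold sh; simp

theorem sh_deriv (c : ℂ) (P : Polynomial ℤ) :
    d⁄dX ℂ (sh c P) = sh c (Polynomial.derivative P) := by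
  induction P using Polynomial.induction_on' with
  | add P Q hP hQ => rw [map_add, map_add, map_add, map_add, hP, hQ]
  | monomial k a =>
    rw [← Polynomial.C_mul_X_pow_eq_monomial, map_mul, map_pow, sh_X, sh_C,
      Polynomial.derivative_C_mul_X_pow, Derivation.leibniz, derivative_C, derivative_pow, map_add,
      derivative_X, derivative_C, map_mul, map_pow, sh_X, sh_C]
    rw [smul_zero, add_zero, add_zero, mul_one, smul_eq_mul]
    push_cast
    rw [map_mul, map_natCast]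
    ring

theorem dv_sh {O : Subring ℂ} {c : ℂ} (hc : c ∈ O) (P : Polynomial ℤ) : Dv O 1 (sh c P) := by
  have hC : ∀ a ∈ O, Dv O 1 (C a) := by
    intro a ha s
    rw [coeff_C]
    split_ifs
    · exact ⟨a, ha, by simp⟩
    · exact ⟨0, O.zero_mem, by simp⟩
  have hX : Dv O 1 (X : ℂ⟦X⟧) := by
    intro s
    rw [coeff_X]
    split_ifs
    · exact ⟨1, O.one_mem, by simp⟩
    · exact ⟨0, O.zero_mem, by simp⟩
  induction P using Polynomial.induction_on' with
  | add P Q hP hQ => rw [map_add]; exact hP.add hQ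
  | monomial k a =>
    rw [← Polynomial.C_mul_X_pow_eq_monomial, map_mul, map_pow, sh_X, sh_C]
    have h1 : ∀ k : ℕ, Dv O 1 ((X + C c : ℂ⟦X⟧) ^ k) := by
      intro k
      induction k with
      | zero => rw [pow_zero]; exact Dv.one_one
      | succ k ih =>
        rw [pow_succ]
        have := ih.mul (hX.add (hC c hc))
        rwa [mul_one] at this
    have := (hC (a : ℂ) (intCast_mem O a)).mul (h1 k)
    rwa [mul_one] at this

/-- inverses -/
theorem dv_inv {O : Subring ℂ} {f : ℂ⟦X⟧} (hf : Dv O 1 f) (hu : ∃ u ∈ O, u * coeff 0 f = 1) :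
    ∃ g : ℂ⟦X⟧, Dv O 1 g ∧ f * g = 1 := by
  choose a ha h1 using hf
  set F : O⟦X⟧ := mk fun s => ⟨a s, ha s⟩ with hF
  have hFf : PowerSeries.map O.subtype F = f := by
    ext s
    rw [coeff_map, hF, coeff_mk, h1 s, one_mul]; rfl
  have hunit : IsUnit F := by
    rw [isUnit_iff_constantCoeff]
    obtain ⟨u, hu, hu1⟩ := hu
    refine IsUnit.of_mul_eq_one (⟨u, hu⟩ : O) ?_
    apply Subtype.ext
    have e : ((constantCoeff F : O) : ℂ) = coeff 0 f := by
      rw [← coeff_zero_eq_constantCoeff_apply, hF, coeff_mk, h1 0, one_mul]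
    rw [Subring.coe_mul, e, mul_comm]
    exact hu1
  obtain ⟨Gu, hG⟩ := hunit.exists_right_inv
  refine ⟨PowerSeries.map O.subtype Gu,
    fun s => ⟨((coeff s Gu : O) : ℂ), (coeff s Gu : O).2, ?_⟩, ?_⟩
  · rw [coeff_map, one_mul]; rfl
  · rw [← hFf, ← map_mul, hG, map_one]

theorem Dv.pow_one {O : Subring ℂ} {f : ℂ⟦X⟧} (hf : Dv O 1 f) (k : ℕ) : Dv O 1 (f ^ k) := by
  induction k with
  | zero => rw [pow_zero]; exact Dv.one_one
  | succ k ih =>
    rw [pow_succ]
    have := ih.mul hf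
    rwa [mul_one] at this

theorem sh_der {ι : Type*} [Fintype ι] [DecidableEq ι] (c : ℂ) (q : Polynomial ℤ)
    (A : Matrix ι ι (Polynomial ℤ)) (Gm : Matrix ι ι ℂ⟦X⟧) (hG : ∀ i j, sh c q * Gm i j = sh c (A i j)) (s : ℕ) :
    ∀ i j, sh c q ^ s * gs Gm s i j = sh c (der q A s i j) := by
  induction s with
  | zero =>
    intro i j
    rw [pow_zero, one_mul, gs_zero, der, Matrix.one_apply, Matrix.one_apply]
    split_ifs <;> simp
  | succ s ih =>
    intro i j
    have e1 : der q A (s + 1) i j = q * Polynomial.derivative (der q A s i j) -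
        (s : Polynomial ℤ) * Polynomial.derivative q * der q A s i j +
        ∑ k, der q A s i k * A k j := by
      rw [der]
      simp only [Matrix.add_apply, Matrix.sub_apply, Matrix.smul_apply, Matrix.map_apply,
        Matrix.mul_apply, smul_eq_mul]
    have e2 : gs Gm (s + 1) i j = d⁄dX ℂ (gs Gm s i j) + ∑ k, gs Gm s i k * Gm k j := by
      rw [gs_succ, Matrix.add_apply, mD_apply, Matrix.mul_apply]
    have e3 : sh c q ^ (s + 1) * d⁄dX ℂ (gs Gm s i j) =
        sh c q * sh c (Polynomial.derivative (der q A s i j)) -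
        (s : ℂ⟦X⟧) * sh c (Polynomial.derivative q) * sh c (der q A s i j) := by
      have h1 := congrArg (d⁄dX ℂ) (ih i j)
      rw [Derivation.leibniz, smul_eq_mul, smul_eq_mul, derivative_pow, sh_deriv, sh_deriv] at h1
      rw [← h1, ← ih i j]
      rcases Nat.eq_zero_or_pos s with h0 | h0
      · subst h0; simp
      · obtain ⟨u, rfl⟩ := Nat.exists_eq_add_of_le h0
        have e : 1 + u - 1 = u := by omega
        rw [e]
        ring
    have e4 : sh c q ^ (s + 1) * ∑ k, gs Gm s i k * Gm k j = ∑ k, sh c (der q A s i k) * sh c (A k j) := by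
      rw [Finset.mul_sum]
      refine Finset.sum_congr rfl fun k _ => ?_
      rw [← ih i k, ← hG k j, pow_succ]; ring
    rw [e2, mul_add, e3, e4, e1, map_add, map_sub, map_mul, map_mul, map_mul, map_natCast, map_sum]
    simp only [map_mul]

/-- the combination of a constant -/
theorem toL_C_mul_mem (L : IntermediateField (RatFunc ℂ) (LaurentSeries ℂ)) (a : ℂ) {f : ℂ⟦X⟧}
    (hf : toL f ∈ L) : toL (C a * f) ∈ L := by
  rw [map_mul]
  refine L.mul_mem ?_ hf
  have h1 : toL (C a) = algebraMap (RatFunc ℂ) (LaurentSeries ℂ)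
      (algebraMap (Polynomial ℂ) (RatFunc ℂ) (Polynomial.C a)) := by
    have := RatFunc.coe_coe (Polynomial.C a)
    rw [Polynomial.coe_C] at this
    exact this
  rw [h1]
  exact L.algebraMap_mem _

/-- the theorem for one datum -/
theorem Datum.systems (E : Datum) (h : ℕ → ℕ) (hd : E.d = den h) {c : ℂ} (hc : c ∈ E.O)
    (q₁ : Polynomial ℤ) (hu : ∃ u ∈ E.O, u * coeff 0 (sh c q₁) = 1)
    (h₀ : ∃ ψ, Conv ψ ∧ sh c q₁ * ψ = 1) (h₁ : ∃ ψ, Conv ψ ∧ E.σ (sh c q₁) * ψ = 1) :
    ∃ L : IntermediateField (RatFunc ℂ) (LaurentSeries ℂ), FiniteDimensional (RatFunc ℂ) L ∧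
      ∀ (ι : Type) [Fintype ι] [DecidableEq ι] (k : ℕ) (A : Matrix ι ι (Polynomial ℤ)),
        (∀ p : ℕ, p.Prime → Level (q₁ ^ k) A p (h p)) →
        ∀ y : ι → ℂ⟦X⟧, (∀ i, sh c (q₁ ^ k) * d⁄dX ℂ (y i) = ∑ j, sh c (A i j) * y j) →
          ∀ i, toL (y i) ∈ L := by
  obtain ⟨L, hL, hLm⟩ := E.exists_L
  refine ⟨L, hL, fun ι _ _ k A hp y hy i => ?_⟩
  obtain ⟨w, hw1, hw2⟩ := dv_inv (dv_sh hc q₁) hu
  obtain ⟨ψ₀, hψ₀, hψ₀'⟩ := h₀
  obtain ⟨ψ, hψ, hψ'⟩ := h₁
  have hwψ : w = ψ₀ := by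
    calc w = w * (sh c q₁ * ψ₀) := by rw [hψ₀', mul_one]
      _ = (sh c q₁ * w) * ψ₀ := by ring
      _ = ψ₀ := by rw [hw2, one_mul]
  have hσw : E.σ w = ψ := by
    have h2 : E.σ (sh c q₁) * E.σ w = 1 := by rw [← map_mul, hw2, map_one]
    calc E.σ w = E.σ w * (E.σ (sh c q₁) * ψ) := by rw [hψ', mul_one]
      _ = (E.σ (sh c q₁) * E.σ w) * ψ := by ring
      _ = ψ := by rw [h2, one_mul]
  have hqw : sh c (q₁ ^ k) * w ^ k = 1 := by rw [map_pow, ← mul_pow, hw2, one_pow]
  -- the matrix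
  set G : Matrix ι ι ℂ⟦X⟧ := fun i j => w ^ k * sh c (A i j) with hG
  have hGq : ∀ i j, sh c (q₁ ^ k) * G i j = sh c (A i j) := by
    intro i j
    calc sh c (q₁ ^ k) * (w ^ k * sh c (A i j)) = (sh c (q₁ ^ k) * w ^ k) * sh c (A i j) := by ring
      _ = _ := by rw [hqw, one_mul]
  have hGv : Mv E.O 1 G := by
    intro i j
    have := (hw1.pow_one k).mul (dv_sh hc (A i j))
    rwa [mul_one] at this
  have hGp : ∀ p : ℕ, p.Prime → ∀ s ≤ p ^ h p, Mv E.O ((p ^ vf p s : ℕ) : ℂ) (gs G s) := by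
    intro p hpp s hs i j
    obtain ⟨R, hR⟩ := hp p hpp s hs i j
    have h3 := sh_der c (q₁ ^ k) A G hGq s i j
    have h4 : gs G s i j = (w ^ k) ^ s * sh c (der (q₁ ^ k) A s i j) := by
      rw [← h3, ← mul_assoc, ← mul_pow, mul_comm (w ^ k), hqw, one_pow, one_mul]
    have h5 : Dv E.O ((p ^ vf p s : ℕ) : ℂ) (sh c (der (q₁ ^ k) A s i j)) := by
      rw [hR, map_mul, map_natCast]
      have h6 : ∀ N : ℕ, Dv E.O (N : ℂ) ((N : ℕ) : ℂ⟦X⟧) := by
        intro N u
        have e : ((N : ℕ) : ℂ⟦X⟧) = C (N : ℂ) := by simp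
        rw [e, coeff_C]
        split_ifs
        · exact ⟨1, E.O.one_mem, by simp⟩
        · exact ⟨0, E.O.zero_mem, by simp⟩
      have := (h6 (p ^ vf p s)).mul (dv_sh hc R)
      rwa [mul_one] at this
    rw [h4]
    have := ((hw1.pow_one k).pow_one s).mul h5
    rwa [one_mul] at this
  -- convergence
  have hshc : ∀ P : Polynomial ℤ, Conv (sh c P) ∧ Conv (E.σ (sh c P)) := by
    intro P
    induction P using Polynomial.induction_on' with
    | add P Q hP hQ => rw [map_add, map_add]; exact ⟨hP.1.add hQ.1, hP.2.add hQ.2⟩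
    | monomial l a =>
      rw [← Polynomial.C_mul_X_pow_eq_monomial, map_mul, map_pow, sh_X, sh_C, map_mul, map_pow,
        map_add, E.σ_X, E.σ_C, E.σ_C]
      exact ⟨(conv_C _).mul ((conv_X.add (conv_C _)).pow _),
        (conv_C _).mul ((E.hφ.add (conv_C _)).pow _)⟩
  have hGc : ∀ i j, Conv (G i j) := fun i j => by
    rw [hG]
    exact ((hwψ ▸ hψ₀ : Conv w).pow k).mul (hshc _).1
  have hBc : ∀ i j, Conv (E.σ (G i j) * d⁄dX ℂ E.φ) := fun i j => by
    rw [hG]
    simp only [map_mul, map_pow, hσw]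
    exact ((hψ.pow k).mul (hshc _).2).mul E.hφ.derivative
  have hgood : ∀ i j, E.Good (fund G i j) := by
    intro i j
    refine ⟨fun s => ?_, conv_fund G hGc i j, ?_⟩
    · rw [hd]
      exact den_fund hGv hGp i j s
    · refine conv_of_ode (fun i j => E.σ (G i j) * d⁄dX ℂ E.φ) hBc
        (fun i => E.σ (fund G i j)) (fun i => ?_) i
      have h7 := congrFun (congrFun (fund_ode G) i) j
      rw [mD_apply, Matrix.mul_apply] at h7
      rw [E.σ_deriv, h7, map_sum, Finset.sum_mul]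
      refine Finset.sum_congr rfl fun k _ => ?_
      rw [map_mul]; ring
  -- the solution
  have hysol : ∀ i, d⁄dX ℂ (y i) = ∑ j, G i j * y j := by
    intro i
    calc d⁄dX ℂ (y i) = w ^ k * (sh c (q₁ ^ k) * d⁄dX ℂ (y i)) := by
          rw [← mul_assoc, mul_comm (w ^ k), hqw, one_mul]
      _ = _ := by
          rw [hy i, Finset.mul_sum]
          refine Finset.sum_congr rfl fun j _ => ?_
          rw [hG]; ring
  rw [sol_eq G y hysol i, map_sum]
  refine L.sum_mem fun j _ => toL_C_mul_mem L _ (hLm _ (hgood i j))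

end Pool.Agent.N780
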