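import Mathlib
import Pool.Agent.N780.Ode

set_option autoImplicit false

/-!
A multiplicity estimate for polynomial combinations of the entries of a solution of a linear differential system
at an ordinary point.
-/

namespace Pool.Agent.N780

open PowerSeries Matrix

variable {β : Type*} [Fintype β]

theorem ps_cancel {f g h : ℂ⟦X⟧} (hf : f ≠ 0) (e : f * g = f * h) : g = h :=
  mul_left_cancel₀ hf e

/-- the reduced lattice: `T` -/
theorem zero_core {l : ℕ} {q : ℂ⟦X⟧} (hq : coeff 0 q ≠ 0) (A : Matrix β β ℂ⟦X⟧) (W : β → ℂ⟦X⟧)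
    (hW : ∀ b, q * d⁄dX ℂ (W b) = ∑ c, A b c * W c)
    (R : Matrix (Fin l) β ℂ⟦X⟧) (c : Fin l → β) {e : ℕ} {u : ℂ⟦X⟧} (hu : coeff 0 u ≠ 0)
    (hdet : (R.submatrix id c).det = X ^ e * u)
    (hmin : ∀ i b, X ^ e ∣ ((R.submatrix id c).updateCol i fun j => R j b).det)
    (E : Matrix (Fin l) (Fin l) ℂ⟦X⟧)
    (hE : (R.submatrix id c).det • (q • mD R + R * A) = E * R) :
    ∃ z : Fin l → ℂ⟦X⟧, (∀ j, ∑ b, R j b * W b = ∑ i, R j (c i) * z i) ∧
      ((∀ i, coeff 0 (z i) = 0) → ∀ i, z i = 0) := by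
  classical
  set M : Matrix (Fin l) (Fin l) ℂ⟦X⟧ := R.submatrix id c with hM
  have hu0 : u ≠ 0 := by
    rintro rfl
    exact hu (by simp)
  have hΔ : M.det ≠ 0 := by
    rw [hdet]
    exact mul_ne_zero (pow_ne_zero _ X_ne_zero) hu0
  have huu : IsUnit u := by
    rw [isUnit_iff_constantCoeff, ← coeff_zero_eq_constantCoeff_apply]
    exact isUnit_iff_ne_zero.2 hu
  obtain ⟨v, hv⟩ := huu.exists_right_inv
  choose τ hτ using hmin
  set T : Matrix (Fin l) β ℂ⟦X⟧ := Matrix.of fun i b => τ i b * v with hT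
  have hΔT : ∀ i b, M.det * T i b = (M.updateCol i fun j => R j b).det := by
    intro i b
    rw [hdet, hτ i b, hT, Matrix.of_apply]
    calc X ^ e * u * (τ i b * v) = X ^ e * τ i b * (u * v) := by ring
      _ = _ := by rw [hv, mul_one]
  have hadj : M.det • T = M.adjugate * R := by
    ext1 i b
    rw [Matrix.smul_apply, smul_eq_mul, hΔT i b, ← Matrix.cramer_apply,
      Matrix.cramer_eq_adjugate_mulVec]
    rfl
  have hMT : M * T = R := by
    have h1 : M.det • (M * T) = M.det • R := by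
      rw [← Matrix.mul_smul, hadj, ← Matrix.mul_assoc, Matrix.mul_adjugate, Matrix.smul_mul,
        Matrix.one_mul]
    ext1 i b
    have h2 := congrFun (congrFun h1 i) b
    rw [Matrix.smul_apply, Matrix.smul_apply, smul_eq_mul, smul_eq_mul] at h2
    exact ps_cancel hΔ h2
  have hTc : T.submatrix id c = 1 := by
    have h1 : M.det • (T.submatrix id c) = M.det • (1 : Matrix (Fin l) (Fin l) ℂ⟦X⟧) := by
      rw [← Matrix.adjugate_mul]
      ext1 i j
      have h2 := congrFun (congrFun hadj i) (c j)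
      rw [Matrix.smul_apply] at h2
      rw [Matrix.smul_apply, Matrix.submatrix_apply, id, h2]
      rfl
    ext1 i j
    have h2 := congrFun (congrFun h1 i) j
    rw [Matrix.smul_apply, Matrix.smul_apply, smul_eq_mul, smul_eq_mul] at h2
    exact ps_cancel hΔ h2
  -- the derivative of `T`
  set NT : Matrix (Fin l) β ℂ⟦X⟧ := q • mD T + T * A with hNT
  set Nc : Matrix (Fin l) (Fin l) ℂ⟦X⟧ := NT.submatrix id c with hNc
  have h1 : q • mD R + R * A = q • (mD M * T) + M * NT := by
    conv_lhs => rw [← hMT]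
    rw [mD_mul, hNT, Matrix.mul_add, smul_add, Matrix.mul_assoc, Matrix.mul_smul, add_assoc]
  set Y : Matrix (Fin l) (Fin l) ℂ⟦X⟧ := E * M - (M.det * q) • mD M with hY
  have h2 : M.det • (M * NT) = Y * T := by
    rw [hY, Matrix.sub_mul, Matrix.mul_assoc, hMT, ← hE, h1, smul_add, Matrix.smul_mul, smul_smul,
      add_sub_cancel_left]
  have h3 : M.det • (M * Nc) = Y := by
    have h4 : (M.det • (M * NT)).submatrix id c = (Y * T).submatrix id c := by rw [h2]
    have h5 : (Y * T).submatrix id c = Y := by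
      rw [Matrix.submatrix_mul_equiv Y T id (Equiv.refl _) c |>.symm] 
      rw [show T.submatrix (Equiv.refl (Fin l)) c = 1 from hTc, Matrix.mul_one]
      rfl
    rw [h5] at h4
    rw [← h4]
    ext1 i j
    rfl
  have h6 : NT = Nc * T := by
    have h7 : (M.det * M.det) • NT = (M.det * M.det) • (Nc * T) := by
      have h8 : M.adjugate * (M.det • (M * NT)) = M.adjugate * ((M.det • (M * Nc)) * T) := by
        rw [h2, h3]
      rw [Matrix.mul_smul, ← Matrix.mul_assoc, Matrix.adjugate_mul, Matrix.smul_mul, Matrix.one_mul,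
        Matrix.smul_mul, Matrix.mul_smul, Matrix.mul_assoc, ← Matrix.mul_assoc M.adjugate,
        Matrix.adjugate_mul, Matrix.smul_mul, Matrix.one_mul, smul_smul, smul_smul] at h8
      exact h8
    ext1 i b
    have h9 := congrFun (congrFun h7 i) b
    rw [Matrix.smul_apply, Matrix.smul_apply, smul_eq_mul, smul_eq_mul] at h9
    exact ps_cancel (mul_ne_zero hΔ hΔ) h9
  -- the solution `z = T W`
  set z : Fin l → ℂ⟦X⟧ := fun i => ∑ b, T i b * W b with hz
  refine ⟨z, fun j => ?_, fun hz0 => ?_⟩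
  · have e1 : ∀ b, R j b = ∑ i, M j i * T i b := fun b => by
      rw [← hMT, Matrix.mul_apply]
    calc ∑ b, R j b * W b = ∑ b, ∑ i, M j i * T i b * W b := by
          refine Finset.sum_congr rfl fun b _ => ?_
          rw [e1, Finset.sum_mul]
      _ = ∑ i, ∑ b, M j i * T i b * W b := Finset.sum_comm
      _ = ∑ i, R j (c i) * z i := by
          refine Finset.sum_congr rfl fun i _ => ?_
          rw [hz, Finset.mul_sum]
          refine Finset.sum_congr rfl fun b _ => ?_
          rw [hM, Matrix.submatrix_apply, id]; ring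
  · have hode : ∀ i, q * d⁄dX ℂ (z i) = ∑ j, Nc i j * z j := by
      intro i
      have e2 : q * d⁄dX ℂ (z i) = ∑ b, NT i b * W b := by
        rw [hz, map_sum, Finset.mul_sum]
        calc ∑ b, q * d⁄dX ℂ (T i b * W b)
            = ∑ b, (q * d⁄dX ℂ (T i b) * W b + ∑ a, T i b * A b a * W a) := by
              refine Finset.sum_congr rfl fun b _ => ?_
              rw [Derivation.leibniz, smul_eq_mul, smul_eq_mul]
              calc q * (T i b * d⁄dX ℂ (W b) + W b * d⁄dX ℂ (T i b))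
                  = q * d⁄dX ℂ (T i b) * W b + T i b * (q * d⁄dX ℂ (W b)) := by ring
                _ = _ := by
                  rw [hW, Finset.mul_sum]
                  congr 1
                  exact Finset.sum_congr rfl fun a _ => by ring
          _ = ∑ b, q * d⁄dX ℂ (T i b) * W b + ∑ a, ∑ b, T i b * A b a * W a := by
              rw [Finset.sum_add_distrib, Finset.sum_comm (s := Finset.univ) (t := Finset.univ)
                (f := fun b a => T i b * A b a * W a)]
          _ = _ := by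
              rw [← Finset.sum_add_distrib]
              refine Finset.sum_congr rfl fun b _ => ?_
              rw [hNT, Matrix.add_apply, Matrix.smul_apply, mD_apply, Matrix.mul_apply,
                smul_eq_mul, add_mul, Finset.sum_mul]
      rw [e2, h6]
      calc ∑ b, (Nc * T) i b * W b = ∑ b, ∑ j, Nc i j * T j b * W b := by
            refine Finset.sum_congr rfl fun b _ => ?_
            rw [Matrix.mul_apply, Finset.sum_mul]
        _ = ∑ j, ∑ b, Nc i j * T j b * W b := Finset.sum_comm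
        _ = _ := by
            refine Finset.sum_congr rfl fun j _ => ?_
            rw [hz, Finset.mul_sum]
            exact Finset.sum_congr rfl fun b _ => by ring
    have hqu : IsUnit q := by
      rw [isUnit_iff_constantCoeff, ← coeff_zero_eq_constantCoeff_apply]
      exact isUnit_iff_ne_zero.2 hq
    obtain ⟨w, hw⟩ := hqu.exists_left_inv
    have hode2 : ∀ i, d⁄dX ℂ (z i) = ∑ j, (w • Nc) i j * z j := by
      intro i
      calc d⁄dX ℂ (z i) = w * (q * d⁄dX ℂ (z i)) := by rw [← mul_assoc, hw, one_mul]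
        _ = _ := by
            rw [hode i, Finset.mul_sum]
            refine Finset.sum_congr rfl fun j _ => ?_
            rw [Matrix.smul_apply, smul_eq_mul]; ring
    intro i
    rw [sol_eq (w • Nc) z hode2 i]
    refine Finset.sum_eq_zero fun j _ => ?_
    rw [hz0 j, map_zero, zero_mul]

/-- the rows `R_j` with `(q d/dX)^j F = R_j W` -/
noncomputable def rowp (Q : Polynomial ℂ) (A : Matrix β β (Polynomial ℂ)) (P : β → Polynomial ℂ) :
    ℕ → β → Polynomial ℂ
  | 0 => P
  | j + 1 => fun b => Q * Polynomial.derivative (rowp Q A P j b) + ∑ i, rowp Q A P j i * A i b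

theorem rowp_deg {Q : Polynomial ℂ} {A : Matrix β β (Polynomial ℂ)} {P : β → Polynomial ℂ} {a D : ℕ}
    (hQ : Q.natDegree ≤ a) (hA : ∀ i j, (A i j).natDegree ≤ a) (hP : ∀ b, (P b).natDegree ≤ D)
    (j : ℕ) (b : β) : (rowp Q A P j b).natDegree ≤ D + j * a := by
  induction j generalizing b with
  | zero => rw [Nat.zero_mul, Nat.add_zero]; exact hP b
  | succ j ih =>
    rw [rowp]
    refine Polynomial.natDegree_add_le_of_degree_le ?_ ?_
    · refine (Polynomial.natDegree_mul_le).trans ?_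
      have h1 := (Polynomial.natDegree_derivative_le (rowp Q A P j b)).trans (Nat.sub_le _ _)
      have h2 := ih b
      have h3 : (j + 1) * a = j * a + a := by ring
      omega
    · refine Polynomial.natDegree_sum_le_of_forall_le _ _ fun i _ => ?_
      refine (Polynomial.natDegree_mul_le).trans ?_
      have h1 := ih i
      have h2 := hA i b
      have h3 : (j + 1) * a = j * a + a := by ring
      omega

/-- the functions `(q d/dX)^j F` -/
noncomputable def rowF (Q : Polynomial ℂ) (A : Matrix β β (Polynomial ℂ)) (P : β → Polynomial ℂ)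
    (W : β → ℂ⟦X⟧) (j : ℕ) : ℂ⟦X⟧ := ∑ b, (rowp Q A P j b : ℂ⟦X⟧) * W b

theorem rowF_succ {Q : Polynomial ℂ} {A : Matrix β β (Polynomial ℂ)} (P : β → Polynomial ℂ)
    {W : β → ℂ⟦X⟧} (hW : ∀ b, (Q : ℂ⟦X⟧) * d⁄dX ℂ (W b) = ∑ c, (A b c : ℂ⟦X⟧) * W c) (j : ℕ) :
    rowF Q A P W (j + 1) = (Q : ℂ⟦X⟧) * d⁄dX ℂ (rowF Q A P W j) := by
  unfold rowF
  rw [map_sum, Finset.mul_sum]
  have e1 : ∀ b, (Q : ℂ⟦X⟧) * d⁄dX ℂ ((rowp Q A P j b : ℂ⟦X⟧) * W b) =
      (Q : ℂ⟦X⟧) * (Polynomial.derivative (rowp Q A P j b) : ℂ⟦X⟧) * W b +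
        ∑ a, (rowp Q A P j b : ℂ⟦X⟧) * (A b a : ℂ⟦X⟧) * W a := by
    intro b
    rw [Derivation.leibniz, smul_eq_mul, smul_eq_mul, derivative_coe]
    calc (Q : ℂ⟦X⟧) * ((rowp Q A P j b : ℂ⟦X⟧) * d⁄dX ℂ (W b) +
          W b * (Polynomial.derivative (rowp Q A P j b) : ℂ⟦X⟧))
        = (Q : ℂ⟦X⟧) * (Polynomial.derivative (rowp Q A P j b) : ℂ⟦X⟧) * W b +
          (rowp Q A P j b : ℂ⟦X⟧) * ((Q : ℂ⟦X⟧) * d⁄dX ℂ (W b)) := by ring
      _ = _ := by
        rw [hW, Finset.mul_sum]
        congr 1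
        exact Finset.sum_congr rfl fun a _ => by ring
  simp only [e1]
  rw [Finset.sum_add_distrib, Finset.sum_comm (s := Finset.univ) (t := Finset.univ)
    (f := fun b a => (rowp Q A P j b : ℂ⟦X⟧) * (A b a : ℂ⟦X⟧) * W a), ← Finset.sum_add_distrib]
  refine Finset.sum_congr rfl fun b _ => ?_
  have e2 : ((rowp Q A P (j + 1) b : Polynomial ℂ) : ℂ⟦X⟧) =
      (Q : ℂ⟦X⟧) * (Polynomial.derivative (rowp Q A P j b) : ℂ⟦X⟧) +
        ∑ i, (rowp Q A P j i : ℂ⟦X⟧) * (A i b : ℂ⟦X⟧) := by
    rw [rowp, Polynomial.coe_add, Polynomial.coe_mul]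
    congr 1
    have := map_sum (Polynomial.coeToPowerSeries.ringHom (R := ℂ))
      (fun i => rowp Q A P j i * A i b) Finset.univ
    simp only [Polynomial.coeToPowerSeries.ringHom_apply, Polynomial.coe_mul] at this
    exact this
  rw [e2, add_mul, Finset.sum_mul]

theorem dvd_deriv {f : ℂ⟦X⟧} {N : ℕ} (h : X ^ N ∣ f) : X ^ (N - 1) ∣ d⁄dX ℂ f := by
  rw [X_pow_dvd_iff] at h ⊢
  intro m hm
  rw [coeff_derivative, h (m + 1) (by omega), zero_mul]

theorem rowF_dvd {Q : Polynomial ℂ} {A : Matrix β β (Polynomial ℂ)} (P : β → Polynomial ℂ)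
    {W : β → ℂ⟦X⟧} (hW : ∀ b, (Q : ℂ⟦X⟧) * d⁄dX ℂ (W b) = ∑ c, (A b c : ℂ⟦X⟧) * W c) {N : ℕ}
    (h : X ^ N ∣ rowF Q A P W 0) (j : ℕ) : X ^ (N - j) ∣ rowF Q A P W j := by
  induction j with
  | zero => exact h
  | succ j ih =>
    rw [rowF_succ P hW]
    refine Dvd.dvd.mul_left ?_ _
    have := dvd_deriv ih
    rwa [Nat.sub_sub] at this

/-- the first nonzero coefficient -/
theorem exists_fac {f : ℂ⟦X⟧} (hf : f ≠ 0) : ∃ (e : ℕ) (u : ℂ⟦X⟧), coeff 0 u ≠ 0 ∧ f = X ^ e * u := by
  classical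
  have hex : ∃ s, coeff s f ≠ 0 := by
    by_contra hcon
    push Not at hcon
    exact hf (PowerSeries.ext fun s => by rw [hcon s, map_zero])
  have h2 : ∀ s < Nat.find hex, coeff s f = 0 := fun s hs => by
    have := Nat.find_min hex hs
    push Not at this
    exact this
  obtain ⟨u, hu⟩ := X_pow_dvd_iff.2 h2
  refine ⟨Nat.find hex, u, ?_, hu⟩
  have h3 := Nat.find_spec hex
  intro h0
  apply h3
  have h4 : coeff (Nat.find hex) (X ^ (Nat.find hex) * u) = coeff 0 u := by
    have := coeff_X_pow_mul u (Nat.find hex) 0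
    rwa [zero_add] at this
  calc coeff (Nat.find hex) f = coeff (Nat.find hex) (X ^ (Nat.find hex) * u) := congrArg _ hu
    _ = 0 := by rw [h4, h0]

theorem natDegree_det {l : ℕ} (M : Matrix (Fin l) (Fin l) (Polynomial ℂ)) {B : ℕ}
    (hM : ∀ i j, (M i j).natDegree ≤ B) : M.det.natDegree ≤ l * B := by
  rw [Matrix.det_apply]
  refine Polynomial.natDegree_sum_le_of_forall_le _ _ fun σ _ => ?_
  refine (Polynomial.natDegree_smul_le _ _).trans ?_
  refine (Polynomial.natDegree_prod_le _ _).trans ?_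
  calc ∑ i, (M (σ i) i).natDegree ≤ ∑ _i : Fin l, B := Finset.sum_le_sum fun i _ => hM _ _
    _ = l * B := by rw [Finset.sum_const, Finset.card_univ, Fintype.card_fin, smul_eq_mul]

theorem coe_det {l : ℕ} (M : Matrix (Fin l) (Fin l) (Polynomial ℂ)) :
    ((M.det : Polynomial ℂ) : ℂ⟦X⟧) = (M.map fun p => (p : ℂ⟦X⟧)).det :=
  RingHom.map_det (Polynomial.coeToPowerSeries.ringHom (R := ℂ)) M

/-- **the multiplicity estimate** -/
theorem zero_est [DecidableEq β] {Q : Polynomial ℂ} (hQ0 : Q.coeff 0 ≠ 0)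
    {A : Matrix β β (Polynomial ℂ)} {P : β → Polynomial ℂ} {a D : ℕ}
    (hQ : Q.natDegree ≤ a) (hA : ∀ i j, (A i j).natDegree ≤ a) (hP : ∀ b, (P b).natDegree ≤ D)
    {W : β → ℂ⟦X⟧} (hW : ∀ b, (Q : ℂ⟦X⟧) * d⁄dX ℂ (W b) = ∑ c, (A b c : ℂ⟦X⟧) * W c)
    (hF : ∑ b, (P b : ℂ⟦X⟧) * W b ≠ 0) :
    ∃ s ≤ Fintype.card β * (D + Fintype.card β * a) + Fintype.card β,
      coeff s (∑ b, (P b : ℂ⟦X⟧) * W b) ≠ 0 := by
  set n := Fintype.card β with hn
  set mn : (l : ℕ) → (Fin l → β) → Matrix (Fin l) (Fin l) (Polynomial ℂ) := fun l c =>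
    Matrix.of fun j i => rowp Q A P j (c i) with hmn
  -- the rank
  have hex : ∃ l, ∀ c : Fin (l + 1) → β, (mn (l + 1) c).det = 0 := by
    refine ⟨n, fun c => ?_⟩
    have hninj : ¬ Function.Injective c := by
      intro hinj
      have := Fintype.card_le_of_injective c hinj
      rw [Fintype.card_fin] at this
      omega
    rw [Function.not_injective_iff] at hninj
    obtain ⟨x, y, hxy, hne⟩ := hninj
    exact Matrix.det_zero_of_column_eq hne fun k => by simp only [hmn, Matrix.of_apply, hxy]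
  set l := Nat.find hex with hl
  have hl1 := Nat.find_spec hex
  rw [← hl] at hl1
  have hl0 : l ≠ 0 := by
    intro h0
    apply hF
    have h1 : ∀ b, P b = 0 := by
      intro b
      have h2 := hl1
      rw [h0] at h2
      have h3 := h2 fun _ => b
      rw [Matrix.det_fin_one] at h3
      exact h3
    refine Finset.sum_eq_zero fun b _ => ?_
    rw [h1 b]; simp
  obtain ⟨c₀, hc₀⟩ : ∃ c : Fin l → β, (mn l c).det ≠ 0 := by
    have h1 := Nat.find_min hex (show l - 1 < Nat.find hex by omega)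
    push Not at h1
    have h2 : l - 1 + 1 = l := by omega
    rwa [h2] at h1
  -- the minor of minimal order
  have hex2 : ∃ e : ℕ, ∃ (c : Fin l → β) (u : ℂ⟦X⟧), coeff 0 u ≠ 0 ∧
      (((mn l c).det : Polynomial ℂ) : ℂ⟦X⟧) = X ^ e * u := by
    have h1 : (((mn l c₀).det : Polynomial ℂ) : ℂ⟦X⟧) ≠ 0 := by
      rwa [Ne, Polynomial.coe_eq_zero_iff]
    obtain ⟨e, u, h2, h3⟩ := exists_fac h1
    exact ⟨e, c₀, u, h2, h3⟩
  classical
  set e := Nat.find hex2 with he
  obtain ⟨c, u, hu, hcu⟩ := Nat.find_spec hex2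
  rw [← he] at hcu
  have hmin : ∀ c' : Fin l → β, X ^ e ∣ (((mn l c').det : Polynomial ℂ) : ℂ⟦X⟧) := by
    intro c'
    rcases eq_or_ne (((mn l c').det : Polynomial ℂ) : ℂ⟦X⟧) 0 with h0 | h0
    · rw [h0]; exact dvd_zero _
    · obtain ⟨e', u', h2, h3⟩ := exists_fac h0
      have h4 : e ≤ e' := Nat.find_min' hex2 ⟨c', u', h2, h3⟩
      rw [h3]
      exact (pow_dvd_pow X h4).mul_right _
  -- degree
  have heD : e ≤ l * (D + l * a) := by
    have h1 : (mn l c).det.coeff e ≠ 0 := by
      rw [← Polynomial.coeff_coe, hcu]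
      have := coeff_X_pow_mul u e 0
      rw [zero_add] at this
      rwa [this]
    have h2 := Polynomial.le_natDegree_of_ne_zero h1
    refine h2.trans (natDegree_det _ fun j i => ?_)
    refine (rowp_deg hQ hA hP j _).trans ?_
    have : (j : ℕ) * a ≤ l * a := by
      have := j.2.le
      gcongr
    omega
  have hln : l ≤ n := by
    have hinj : Function.Injective c := by
      intro x y hxy
      by_contra hne
      have h1 : (mn l c).det = 0 :=
        Matrix.det_zero_of_column_eq hne fun k => by simp only [hmn, Matrix.of_apply, hxy]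
      rw [h1] at hcu
      have h2 : X ^ e * u = 0 := by rw [← hcu]; simp
      rcases mul_eq_zero.1 h2 with h3 | h3
      · exact pow_ne_zero _ X_ne_zero h3
      · exact hu (by rw [h3]; simp)
    have := Fintype.card_le_of_injective c hinj
    rwa [Fintype.card_fin] at this
  -- the power series matrices
  set R : Matrix (Fin l) β ℂ⟦X⟧ := Matrix.of fun j b => (rowp Q A P j b : ℂ⟦X⟧) with hR
  set A' : Matrix β β ℂ⟦X⟧ := A.map fun p => (p : ℂ⟦X⟧) with hA'
  have hdet : (R.submatrix id c).det = X ^ e * u := by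
    rw [← hcu, coe_det]
    rfl
  have hq0 : coeff 0 (Q : ℂ⟦X⟧) ≠ 0 := by rwa [Polynomial.coeff_coe]
  -- the recursion
  have hrec : ∀ (j : ℕ) (b : β), (rowp Q A P (j + 1) b : ℂ⟦X⟧) =
      (Q : ℂ⟦X⟧) * d⁄dX ℂ (rowp Q A P j b : ℂ⟦X⟧) + ∑ i, (rowp Q A P j i : ℂ⟦X⟧) * A' i b := by
    intro j b
    rw [rowp, Polynomial.coe_add, Polynomial.coe_mul, derivative_coe]
    congr 1
    have := map_sum (Polynomial.coeToPowerSeries.ringHom (R := ℂ))
      (fun i => rowp Q A P j i * A i b) Finset.univ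
    simp only [Polynomial.coeToPowerSeries.ringHom_apply, Polynomial.coe_mul] at this
    exact this
  -- the last row
  have hlast : ∃ m : Fin l → ℂ⟦X⟧, ∀ b, (R.submatrix id c).det * (rowp Q A P l b : ℂ⟦X⟧) =
      ∑ j, m j * R j b := by
    set Nb : β → Matrix (Fin (l + 1)) (Fin (l + 1)) (Polynomial ℂ) := fun b =>
      mn (l + 1) (Fin.snoc (α := fun _ => β) c b) with hNb
    refine ⟨fun j => -((-1) ^ ((j : ℕ) + l) *
      (((Matrix.of fun (x : Fin l) (y : Fin l) =>
        rowp Q A P ((Fin.castSucc j).succAbove x : Fin (l + 1)) (c y)).det : Polynomial ℂ) : ℂ⟦X⟧)),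
      fun b => ?_⟩
    have h1 := hl1 (Fin.snoc (α := fun _ => β) c b)
    rw [Matrix.det_succ_column _ (Fin.last l), Fin.sum_univ_castSucc] at h1
    have h2 : ∀ (x : Fin (l + 1)), (mn (l + 1) (Fin.snoc (α := fun _ => β) c b)) x (Fin.last l) =
        rowp Q A P x b := by
      intro x
      simp only [hmn, Matrix.of_apply, Fin.snoc_last]
    have h3 : ∀ x : Fin (l + 1), ((mn (l + 1) (Fin.snoc (α := fun _ => β) c b)).submatrix x.succAbove
        (Fin.last l).succAbove) = Matrix.of fun (y : Fin l) (w : Fin l) =>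
          rowp Q A P (x.succAbove y : Fin (l + 1)) (c w) := by
      intro x
      ext1 y w
      simp only [hmn, Matrix.submatrix_apply, Matrix.of_apply, Fin.succAbove_last, Fin.snoc_castSucc]
    simp only [h2, h3] at h1
    have h4 : (Matrix.of fun (y : Fin l) (w : Fin l) =>
          rowp Q A P ((Fin.last l).succAbove y : Fin (l + 1)) (c w)) = mn l c := by
      ext1 y w
      simp only [hmn, Matrix.of_apply, Fin.succAbove_last, Fin.val_castSucc]
    rw [h4] at h1
    have h5 : ((-1 : Polynomial ℂ)) ^ (((Fin.last l : Fin (l + 1)) : ℕ) +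
        ((Fin.last l : Fin (l + 1)) : ℕ)) = 1 := by
      rw [← two_mul, pow_mul]; simp
    rw [h5, one_mul] at h1
    have h6 : rowp Q A P l b * (mn l c).det = -∑ j : Fin l, (-1) ^ ((j : ℕ) + l) *
        rowp Q A P j b * (Matrix.of fun (y : Fin l) (w : Fin l) =>
          rowp Q A P ((Fin.castSucc j).succAbove y : Fin (l + 1)) (c w)).det := by
      have h7 : ((Fin.last l : Fin (l + 1)) : ℕ) = l := Fin.val_last l
      rw [h7] at h1
      simp only [Fin.val_castSucc] at h1
      linear_combination h1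
    have h8 := congrArg (Polynomial.coeToPowerSeries.ringHom (R := ℂ)) h6
    rw [map_mul, map_neg, map_sum] at h8
    simp only [map_mul, map_pow, map_neg, map_one, Polynomial.coeToPowerSeries.ringHom_apply] at h8
    rw [coe_det] at h8
    have h9 : (R.submatrix id c) = (mn l c).map fun p => (p : ℂ⟦X⟧) := rfl
    rw [h9, mul_comm, h8, ← Finset.sum_neg_distrib]
    refine Finset.sum_congr rfl fun j _ => ?_
    rw [hR, Matrix.of_apply]
    ring
  obtain ⟨m, hm⟩ := hlast
  -- the matrix `E`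
  have hE : ∃ E : Matrix (Fin l) (Fin l) ℂ⟦X⟧,
      (R.submatrix id c).det • ((Q : ℂ⟦X⟧) • mD R + R * A') = E * R := by
    refine ⟨Matrix.of fun j i => if h : (j : ℕ) + 1 < l then
      (if i = ⟨(j : ℕ) + 1, h⟩ then (R.submatrix id c).det else 0) else m i, ?_⟩
    ext1 j b
    have h1 : ((Q : ℂ⟦X⟧) • mD R + R * A') j b = (rowp Q A P (j + 1) b : ℂ⟦X⟧) := by
      rw [hrec, Matrix.add_apply, Matrix.smul_apply, smul_eq_mul, mD_apply, Matrix.mul_apply]
      rfl
    rw [Matrix.smul_apply, smul_eq_mul, h1, Matrix.mul_apply]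
    by_cases hj : (j : ℕ) + 1 < l
    · rw [Finset.sum_eq_single ⟨(j : ℕ) + 1, hj⟩]
      · simp only [Matrix.of_apply, dif_pos hj, if_true]
        rfl
      · intro i _ hi
        simp only [Matrix.of_apply, dif_pos hj, if_neg hi, zero_mul]
      · intro h; exact absurd (Finset.mem_univ _) h
    · have h2 : (j : ℕ) + 1 = l := by have := j.2; omega
      rw [h2, hm b]
      refine Finset.sum_congr rfl fun i _ => ?_
      simp only [Matrix.of_apply, dif_neg hj]
  obtain ⟨E, hE⟩ := hE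
  obtain ⟨z, hz1, hz2⟩ := zero_core hq0 A' W (fun b => hW b) R c hu hdet (fun i b => by
    have h1 := hmin (Function.update c i b)
    rw [coe_det] at h1
    convert h1 using 2
    ext1 j i'
    by_cases hi : i' = i
    · subst hi
      simp [hmn, hR, Matrix.updateCol_self]
    · simp [hmn, hR, Matrix.updateCol_ne hi, Function.update_of_ne hi]) E hE
  have hz3 : ∃ i, coeff 0 (z i) ≠ 0 := by
    by_contra hcon
    push Not at hcon
    have h1 := hz2 hcon
    apply hF
    have h2 := hz1 ⟨0, Nat.pos_of_ne_zero hl0⟩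
    have h3 : ∑ b, (P b : ℂ⟦X⟧) * W b = ∑ b, R ⟨0, Nat.pos_of_ne_zero hl0⟩ b * W b := rfl
    rw [h3, h2]
    exact Finset.sum_eq_zero fun i _ => by rw [h1 i, mul_zero]
  obtain ⟨i, hi⟩ := hz3
  -- the conclusion
  by_contra hcon
  push Not at hcon
  set N := n * (D + n * a) + n + 1 with hN
  have hdiv : X ^ N ∣ rowF Q A P W 0 := by
    rw [X_pow_dvd_iff]
    intro s hs
    exact hcon s (by omega)
  have h1 : (R.submatrix id c).det * z i =
      ∑ j, (R.submatrix id c).adjugate i j * rowF Q A P W j := by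
    have h2 : ∀ j : Fin l, rowF Q A P W j = ∑ i', (R.submatrix id c) j i' * z i' :=
      fun j => hz1 j
    have h3 := congrFun (congrArg (fun M : Matrix (Fin l) (Fin l) ℂ⟦X⟧ => M *ᵥ z)
      (Matrix.adjugate_mul (R.submatrix id c))) i
    simp only [← Matrix.mulVec_mulVec, Matrix.smul_mulVec, Matrix.one_mulVec, Pi.smul_apply,
      smul_eq_mul] at h3
    rw [← h3]
    simp only [Matrix.mulVec, dotProduct]
    exact Finset.sum_congr rfl fun j _ => by rw [h2 j]
  have h4 : X ^ (N - (l - 1)) ∣ (R.submatrix id c).det * z i := by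
    rw [h1]
    refine Finset.dvd_sum fun j _ => Dvd.dvd.mul_left ?_ _
    refine (pow_dvd_pow X ?_).trans (rowF_dvd P hW hdiv j)
    have := j.2
    omega
  rw [hdet, mul_assoc] at h4
  have h5 : e + 1 ≤ N - (l - 1) := by
    have h6 : l * (D + l * a) ≤ n * (D + n * a) := by gcongr
    omega
  have h7 : X ^ (e + 1) ∣ X ^ e * (u * z i) := (pow_dvd_pow X h5).trans h4
  rw [pow_succ, mul_dvd_mul_iff_left (pow_ne_zero _ X_ne_zero)] at h7
  rw [X_dvd_iff, ← coeff_zero_eq_constantCoeff_apply, c0_mul] at h7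
  exact mul_ne_zero hu hi h7

end Pool.Agent.N780
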