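import Mathlib
import Pool.Agent.N780.Zero
import Pool.Agent.N780.Maj
import Pool.Agent.N780.CoreQ
import Pool.Agent.N780.Sys

set_option autoImplicit false

/-!
Products of the entries of a solution; sizes.
-/

namespace Pool.Agent.N780

open PowerSeries

/-- the products of `r` solutions form a solution of a system -/
theorem words {γ : Type} [Fintype γ] [DecidableEq γ] {Q : Polynomial ℂ}
    {B : Matrix γ γ (Polynomial ℂ)} {a : ℕ} (hB : ∀ i j, (B i j).natDegree ≤ a) {u : γ → ℂ⟦X⟧}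
    (hu : ∀ g, (Q : ℂ⟦X⟧) * d⁄dX ℂ (u g) = ∑ g', (B g g' : ℂ⟦X⟧) * u g') (r : ℕ) :
    ∃ (β : Type) (_ : Fintype β) (_ : DecidableEq β) (A : Matrix β β (Polynomial ℂ))
      (W : β → ℂ⟦X⟧), Fintype.card β = Fintype.card γ ^ r ∧ (∀ i j, (A i j).natDegree ≤ a) ∧
      (∀ b, (Q : ℂ⟦X⟧) * d⁄dX ℂ (W b) = ∑ c, (A b c : ℂ⟦X⟧) * W c) ∧
      ∀ f : Fin r → γ, ∃ b, W b = ∏ l, u (f l) := by
  induction r with
  | zero =>
    refine ⟨Unit, inferInstance, inferInstance, fun _ _ => 0, fun _ => 1, by simp, by simp, ?_, ?_⟩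
    · intro b; simp
    · intro f; exact ⟨(), by simp⟩
  | succ r ih =>
    obtain ⟨β, _, _, A, W, h1, h2, h3, h4⟩ := ih
    refine ⟨γ × β, inferInstance, inferInstance,
      fun x y => (if x.2 = y.2 then B x.1 y.1 else 0) + (if x.1 = y.1 then A x.2 y.2 else 0),
      fun x => u x.1 * W x.2, ?_, ?_, ?_, ?_⟩
    · rw [Fintype.card_prod, h1, pow_succ, mul_comm]
    · intro x y
      refine Polynomial.natDegree_add_le_of_degree_le ?_ ?_
      · split_ifs
        · exact hB _ _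
        · simp
      · split_ifs
        · exact h2 _ _
        · simp
    · intro x
      rw [Derivation.leibniz, smul_eq_mul, smul_eq_mul, Fintype.sum_prod_type]
      have e0 : ∀ (g : γ) (b : β), (((if x.2 = b then B x.1 g else 0) +
          (if x.1 = g then A x.2 b else 0) : Polynomial ℂ) : ℂ⟦X⟧) * (u g * W b) =
          (if x.2 = b then (B x.1 g : ℂ⟦X⟧) * (u g * W b) else 0) +
          (if x.1 = g then (A x.2 b : ℂ⟦X⟧) * (u g * W b) else 0) := by
        intro g b
        rw [Polynomial.coe_add, add_mul]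
        congr 1
        · split_ifs
          · rfl
          · simp
        · split_ifs
          · rfl
          · simp
      simp only [e0, Finset.sum_add_distrib, Finset.sum_ite_eq, Finset.mem_univ, if_true]
      have e1 : ∀ (g : γ), (∑ b, if x.1 = g then (A x.2 b : ℂ⟦X⟧) * (u g * W b) else 0) =
          if x.1 = g then ∑ b, (A x.2 b : ℂ⟦X⟧) * (u g * W b) else 0 := by
        intro g; split_ifs
        · rfl
        · simp
      simp only [e1, Finset.sum_ite_eq, Finset.mem_univ, if_true]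
      calc (Q : ℂ⟦X⟧) * (u x.1 * d⁄dX ℂ (W x.2) + W x.2 * d⁄dX ℂ (u x.1))
          = ((Q : ℂ⟦X⟧) * d⁄dX ℂ (u x.1)) * W x.2 + u x.1 * ((Q : ℂ⟦X⟧) * d⁄dX ℂ (W x.2)) := by ring
        _ = _ := by
          rw [hu, h3, Finset.sum_mul, Finset.mul_sum]
          congr 1
          · exact Finset.sum_congr rfl fun g _ => by ring
          · exact Finset.sum_congr rfl fun b _ => by ring
    · intro f
      obtain ⟨b, hb⟩ := h4 (fun l => f l.succ)
      refine ⟨(f 0, b), ?_⟩
      rw [Fin.prod_univ_succ, ← hb]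

/-- the polynomial in the local parameter -/
noncomputable def shpH (c : ℂ) : Polynomial ℤ →+* Polynomial ℂ :=
  (Polynomial.compRingHom (Polynomial.X + Polynomial.C c)).comp
    (Polynomial.mapRingHom (Int.castRingHom ℂ))

theorem coe_shp (c : ℂ) (P : Polynomial ℤ) : ((shpH c P : Polynomial ℂ) : ℂ⟦X⟧) = sh c P := by
  have h : (Polynomial.coeToPowerSeries.ringHom (R := ℂ)).comp (shpH c) = sh c := by
    refine Polynomial.ringHom_ext (fun a => ?_) ?_
    · rw [RingHom.comp_apply, sh_C]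
      simp [shpH]
    · rw [RingHom.comp_apply, sh_X]
      simp [shpH]
  exact congrArg (fun f : Polynomial ℤ →+* ℂ⟦X⟧ => f P) h

theorem shp_deg (c : ℂ) (P : Polynomial ℤ) : (shpH c P).natDegree ≤ P.natDegree := by
  have e : shpH c P = (P.map (Int.castRingHom ℂ)).comp (Polynomial.X + Polynomial.C c) := rfl
  rw [e, Polynomial.natDegree_comp, Polynomial.natDegree_X_add_C, mul_one]
  exact Polynomial.natDegree_map_le

/-- the size of the image of an integer polynomial -/
theorem nrm_hom (S : Polynomial ℤ →+* ℂ⟦X⟧) (hS : Conv (S Polynomial.X)) {r : ℝ} (hr0 : 0 ≤ r)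
    (hr1 : r < 1) {P : Polynomial ℤ} {a H : ℕ} (hP : P.natDegree ≤ a)
    (hH : ∀ l, |P.coeff l| ≤ (H : ℤ)) :
    Conv (S P) ∧ nrm r (S P) ≤ (a + 1) * (max 1 (nrm r (S Polynomial.X))) ^ a * H := by
  have hSC : ∀ z : ℤ, S (Polynomial.C z) = C (z : ℂ) := by
    intro z
    have h1 : S (Polynomial.C z) = ((z : ℤ) : ℂ⟦X⟧) := by simp
    rw [h1, map_intCast]
  have e : S P = ∑ l ∈ Finset.range (a + 1), C ((P.coeff l : ℤ) : ℂ) * S Polynomial.X ^ l := by
    conv_lhs => rw [P.as_sum_range_C_mul_X_pow' (Nat.lt_succ_of_le hP)]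
    rw [map_sum]
    refine Finset.sum_congr rfl fun l _ => ?_
    rw [map_mul, map_pow, hSC]
  have hc : ∀ l ∈ Finset.range (a + 1), Conv (C ((P.coeff l : ℤ) : ℂ) * S Polynomial.X ^ l) :=
    fun l _ => (conv_C _).mul (hS.pow l)
  rw [e]
  refine ⟨Conv.sum _ hc, ?_⟩
  refine (nrm_sum hr0 hr1 _ hc).trans ?_
  have hb : ∀ l ∈ Finset.range (a + 1), nrm r (C ((P.coeff l : ℤ) : ℂ) * S Polynomial.X ^ l) ≤
      (max 1 (nrm r (S Polynomial.X))) ^ a * H := by
    intro l hl
    rw [Finset.mem_range] at hl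
    refine (nrm_mul hr0 hr1 (conv_C _) (hS.pow l)).trans ?_
    rw [nrm_C, Complex.norm_intCast, mul_comm]
    have h1 : nrm r (S Polynomial.X ^ l) ≤ (max 1 (nrm r (S Polynomial.X))) ^ a := by
      refine (nrm_pow hr0 hr1 hS l).trans ?_
      calc nrm r (S Polynomial.X) ^ l ≤ (max 1 (nrm r (S Polynomial.X))) ^ l :=
            pow_le_pow_left₀ (nrm_nonneg hr0 _) (le_max_right _ _) l
        _ ≤ _ := pow_le_pow_right₀ (le_max_left _ _) (by omega)
    have h2 : |((P.coeff l : ℤ) : ℝ)| ≤ H := by exact_mod_cast hH l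
    have h3 := nrm_nonneg hr0 (S Polynomial.X ^ l)
    gcongr
  calc _ ≤ ∑ _l ∈ Finset.range (a + 1), (max 1 (nrm r (S Polynomial.X))) ^ a * H :=
        Finset.sum_le_sum hb
    _ = _ := by
        rw [Finset.sum_const, Finset.card_range, nsmul_eq_mul]; push_cast; ring

/-- the denominators of the fundamental matrix up to the order `T₀` -/
theorem den_fund_to {ι : Type*} [Fintype ι] [DecidableEq ι] {O : Subring ℂ} {G : Matrix ι ι ℂ⟦X⟧}
    (hG : Mv O 1 G) {h : ℕ → ℕ} {T₀ : ℕ}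
    (hh : ∀ p : ℕ, p.Prime → p ≤ T₀ → ∀ s ≤ p ^ h p, Mv O ((p ^ vf p s : ℕ) : ℂ) (gs G s))
    (i j : ι) (s : ℕ) (hs : s ≤ T₀) :
    (den h s : ℂ) * coeff s (fund G i j) ∈ O := by
  set α : ℂ := coeff 0 (gs G s i j) with hα
  have hαO : α ∈ O := by
    obtain ⟨a, ha, h⟩ := mv_gs hG s i j 0
    rw [hα, h, one_mul]; exact ha
  obtain ⟨a, ha, h1⟩ := crt_prod hαO (fun p => lv p (h p) s)
    ((Finset.range (s + 1)).filter Nat.Prime) (fun p hp => (Finset.mem_filter.1 hp).2)
    (fun p hp => by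
      have hpp := (Finset.mem_filter.1 hp).2
      have hps := Finset.mem_range.1 (Finset.mem_filter.1 hp).1
      exact mv_gs_pow hpp (hh p hpp (by omega)) s i j 0)
  obtain ⟨l, hl⟩ := factorial_dvd h s
  have h2 : (den h s : ℂ) * ((∏ p ∈ (Finset.range (s + 1)).filter Nat.Prime,
      p ^ lv p (h p) s : ℕ) : ℂ) = (s.factorial : ℂ) * l := by
    exact_mod_cast hl
  have hs : (s.factorial : ℂ) ≠ 0 := by exact_mod_cast s.factorial_ne_zero
  have e : (den h s : ℂ) * coeff s (fund G i j) = l * a := by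
    rw [coeff_fund, ← hα, mul_div_assoc', div_eq_iff hs, h1, ← mul_assoc, h2]
    ring
  rw [e]
  exact O.mul_mem (natCast_mem O l) ha

end Pool.Agent.N780
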