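import Mathlib
import Pool.Agent.N780.Ode

set_option autoImplicit false

/-!
Power series `F` with radius of convergence one, `F(0) = 0`, `F^m ≠ 1` in the unit disc and derivative at `0`
as close to `16^(1/m)` as we want (approximations of the modular function `λ(z^m)^(1/m)`).
-/

namespace Pool.Agent.N780

open PowerSeries

/-- `1 - 2^(-j)` -/
noncomputable def ee (j : ℕ) : ℝ := 1 - (1 / 2) ^ j

theorem ee_succ (j : ℕ) : ee (j + 1) = 1 / 2 + ee j / 2 := by
  unfold ee; rw [pow_succ]; ring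

theorem conv_expand {f : ℂ⟦X⟧} (hf : Conv f) {m : ℕ} (hm : m ≠ 0) : Conv (expand m hm f) := by
  refine conv_pow_var hf (Nat.one_le_iff_ne_zero.2 hm) fun s => ?_
  split_ifs with h
  · obtain ⟨k, rfl⟩ := h
    rw [coeff_expand_mul, Nat.mul_div_cancel_left _ (Nat.pos_of_ne_zero hm)]
  · exact coeff_expand_of_not_dvd m hm f h

theorem coeff_zero_expand (f : ℂ⟦X⟧) {m : ℕ} (hm : m ≠ 0) :
    coeff 0 (expand m hm f) = coeff 0 f := by
  rw [coeff_zero_eq_constantCoeff_apply, coeff_zero_eq_constantCoeff_apply, constantCoeff_expand]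

theorem c0_pow (f : ℂ⟦X⟧) (k : ℕ) : coeff 0 (f ^ k) = coeff 0 f ^ k := by
  rw [coeff_zero_eq_constantCoeff_apply, coeff_zero_eq_constantCoeff_apply, map_pow]

theorem c0_one : coeff 0 (1 : ℂ⟦X⟧) = 1 := by
  rw [coeff_zero_eq_constantCoeff_apply, map_one]

theorem c0_X_mul (f : ℂ⟦X⟧) : coeff 0 (X * f) = 0 := by
  rw [c0_mul, coeff_zero_X, zero_mul]

/-- the approximations of `λ(z)/z` -/
theorem exists_u (j : ℕ) : ∃ u u' w : ℂ⟦X⟧, Conv u ∧ Conv u' ∧ u * u' = 1 ∧ Conv w ∧
    (1 - X * u) * w = 1 ∧ coeff 0 u = ((Real.exp (ee j * Real.log 16) : ℝ) : ℂ) := by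
  induction j with
  | zero =>
    refine ⟨1, 1, mk 1, conv_one, conv_one, one_mul 1, ?_, ?_, ?_⟩
    · intro r hr hr1
      simpa using summable_geometric_of_lt_one hr hr1
    · rw [mul_one, mul_comm]
      exact mk_one_mul_one_sub_eq_one ℂ
    · rw [c0_one]; unfold ee; simp
  | succ j ih =>
    obtain ⟨u, u', w, hu, hu', huu, hw, hw1, hu0⟩ := ih
    have h2 : (2 : ℕ) ≠ 0 := by norm_num
    set U := expand 2 h2 u with hU
    set U' := expand 2 h2 u' with hU'
    set W := expand 2 h2 w with hW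
    have hUU : U * U' = 1 := by rw [hU, hU', ← map_mul, huu, map_one]
    have hWW : (1 - X ^ 2 * U) * W = 1 := by
      have := congrArg (expand 2 h2) hw1
      rw [map_mul, map_sub, map_mul, expand_X, map_one] at this
      exact this
    set c : ℝ := Real.exp (ee j * Real.log 16 / 2) with hc
    have hc2 : ((c : ℂ)) ^ 2 = coeff 0 U := by
      rw [hU, coeff_zero_expand, hu0, ← Complex.ofReal_pow]
      congr 1
      rw [hc, ← Real.exp_nat_mul]
      congr 1; push_cast; ring
    obtain ⟨v, hv, hv2, hv0⟩ := exists_root (conv_expand hu h2) (conv_expand hu' h2) hUU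
      (m := 2) (by norm_num) hc2
    have hWc : Conv W := conv_expand hw h2
    have hU'c : Conv U' := conv_expand hu' h2
    have hs1 : (1 - X * v) * (1 + X * v) = 1 - X ^ 2 * U := by
      linear_combination (-X ^ 2) * hv2
    have hsW : (1 - X * v) * (1 + X * v) * W = 1 := by rw [hs1]; exact hWW
    have hXv : Conv (X * v) := conv_X.mul hv
    have hm1 : Conv (1 - X * v) := conv_one.sub hXv
    have hp1 : Conv (1 + X * v) := conv_one.add hXv
    refine ⟨C 4 * v * ((1 - X * v) * W) ^ 2, C (1 / 4) * (v * U') * (1 + X * v) ^ 2,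
      (1 + X * v) ^ 2 * ((1 + X * v) * W) ^ 2, ?_, ?_, ?_, ?_, ?_, ?_⟩
    · exact ((conv_C 4).mul hv).mul ((hm1.mul hWc).pow 2)
    · exact ((conv_C _).mul (hv.mul hU'c)).mul (hp1.pow 2)
    · have h4 : (C (4 : ℂ) : ℂ⟦X⟧) * C (1 / 4) = 1 := by
        rw [← map_mul, show (4 : ℂ) * (1 / 4) = 1 by norm_num, map_one]
      calc C 4 * v * ((1 - X * v) * W) ^ 2 * (C (1 / 4) * (v * U') * (1 + X * v) ^ 2)
          = (C 4 * C (1 / 4)) * (v ^ 2 * U') * ((1 - X * v) * (1 + X * v) * W) ^ 2 := by ring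
        _ = 1 := by rw [h4, hv2, hUU, hsW]; ring
    · exact (hp1.pow 2).mul ((hp1.mul hWc).pow 2)
    · have h4 : (C (4 : ℂ) : ℂ⟦X⟧) = 4 := by
        have : (4 : ℂ⟦X⟧) = C 4 := (map_ofNat C 4).symm
        exact this.symm
      rw [h4]
      have e1 : ((1 - X * v) * W) ^ 2 * (1 + X * v) ^ 2 = 1 := by
        calc ((1 - X * v) * W) ^ 2 * (1 + X * v) ^ 2
            = ((1 - X * v) * (1 + X * v) * W) ^ 2 := by ring
          _ = 1 := by rw [hsW, one_pow]
      have e2 : (1 - X * (4 * v * ((1 - X * v) * W) ^ 2)) * (1 + X * v) ^ 2 = (1 - X * v) ^ 2 := by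
        calc (1 - X * (4 * v * ((1 - X * v) * W) ^ 2)) * (1 + X * v) ^ 2
            = (1 + X * v) ^ 2 - 4 * (X * v) * (((1 - X * v) * W) ^ 2 * (1 + X * v) ^ 2) := by ring
          _ = (1 - X * v) ^ 2 := by rw [e1]; ring
      calc (1 - X * (4 * v * ((1 - X * v) * W) ^ 2)) * ((1 + X * v) ^ 2 * ((1 + X * v) * W) ^ 2)
          = ((1 - X * (4 * v * ((1 - X * v) * W) ^ 2)) * (1 + X * v) ^ 2) *
              ((1 + X * v) * W) ^ 2 := by ring
        _ = ((1 - X * v) * (1 + X * v) * W) ^ 2 := by rw [e2]; ring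
        _ = 1 := by rw [hsW, one_pow]
    · have hW0 : coeff 0 W = 1 := by
        have h5 := congrArg (coeff 0) hsW
        rw [c0_mul, c0_mul, map_sub, map_add, c0_X_mul, c0_one] at h5
        linear_combination h5
      rw [c0_mul, c0_mul, c0_pow, c0_mul, map_sub, c0_X_mul, c0_one, hv0, hW0, coeff_zero_C]
      have e : (4 : ℝ) * c = Real.exp (ee (j + 1) * Real.log 16) := by
        have h4 : (4 : ℝ) = Real.exp (Real.log 16 / 2) := by
          have : Real.log 16 = 2 * Real.log 4 := by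
            rw [show (16 : ℝ) = 4 ^ 2 by norm_num, Real.log_pow]; push_cast; ring
          rw [this, mul_div_cancel_left₀ _ (by norm_num : (2 : ℝ) ≠ 0), Real.exp_log (by norm_num)]
        rw [hc, ee_succ]
        conv_lhs => rw [h4]
        rw [← Real.exp_add]
        congr 1; ring
      rw [← e]
      push_cast; ring

/-- the maps to the complement of the roots of unity -/
theorem exists_F {m : ℕ} (hm : m ≠ 0) {η : ℝ} (hη : η < Real.log 16 / m) :
    ∃ F ψ : ℂ⟦X⟧, Conv F ∧ coeff 0 F = 0 ∧ Real.exp η < ‖coeff 1 F‖ ∧ Conv ψ ∧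
      (1 - F ^ m) * ψ = 1 := by
  have hm0 : (0 : ℝ) < m := by exact_mod_cast Nat.pos_of_ne_zero hm
  have hlim : Filter.Tendsto (fun j : ℕ => ee j * Real.log 16 / m) Filter.atTop
      (nhds ((1 - 0) * Real.log 16 / m)) := by
    refine Filter.Tendsto.div_const (Filter.Tendsto.mul_const _ (tendsto_const_nhds.sub ?_)) _
    exact tendsto_pow_atTop_nhds_zero_of_lt_one (by norm_num) (by norm_num)
  have hη' : η < (1 - 0) * Real.log 16 / m := by rw [sub_zero, one_mul]; exact hη
  obtain ⟨j, hj⟩ := (hlim.eventually (lt_mem_nhds hη')).exists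
  obtain ⟨u, u', w, hu, hu', huu, hw, hw1, hu0⟩ := exists_u j
  set c : ℝ := Real.exp (ee j * Real.log 16 / m) with hc
  have hcm : ((c : ℂ)) ^ m = coeff 0 (expand m hm u) := by
    rw [coeff_zero_expand, hu0, ← Complex.ofReal_pow]
    congr 1
    rw [hc, ← Real.exp_nat_mul]
    congr 1; field_simp
  have hUU : expand m hm u * expand m hm u' = 1 := by rw [← map_mul, huu, map_one]
  obtain ⟨v, hv, hvm, hv0⟩ := exists_root (conv_expand hu hm) (conv_expand hu' hm) hUU
    (m := m) (Nat.one_le_iff_ne_zero.2 hm) hcm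
  refine ⟨X * v, expand m hm w, conv_X.mul hv, c0_X_mul v, ?_, conv_expand hw hm, ?_⟩
  · have h1 : coeff 1 (X * v) = coeff 0 v := by
      have := coeff_succ_X_mul 0 v
      rwa [zero_add] at this
    rw [h1, hv0, Complex.norm_real, Real.norm_of_nonneg (Real.exp_pos _).le]
    exact Real.exp_lt_exp.2 hj
  · have := congrArg (expand m hm) hw1
    rw [map_mul, map_sub, map_mul, expand_X, map_one] at this
    rw [mul_pow, hvm]
    exact this

end Pool.Agent.N780
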