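import Mathlib
import Pool.Agent.N780.Sys
import Pool.Agent.N780.Phi

set_option autoImplicit false

/-!
The Eisenstein integers as a subring of the complex numbers, and the data for the two theorems.
-/

namespace Pool.Agent.N780

open PowerSeries
open scoped RatFunc

/-- `ω = (-1 + √3 i) / 2` -/
noncomputable def om : ℂ := ⟨-1 / 2, Real.sqrt 3 / 2⟩

theorem sqrt3_sq : Real.sqrt 3 * Real.sqrt 3 = 3 := Real.mul_self_sqrt (by norm_num)

theorem om_sq : om ^ 2 + om + 1 = 0 := by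
  apply Complex.ext
  · simp only [om, pow_two, Complex.add_re, Complex.mul_re, Complex.one_re, Complex.zero_re]
    nlinarith [sqrt3_sq]
  · simp only [om, pow_two, Complex.add_im, Complex.mul_im, Complex.one_im, Complex.zero_im]
    ring

theorem om_cube : om ^ 3 = 1 := by linear_combination (om - 1) * om_sq

/-- the Eisenstein integers -/
noncomputable def Eis : Subring ℂ where
  carrier := {z | ∃ a b : ℤ, z = a + b * om}
  mul_mem' := by
    rintro x y ⟨a, b, rfl⟩ ⟨c, d, rfl⟩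
    refine ⟨a * c - b * d, a * d + b * c - b * d, ?_⟩
    push_cast
    linear_combination (b : ℂ) * d * om_sq
  one_mem' := ⟨1, 0, by simp⟩
  add_mem' := by
    rintro x y ⟨a, b, rfl⟩ ⟨c, d, rfl⟩
    exact ⟨a + c, b + d, by push_cast; ring⟩
  zero_mem' := ⟨0, 0, by simp⟩
  neg_mem' := by
    rintro x ⟨a, b, rfl⟩
    exact ⟨-a, -b, by push_cast; ring⟩

theorem eis_re (a b : ℤ) : ((a : ℂ) + b * om).re = a - b / 2 := by
  simp [om]; ring

theorem eis_im (a b : ℤ) : ((a : ℂ) + b * om).im = b * (Real.sqrt 3 / 2) := by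
  simp [om]

theorem sqrt3_pos : 0 < Real.sqrt 3 := Real.sqrt_pos.2 (by norm_num)

theorem eis_unique {a b c d : ℤ} (h : (a : ℂ) + b * om = c + d * om) : a = c ∧ b = d := by
  have h1 := congrArg Complex.im h
  rw [eis_im, eis_im] at h1
  have h2 : (b : ℝ) = d := by
    have h3 : Real.sqrt 3 / 2 ≠ 0 := by have := sqrt3_pos; positivity
    exact mul_right_cancel₀ h3 h1
  have h4 := congrArg Complex.re h
  rw [eis_re, eis_re, h2] at h4
  have h5 : (a : ℝ) = c := by linarith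
  exact ⟨by exact_mod_cast h5, by exact_mod_cast h2⟩

theorem eis_normSq (a b : ℤ) : Complex.normSq ((a : ℂ) + b * om) = ((a ^ 2 - a * b + b ^ 2 : ℤ) : ℝ) := by
  rw [Complex.normSq_apply, eis_re, eis_im]
  push_cast
  nlinarith [sqrt3_sq]

theorem eis_norm {z : ℂ} (hz : z ∈ Eis) (h0 : z ≠ 0) : 1 ≤ ‖z‖ := by
  obtain ⟨a, b, rfl⟩ := hz
  have h1 : 0 < Complex.normSq ((a : ℂ) + b * om) := Complex.normSq_pos.2 h0
  rw [eis_normSq] at h1
  have h2 : 0 < a ^ 2 - a * b + b ^ 2 := by exact_mod_cast h1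
  have h3 : (1 : ℝ) ≤ ((a ^ 2 - a * b + b ^ 2 : ℤ) : ℝ) := by exact_mod_cast h2
  rw [← eis_normSq, Complex.normSq_eq_norm_sq] at h3
  have h4 := norm_nonneg ((a : ℂ) + b * om)
  nlinarith

/-- the coordinates -/
noncomputable def eco (l : Fin 2) : Eis →+ ℤ :=
  AddMonoidHom.mk' (fun z => if l = 0 then z.2.choose else z.2.choose_spec.choose) (by
    intro x y
    have hx := x.2.choose_spec.choose_spec
    have hy := y.2.choose_spec.choose_spec
    have hxy := (x + y).2.choose_spec.choose_spec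
    have hc : ((x + y : Eis) : ℂ) = x + y := rfl
    have h1 : ((x.2.choose + y.2.choose : ℤ) : ℂ) +
        ((x.2.choose_spec.choose + y.2.choose_spec.choose : ℤ) : ℂ) * om =
        ((x + y).2.choose : ℂ) + ((x + y).2.choose_spec.choose : ℂ) * om := by
      push_cast
      linear_combination hxy - hc - hx - hy
    obtain ⟨h2, h3⟩ := eis_unique h1
    split_ifs
    · exact h2.symm
    · exact h3.symm)

theorem eco_spec (z : Eis) : (z : ℂ) = (eco 0 z : ℂ) + (eco 1 z : ℂ) * om :=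
  z.2.choose_spec.choose_spec

theorem eco_bound (l : Fin 2) (z : Eis) : |((eco l z : ℤ) : ℝ)| ≤ 2 * ‖(z : ℂ)‖ := by
  have h0 := eco_spec z
  have hre : (z : ℂ).re = (eco 0 z : ℝ) - (eco 1 z : ℝ) / 2 := by
    conv_lhs => rw [h0]
    exact eis_re _ _
  have him : (z : ℂ).im = (eco 1 z : ℝ) * (Real.sqrt 3 / 2) := by
    conv_lhs => rw [h0]
    exact eis_im _ _
  have h1 := Complex.abs_re_le_norm (z : ℂ)
  have h2 := Complex.abs_im_le_norm (z : ℂ)
  have h3 : 1 ≤ Real.sqrt 3 := by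
    rw [Real.one_le_sqrt]; norm_num
  have hb : |((eco 1 z : ℤ) : ℝ)| ≤ 2 * ‖(z : ℂ)‖ := by
    rw [him, abs_mul, abs_of_pos (show 0 < Real.sqrt 3 / 2 by linarith)] at h2
    have := abs_nonneg ((eco 1 z : ℤ) : ℝ)
    nlinarith
  have ha : |((eco 0 z : ℤ) : ℝ)| ≤ 2 * ‖(z : ℂ)‖ := by
    have e : ((eco 0 z : ℤ) : ℝ) = (z : ℂ).re + (eco 1 z : ℝ) / 2 := by rw [hre]; ring
    rw [e]
    refine (abs_add_le _ _).trans ?_
    rw [abs_div, abs_of_pos (show (0 : ℝ) < 2 by norm_num)]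
    linarith
  fin_cases l
  · exact ha
  · exact hb

theorem eco_zero (z : Eis) (h : ∀ l, eco l z = 0) : z = 0 := by
  apply Subtype.ext
  rw [eco_spec z, h 0, h 1]
  simp

/-- sums over finite sets of primes -/
theorem sum_le_tsum {w : ℕ → ℝ} (hw : ∀ p : ℕ, p.Prime → 0 ≤ w p)
    (hs : Summable fun p : Nat.Primes => w p) (F : Finset ℕ) (hF : ∀ p ∈ F, p.Prime) :
    ∑ p ∈ F, w p ≤ ∑' p : Nat.Primes, w p := by
  have h2 : ∀ G : Finset Nat.Primes, ∑ p ∈ G, w p ≤ ∑' p : Nat.Primes, w p := fun G =>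
    hs.sum_le_tsum G fun p _ => hw p p.2
  classical
  have h1 : ∑ p ∈ F, w p = ∑ p ∈ F.attach.image (fun p => (⟨p.1, hF p.1 p.2⟩ : Nat.Primes)),
      w p := by
    rw [Finset.sum_image, Finset.sum_attach F w]
    intro a _ b _ hab
    have := congrArg (fun z : Nat.Primes => (z : ℕ)) hab
    exact Subtype.ext this
  rw [h1]
  exact h2 _

/-- the datum of a map `φ` -/
noncomputable def mkDatum (h : ℕ → ℕ) (hs : Summable fun p : Nat.Primes => wt h p) (φ : ℂ⟦X⟧)
    (hφ : Conv φ) (hφ0 : constantCoeff φ = 0)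
    (hφ1 : Real.exp (∑' p : Nat.Primes, wt h p) < ‖coeff 1 φ‖) : Datum where
  O := Eis
  hO := fun _ ha h0 => eis_norm ha h0
  co := eco
  Cc := 2
  hCc := by norm_num
  hco := eco_bound
  hco0 := eco_zero
  d := den h
  hd0 := den_ne_zero h
  hdm := den_mul h
  T := ∑' p : Nat.Primes, wt h p
  hT := tsum_nonneg fun p => wt_nonneg h p.2
  hdT := den_le h fun F hF => sum_le_tsum (fun _ hp => wt_nonneg h hp) hs F hF
  φ := φ
  hφ := hφ
  hφ0 := hφ0
  hφ1 := hφ1

theorem conv_geom {a : ℂ} (ha : ‖a‖ = 1) : Conv (mk fun s => a ^ s) ∧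
    (1 - C a * X) * (mk fun s => a ^ s) = 1 := by
  constructor
  · intro r hr hr1
    refine (summable_geometric_of_lt_one hr hr1).congr fun s => ?_
    rw [coeff_mk, norm_pow, ha, one_pow, one_mul]
  · ext s
    rw [sub_mul, one_mul, map_sub, mul_assoc, coeff_C_mul]
    cases s with
    | zero => rw [c0_X_mul, coeff_mk, c0_one]; simp
    | succ s =>
      rw [coeff_succ_X_mul, coeff_mk, coeff_mk, coeff_one, if_neg (Nat.succ_ne_zero s), pow_succ]
      ring

/-! ### the complement of the roots of unity -/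

theorem roots_main {m : ℕ} (hm : m ≠ 0) (h : ℕ → ℕ) (hs : Summable fun p : Nat.Primes => wt h p)
    (hlt : ∑' p : Nat.Primes, wt h p < Real.log 16 / m) :
    ∃ L : IntermediateField (RatFunc ℂ) (LaurentSeries ℂ), FiniteDimensional (RatFunc ℂ) L ∧
      ∀ (ι : Type) [Fintype ι] [DecidableEq ι] (k : ℕ) (A : Matrix ι ι (Polynomial ℤ)),
        (∀ p : ℕ, p.Prime → Level ((1 - Polynomial.X ^ m) ^ k) A p (h p)) →
        ∀ y : ι → ℂ⟦X⟧,
          (∀ i, sh 0 ((1 - Polynomial.X ^ m) ^ k) * d⁄dX ℂ (y i) = ∑ j, sh 0 (A i j) * y j) →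
          ∀ i, toL (y i) ∈ L := by
  obtain ⟨F, ψ, hF, hF0, hF1, hψ, hFψ⟩ := exists_F hm hlt
  have hsh : sh 0 (1 - Polynomial.X ^ m) = 1 - X ^ m := by
    rw [map_sub, map_one, map_pow, sh_X, map_zero, add_zero]
  refine Datum.systems (mkDatum h hs F hF (by rwa [← coeff_zero_eq_constantCoeff_apply]) hF1) h rfl
    (Eis.zero_mem) (1 - Polynomial.X ^ m) ⟨1, Eis.one_mem, ?_⟩ ?_ ?_
  · rw [hsh, map_sub, c0_one, c0_pow, coeff_zero_X, zero_pow hm]; ring
  · refine ⟨expand m hm (mk fun s => (1 : ℂ) ^ s), conv_expand (conv_geom (by simp)).1 hm, ?_⟩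
    have h1 := congrArg (expand m hm) (conv_geom (a := 1) (by simp)).2
    rw [map_mul, map_sub, map_mul, expand_X, map_one, map_one, map_one, one_mul] at h1
    rw [hsh]
    exact h1
  · refine ⟨ψ, hψ, ?_⟩
    rw [hsh, map_sub, map_one, map_pow, Datum.σ_X]
    exact hFψ

end Pool.Agent.N780
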