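import Mathlib
import Pool.Agent.N780.Sys

set_option autoImplicit false

/-!
Restriction of scalars: systems with coefficients in the integers of a number field.
-/

namespace Pool.Agent.N780

open PowerSeries
open scoped RatFunc

/-- expansion at `c` of a polynomial with coefficients in `R`, for a homomorphism `ρ` to `ℂ` -/
noncomputable def shR {R : Type*} [CommRing R] (ρ : R →+* ℂ) (c : ℂ) : Polynomial R →+* ℂ⟦X⟧ :=
  Polynomial.eval₂RingHom ((C : ℂ →+* ℂ⟦X⟧).comp ρ) (X + C c)

section

variable {R : Type} [CommRing R] {β : Type} [Fintype β] [DecidableEq β] (b : Module.Basis β ℤ R)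

/-- the transposed regular representation -/
noncomputable def Lam : R →+* Matrix β β ℤ where
  toFun r := (Algebra.leftMulMatrix b r).transpose
  map_one' := by rw [map_one, Matrix.transpose_one]
  map_zero' := by rw [map_zero, Matrix.transpose_zero]
  map_add' r s := by rw [map_add, Matrix.transpose_add]
  map_mul' r s := by rw [mul_comm r s, map_mul, Matrix.transpose_mul]

theorem Lam_eigen (ρ : R →+* ℂ) (r : R) (a : β) :
    ∑ e, ((Lam b r a e : ℤ) : ℂ) * ρ (b e) = ρ r * ρ (b a) := by
  rw [← map_mul]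
  have h1 : r * b a = ∑ e, (Lam b r a e) • b e := by
    have h2 := b.sum_repr (r * b a)
    rw [← h2]
    refine Finset.sum_congr rfl fun e _ => ?_
    congr 1
    change _ = Algebra.leftMulMatrix b r e a
    rw [Algebra.leftMulMatrix_eq_repr_mul]
  rw [h1, map_sum]
  refine Finset.sum_congr rfl fun e _ => ?_
  rw [zsmul_eq_mul, map_mul, map_intCast]

/-- the representation by matrices of polynomials -/
noncomputable def Th : Polynomial R →+* Matrix β β (Polynomial ℤ) :=
  ((matPolyEquiv (R := ℤ) (n := β)).symm.toRingEquiv.toRingHom).comp (Polynomial.mapRingHom (Lam b))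

theorem coeff_Th (P : Polynomial R) (a e : β) (k : ℕ) :
    (Th b P a e).coeff k = Lam b (P.coeff k) a e := by
  have h1 := matPolyEquiv_coeff_apply (Th b P) k a e
  rw [← h1]
  have h2 : matPolyEquiv (Th b P) = P.map (Lam b) := by
    change matPolyEquiv (matPolyEquiv.symm (P.map (Lam b))) = _
    rw [AlgEquiv.apply_symm_apply]
  rw [h2, Polynomial.coeff_map]

theorem Th_deriv (P : Polynomial R) (a e : β) :
    Th b (Polynomial.derivative P) a e = Polynomial.derivative (Th b P a e) := by
  ext k
  rw [coeff_Th, Polynomial.coeff_derivative, Polynomial.coeff_derivative, coeff_Th, map_mul,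
    map_add, map_natCast, map_one]
  have : ((k : Matrix β β ℤ) + 1) = Matrix.diagonal (fun _ => (k : ℤ) + 1) := by
    rw [← Matrix.diagonal_natCast, ← Matrix.diagonal_one, Matrix.diagonal_add]
  rw [this, Matrix.mul_diagonal]

theorem Th_int (P : Polynomial ℤ) (a e : β) :
    Th b (P.map (Int.castRingHom R)) a e = if a = e then P else 0 := by
  ext k
  rw [coeff_Th, Polynomial.coeff_map]
  have : Lam b ((Int.castRingHom R) (P.coeff k)) = Matrix.diagonal (fun _ => P.coeff k) := by
    rw [eq_intCast, map_intCast]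
    exact (Matrix.diagonal_intCast _).symm
  rw [this, Matrix.diagonal_apply]
  split_ifs <;> simp

/-- the block matrix -/
noncomputable def Bl {ι : Type} (A : Matrix ι ι (Polynomial R)) :
    Matrix (ι × β) (ι × β) (Polynomial ℤ) := fun x y => Th b (A x.1 y.1) x.2 y.2

theorem Bl_der {ι : Type} [Fintype ι] [DecidableEq ι] (q : Polynomial ℤ)
    (A : Matrix ι ι (Polynomial R)) (s : ℕ) :
    der q (Bl b A) s = Bl b (der (q.map (Int.castRingHom R)) A s) := by
  induction s with
  | zero =>
    ext1 x y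
    rw [der, der, Bl, Matrix.one_apply, Matrix.one_apply]
    by_cases h1 : x.1 = y.1
    · rw [if_pos h1, map_one, Matrix.one_apply]
      by_cases h2 : x.2 = y.2
      · rw [if_pos h2, if_pos (Prod.ext h1 h2)]
      · rw [if_neg h2, if_neg (fun h => h2 (congrArg Prod.snd h))]
    · rw [if_neg h1, map_zero, if_neg (fun h => h1 (congrArg Prod.fst h))]; rfl
  | succ s ih =>
    ext1 x y
    have hq : ∀ (P : Polynomial ℤ) (B : Matrix β β (Polynomial ℤ)) (a e : β),
        (Th b (P.map (Int.castRingHom R)) * B) a e = P * B a e := by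
      intro P B a e
      rw [Matrix.mul_apply, Finset.sum_eq_single a]
      · rw [Th_int, if_pos rfl]
      · intro z _ hz
        rw [Th_int, if_neg hz.symm, zero_mul]
      · intro h; exact absurd (Finset.mem_univ _) h
    rw [der, ih]
    simp only [Matrix.add_apply, Matrix.sub_apply, Matrix.smul_apply, Matrix.map_apply,
      smul_eq_mul, Bl, der, Matrix.mul_apply]
    rw [map_add, map_sub, map_mul, map_mul, map_sum]
    have e1 : ((s : Polynomial R) * Polynomial.derivative (q.map (Int.castRingHom R))) =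
        ((s : Polynomial ℤ) * Polynomial.derivative q).map (Int.castRingHom R) := by
      rw [Polynomial.map_mul, Polynomial.derivative_map, Polynomial.map_natCast]
    rw [e1, Matrix.add_apply, Matrix.sub_apply, hq, hq, Th_deriv, Matrix.sum_apply,
      Fintype.sum_prod_type]
    congr 1
    refine Finset.sum_congr rfl fun i _ => ?_
    rw [map_mul, Matrix.mul_apply]

theorem Bl_level {ι : Type} [Fintype ι] [DecidableEq ι] (q : Polynomial ℤ)
    (A : Matrix ι ι (Polynomial R)) {p h : ℕ} (hl : Level (q.map (Int.castRingHom R)) A p h) :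
    Level q (Bl b A) p h := by
  intro s hs x y
  obtain ⟨P, hP⟩ := hl s hs x.1 y.1
  rw [Bl_der, Bl, hP, map_mul, map_natCast]
  refine ⟨Th b P x.2 y.2, ?_⟩
  rw [← Matrix.diagonal_natCast, Matrix.diagonal_mul]

theorem sh_Th (ρ : R →+* ℂ) (c : ℂ) (P : Polynomial R) (a : β) :
    ∑ e, sh c (Th b P a e) * C (ρ (b e)) = shR ρ c P * C (ρ (b a)) := by
  induction P using Polynomial.induction_on' with
  | add P Q hP hQ =>
    rw [map_add, map_add, add_mul, ← hP, ← hQ, ← Finset.sum_add_distrib]
    refine Finset.sum_congr rfl fun e _ => ?_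
    rw [Matrix.add_apply, map_add, add_mul]
  | monomial k r =>
    have e1 : ∀ e, Th b (Polynomial.monomial k r) a e = Polynomial.monomial k (Lam b r a e) := by
      intro e
      ext j
      rw [coeff_Th, Polynomial.coeff_monomial, Polynomial.coeff_monomial]
      split_ifs
      · rfl
      · rw [map_zero]; rfl
    have e2 : shR ρ c (Polynomial.monomial k r) = C (ρ r) * (X + C c) ^ k := by
      unfold shR; simp [Polynomial.eval₂_monomial]
    have e3 : ∀ z : ℤ, sh c (Polynomial.monomial k z) = C (z : ℂ) * (X + C c) ^ k := by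
      intro z
      rw [← Polynomial.C_mul_X_pow_eq_monomial, map_mul, map_pow, sh_X, sh_C]
    simp only [e1, e2, e3]
    calc ∑ e, C ((Lam b r a e : ℤ) : ℂ) * (X + C c) ^ k * C (ρ (b e))
        = C (∑ e, ((Lam b r a e : ℤ) : ℂ) * ρ (b e)) * (X + C c) ^ k := by
          rw [map_sum, Finset.sum_mul]
          refine Finset.sum_congr rfl fun e _ => ?_
          rw [map_mul]; ring
      _ = _ := by rw [Lam_eigen, map_mul]; ring

/-- the restriction of scalars of a solution -/
theorem Bl_sol {ι : Type} [Fintype ι] [DecidableEq ι] (ρ : R →+* ℂ) (c : ℂ) (q : Polynomial ℤ)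
    (A : Matrix ι ι (Polynomial R)) (y : ι → ℂ⟦X⟧)
    (hy : ∀ i, sh c q * d⁄dX ℂ (y i) = ∑ j, shR ρ c (A i j) * y j) (x : ι × β) :
    sh c q * d⁄dX ℂ (C (ρ (b x.2)) * y x.1) =
      ∑ z : ι × β, sh c (Bl b A x z) * (C (ρ (b z.2)) * y z.1) := by
  rw [Fintype.sum_prod_type, Derivation.leibniz, derivative_C, smul_zero, add_zero, smul_eq_mul]
  calc sh c q * (C (ρ (b x.2)) * d⁄dX ℂ (y x.1)) = C (ρ (b x.2)) * (sh c q * d⁄dX ℂ (y x.1)) := by
        ring
    _ = ∑ j, (shR ρ c (A x.1 j) * C (ρ (b x.2))) * y j := by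
        rw [hy, Finset.mul_sum]
        exact Finset.sum_congr rfl fun j _ => by ring
    _ = _ := by
        refine Finset.sum_congr rfl fun j _ => ?_
        rw [← sh_Th, Finset.sum_mul]
        refine Finset.sum_congr rfl fun e _ => ?_
        simp only [Bl]
        ring

end

/-- from integer polynomials to polynomials over all commutative rings which are finite and free over `ℤ`,
for instance the integers of all number fields -/
theorem fr_of (q₁ : Polynomial ℤ) (c : ℂ) (h : ℕ → ℕ)
    (L : IntermediateField (RatFunc ℂ) (LaurentSeries ℂ))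
    (hL : ∀ (ι : Type) [Fintype ι] [DecidableEq ι] (k : ℕ) (A : Matrix ι ι (Polynomial ℤ)),
        (∀ p : ℕ, p.Prime → Level (q₁ ^ k) A p (h p)) →
        ∀ y : ι → ℂ⟦X⟧, (∀ i, sh c (q₁ ^ k) * d⁄dX ℂ (y i) = ∑ j, sh c (A i j) * y j) →
          ∀ i, toL (y i) ∈ L)
    (R : Type) [CommRing R] [Module.Free ℤ R] [Module.Finite ℤ R] (ρ : R →+* ℂ) (n k : ℕ)
    (A : Matrix (Fin n) (Fin n) (Polynomial R))
    (hA : ∀ p : ℕ, p.Prime → Level ((q₁.map (Int.castRingHom R)) ^ k) A p (h p))
    (y : Fin n → ℂ⟦X⟧) (hy : ∀ i, sh c (q₁ ^ k) * d⁄dX ℂ (y i) = ∑ j, shR ρ c (A i j) * y j)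
    (i : Fin n) : toL (y i) ∈ L := by
  classical
  set b := Module.Free.chooseBasis ℤ R with hb
  have hρ : ∃ a, ρ (b a) ≠ 0 := by
    by_contra hcon
    push Not at hcon
    have h1 : ρ 1 = 0 := by
      rw [← b.sum_repr 1, map_sum]
      refine Finset.sum_eq_zero fun a _ => ?_
      rw [zsmul_eq_mul, map_mul, hcon a, mul_zero]
    rw [map_one] at h1
    exact one_ne_zero h1
  obtain ⟨a, ha⟩ := hρ
  have h1 := hL (Fin n × _) k (Bl b A) (fun p hp => Bl_level b _ A (by
      rw [Polynomial.map_pow]; exact hA p hp))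
    (fun x => C (ρ (b x.2)) * y x.1) (fun x => Bl_sol b ρ c (q₁ ^ k) A y hy x) (i, a)
  have h2 := toL_C_mul_mem L (ρ (b a))⁻¹ h1
  have e : C ((ρ (b a))⁻¹) * (C (ρ (b a)) * y i) = y i := by
    rw [← mul_assoc, ← map_mul, inv_mul_cancel₀ ha, map_one, one_mul]
  simp only at h2
  rwa [e] at h2

end Pool.Agent.N780
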