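import Mathlib
import Pool.Agent.N780.Eis

set_option autoImplicit false

/-!
The projective line without `0, 1, ∞`, with the base point `-ω = (1 - √3 i)/2`.
-/

namespace Pool.Agent.N780

open PowerSeries
open scoped RatFunc

theorem om_norm : ‖om‖ = 1 := by
  have h : ‖om‖ ^ 3 = 1 := by rw [← norm_pow, om_cube, norm_one]
  have h0 := norm_nonneg om
  nlinarith [sq_nonneg (‖om‖ - 1), sq_nonneg (‖om‖ + 1)]

theorem om_diff_norm : ‖om ^ 2 - om‖ = Real.sqrt 3 := by
  have h1 : Complex.normSq (om ^ 2 - om) = 3 := by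
    have e : om ^ 2 - om = ((-1 : ℤ) : ℂ) + ((-2 : ℤ) : ℂ) * om := by
      push_cast
      linear_combination om_sq
    rw [e, eis_normSq]; norm_num
  rw [← h1, Complex.normSq_eq_norm_sq, Real.sqrt_sq (norm_nonneg _)]

theorem three_main (h : ℕ → ℕ) (hs : Summable fun p : Nat.Primes => wt h p)
    (hlt : ∑' p : Nat.Primes, wt h p < Real.log 3 / 2 + Real.log 16 / 3) :
    ∃ L : IntermediateField (RatFunc ℂ) (LaurentSeries ℂ), FiniteDimensional (RatFunc ℂ) L ∧
      ∀ (ι : Type) [Fintype ι] [DecidableEq ι] (k : ℕ) (A : Matrix ι ι (Polynomial ℤ)),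
        (∀ p : ℕ, p.Prime → Level ((Polynomial.X * (1 - Polynomial.X)) ^ k) A p (h p)) →
        ∀ y : ι → ℂ⟦X⟧,
          (∀ i, sh (-om) ((Polynomial.X * (1 - Polynomial.X)) ^ k) * d⁄dX ℂ (y i) =
            ∑ j, sh (-om) (A i j) * y j) →
          ∀ i, toL (y i) ∈ L := by
  set T := ∑' p : Nat.Primes, wt h p with hT
  have hη : T - Real.log 3 / 2 < Real.log 16 / (3 : ℕ) := by push_cast; linarith
  obtain ⟨F, ψ, hF, hF0, hF1, hψ, hFψ⟩ := exists_F (by norm_num : (3 : ℕ) ≠ 0) hη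
  have hmem : -om ∈ Eis := Eis.neg_mem ⟨0, 1, by simp⟩
  set w : ℂ⟦X⟧ := C om with hw
  have hwc : Conv w := conv_C om
  have hw2 : w ^ 2 + w + 1 = 0 := by
    have := congrArg (C : ℂ → ℂ⟦X⟧) om_sq
    rw [map_add, map_add, map_pow, map_one, map_zero] at this
    exact this
  have hw3 : w ^ 3 = 1 := by linear_combination (w - 1) * hw2
  -- the map
  set φ : ℂ⟦X⟧ := (w ^ 2 - w) * (F * ((1 + F + F ^ 2) * ψ)) with hφd
  have h1F : Conv ((1 + F + F ^ 2) * ψ) := ((conv_one.add hF).add (hF.pow 2)).mul hψ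
  have hφ : Conv φ := ((hwc.pow 2).sub hwc).mul (hF.mul h1F)
  have hφF : φ * (1 - F) = (w ^ 2 - w) * F := by
    rw [hφd]; linear_combination ((w ^ 2 - w) * F) * hFψ
  have hφ0 : coeff 0 φ = 0 := by
    rw [hφd, c0_mul, c0_mul, hF0, zero_mul, mul_zero]
  have hψ0 : coeff 0 ψ = 1 := by
    have h5 := congrArg (coeff 0) hFψ
    rw [c0_mul, map_sub, c0_pow, hF0, c0_one] at h5
    linear_combination h5
  have hc1 : ∀ f g : ℂ⟦X⟧, coeff 1 (f * g) = coeff 0 f * coeff 1 g + coeff 1 f * coeff 0 g := by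
    intro f g
    rw [coeff_mul, Finset.Nat.antidiagonal_succ]
    simp
  have hφ1 : coeff 1 φ = (om ^ 2 - om) * coeff 1 F := by
    have e1 : coeff 0 (w ^ 2 - w) = om ^ 2 - om := by
      rw [map_sub, c0_pow, hw, coeff_zero_C]
    have e2 : coeff 1 (w ^ 2 - w) = 0 := by
      have : w ^ 2 - w = C (om ^ 2 - om) := by rw [hw, map_sub, map_pow]
      rw [this, coeff_C, if_neg one_ne_zero]
    have e3 : coeff 0 ((1 + F + F ^ 2) * ψ) = 1 := by
      rw [c0_mul, map_add, map_add, c0_one, hF0, c0_pow, hF0, hψ0]; norm_num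
    rw [hφd, hc1, hc1, e1, e2, hF0, e3]
    ring
  have hbig : Real.exp T < ‖coeff 1 φ‖ := by
    rw [hφ1, norm_mul, om_diff_norm]
    have e : Real.exp T = Real.sqrt 3 * Real.exp (T - Real.log 3 / 2) := by
      have h3 : Real.sqrt 3 = Real.exp (Real.log 3 / 2) := by
        rw [Real.sqrt_eq_rpow, Real.rpow_def_of_pos (by norm_num)]
        congr 1; ring
      rw [h3, ← Real.exp_add]; congr 1; ring
    rw [e]
    exact mul_lt_mul_of_pos_left hF1 sqrt3_pos
  have hsh : sh (-om) (Polynomial.X * (1 - Polynomial.X)) = (X - w) * (1 + w - X) := by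
    rw [map_mul, map_sub, map_one, sh_X, map_neg]; ring
  refine Datum.systems (mkDatum h hs φ hφ (by rwa [← coeff_zero_eq_constantCoeff_apply]) hbig) h rfl
    hmem (Polynomial.X * (1 - Polynomial.X)) ⟨1, Eis.one_mem, ?_⟩ ?_ ?_
  · rw [hsh, c0_mul, map_sub, map_sub, map_add, coeff_zero_X, c0_one, hw, coeff_zero_C]
    linear_combination -om_sq
  · -- the inverse in the disc of radius one around the base point
    have n1 : ‖om ^ 2‖ = 1 := by rw [norm_pow, om_norm, one_pow]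
    have n2 : ‖-om‖ = 1 := by rw [norm_neg, om_norm]
    obtain ⟨a1, a2⟩ := conv_geom n1
    obtain ⟨b1, b2⟩ := conv_geom n2
    rw [map_pow, ← hw] at a2
    rw [map_neg, ← hw] at b2
    refine ⟨(-w ^ 2 * mk fun s => (om ^ 2) ^ s) * (-w * mk fun s => (-om) ^ s),
      ((hwc.pow 2).neg.mul a1).mul (hwc.neg.mul b1), ?_⟩
    rw [hsh]
    have e1 : (X - w) * (-w ^ 2 * mk fun s => (om ^ 2) ^ s) = 1 := by
      linear_combination a2 + (mk fun s => (om ^ 2) ^ s) * hw3
    have e2 : (1 + w - X) * (-w * mk fun s => (-om) ^ s) = 1 := by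
      linear_combination b2 - (mk fun s => (-om) ^ s) * hw2
    calc (X - w) * (1 + w - X) * ((-w ^ 2 * mk fun s => (om ^ 2) ^ s) * (-w * mk fun s => (-om) ^ s))
        = ((X - w) * (-w ^ 2 * mk fun s => (om ^ 2) ^ s)) *
            ((1 + w - X) * (-w * mk fun s => (-om) ^ s)) := by ring
      _ = 1 := by rw [e1, e2, one_mul]
  · refine ⟨(-w ^ 2 * (1 - F) * ((1 + w * F + w ^ 2 * F ^ 2) * ψ)) *
      (-w * (1 - F) * ((1 + w ^ 2 * F + w * F ^ 2) * ψ)), ?_, ?_⟩
    · have c1 := (hwc.pow 2).neg.mul (conv_one.sub hF)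
      have c2 := ((conv_one.add (hwc.mul hF)).add ((hwc.pow 2).mul (hF.pow 2))).mul hψ
      have c3 := hwc.neg.mul (conv_one.sub hF)
      have c4 := ((conv_one.add ((hwc.pow 2).mul hF)).add (hwc.mul (hF.pow 2))).mul hψ
      exact (c1.mul c2).mul (c3.mul c4)
    · rw [hsh, map_mul, map_sub, map_sub, map_add, map_one, Datum.σ_X, hw, Datum.σ_C, ← hw]
      change (φ - w) * (1 + w - φ) * _ = 1
      have e1 : (φ - w) * (1 - F) = w ^ 2 * F - w := by linear_combination hφF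
      have e2 : (1 + w - φ) * (1 - F) = -w ^ 2 + w * F := by
        linear_combination -hφF + (1 - F) * hw2
      have e3 : (φ - w) * (-w ^ 2 * (1 - F) * ((1 + w * F + w ^ 2 * F ^ 2) * ψ)) = 1 := by
        linear_combination (-w ^ 2 * ((1 + w * F + w ^ 2 * F ^ 2) * ψ)) * e1 + hFψ +
          (ψ * (1 - w * F ^ 3 * w ^ 2 - F ^ 3)) * hw3
      have e4 : (1 + w - φ) * (-w * (1 - F) * ((1 + w ^ 2 * F + w * F ^ 2) * ψ)) = 1 := by
        linear_combination (-w * ((1 + w ^ 2 * F + w * F ^ 2) * ψ)) * e2 + hFψ +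
          (ψ * (1 - F ^ 3 + w ^ 2 * F)) * hw3
      calc (φ - w) * (1 + w - φ) * ((-w ^ 2 * (1 - F) * ((1 + w * F + w ^ 2 * F ^ 2) * ψ)) *
            (-w * (1 - F) * ((1 + w ^ 2 * F + w * F ^ 2) * ψ)))
          = ((φ - w) * (-w ^ 2 * (1 - F) * ((1 + w * F + w ^ 2 * F ^ 2) * ψ))) *
            ((1 + w - φ) * (-w * (1 - F) * ((1 + w ^ 2 * F + w * F ^ 2) * ψ))) := by ring
        _ = 1 := by rw [e3, e4, one_mul]

end Pool.Agent.N780
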