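import Mathlib
import Pool.Agent.N780.Eff
import Pool.Agent.N780.Eis
import Pool.Agent.N780.Three
import Pool.Agent.N780.Nf

set_option autoImplicit false

/-!
The effective form in the two cases.
-/

namespace Pool.Agent.N780

open PowerSeries
open scoped RatFunc

/-- the effective form for integer polynomials -/
def Eff (c : ℂ) (q₁ : Polynomial ℤ) (h : ℕ → ℕ) : Prop :=
    ∃ N : ℕ, ∀ (ι : Type) [Fintype ι] [DecidableEq ι] (k a : ℕ), ∃ K : ℕ,
      ∀ (H : ℕ) (A : Matrix ι ι (Polynomial ℤ)), (∀ i j, (A i j).natDegree ≤ a) →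
        (∀ i j l, |(A i j).coeff l| ≤ (H : ℤ)) →
        (∀ p : ℕ, p.Prime → p ≤ K * (H + 1) → Level (q₁ ^ k) A p (h p)) →
        ∃ L : IntermediateField (RatFunc ℂ) (LaurentSeries ℂ), FiniteDimensional (RatFunc ℂ) L ∧
          Module.finrank (RatFunc ℂ) L ≤ N ∧
          ∀ y : ι → ℂ⟦X⟧,
            (∀ i, sh c (q₁ ^ k) * d⁄dX ℂ (y i) = ∑ j, sh c (A i j) * y j) →
            ∀ i, toL (y i) ∈ L

theorem roots_eff {m : ℕ} (hm : m ≠ 0) (h : ℕ → ℕ) (hs : Summable fun p : Nat.Primes => wt h p)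
    (hlt : ∑' p : Nat.Primes, wt h p < Real.log 16 / m) :
    Eff 0 (1 - Polynomial.X ^ m) h := by
  obtain ⟨F, ψ, hF, hF0, hF1, hψ, hFψ⟩ := exists_F hm hlt
  have hsh : sh 0 (1 - Polynomial.X ^ m) = 1 - X ^ m := by
    rw [map_sub, map_one, map_pow, sh_X, map_zero, add_zero]
  refine Datum.effective (mkDatum h hs F hF (by rwa [← coeff_zero_eq_constantCoeff_apply]) hF1) h rfl
    (Eis.zero_mem) (1 - Polynomial.X ^ m) ⟨1, Eis.one_mem, ?_⟩ ?_ ?_
  · rw [hsh, map_sub, c0_one, c0_pow, coeff_zero_X, zero_pow hm]; ring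
  · refine ⟨expand m hm (mk fun s => (1 : ℂ) ^ s), conv_expand (conv_geom (by simp)).1 hm, ?_⟩
    have h1 := congrArg (expand m hm) (conv_geom (a := 1) (by simp)).2
    rw [map_mul, map_sub, map_mul, expand_X, map_one, map_one, map_one, one_mul] at h1
    rw [hsh]
    exact h1
  · refine ⟨ψ, hψ, ?_⟩
    rw [hsh, map_sub, map_one, map_pow, Datum.σ_X]
    exact hFψ

theorem three_eff (h : ℕ → ℕ) (hs : Summable fun p : Nat.Primes => wt h p)
    (hlt : ∑' p : Nat.Primes, wt h p < Real.log 3 / 2 + Real.log 16 / 3) :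
    Eff (-om) (Polynomial.X * (1 - Polynomial.X)) h := by
  set T := ∑' p : Nat.Primes, wt h p with hT
  have hη : T - Real.log 3 / 2 < Real.log 16 / (3 : ℕ) := by push_cast; linarith
  obtain ⟨F, ψ, hF, hF0, hF1, hψ, hFψ⟩ := exists_F (by norm_num : (3 : ℕ) ≠ 0) hη
  have hmem : -om ∈ Eis := Eis.neg_mem ⟨0, 1, by simp⟩
  set w : ℂ⟦X⟧ := C om with hw
  have hwc : Conv w := conv_C om
  have hw2 : w ^ 2 + w + 1 = 0 := by
    have := congrArg (C : ℂ → ℂ⟦X⟧) om_sq
    rw [map_add, map_add, map_pow, map_one, map_zero] at this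
    exact this
  have hw3 : w ^ 3 = 1 := by linear_combination (w - 1) * hw2
  -- the map
  set φ : ℂ⟦X⟧ := (w ^ 2 - w) * (F * ((1 + F + F ^ 2) * ψ)) with hφd
  have h1F : Conv ((1 + F + F ^ 2) * ψ) := ((conv_one.add hF).add (hF.pow 2)).mul hψ
  have hφ : Conv φ := ((hwc.pow 2).sub hwc).mul (hF.mul h1F)
  have hφF : φ * (1 - F) = (w ^ 2 - w) * F := by
    rw [hφd]; linear_combination ((w ^ 2 - w) * F) * hFψ
  have hφ0 : coeff 0 φ = 0 := by
    rw [hφd, c0_mul, c0_mul, hF0, zero_mul, mul_zero]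
  have hψ0 : coeff 0 ψ = 1 := by
    have h5 := congrArg (coeff 0) hFψ
    rw [c0_mul, map_sub, c0_pow, hF0, c0_one] at h5
    linear_combination h5
  have hc1 : ∀ f g : ℂ⟦X⟧, coeff 1 (f * g) = coeff 0 f * coeff 1 g + coeff 1 f * coeff 0 g := by
    intro f g
    rw [coeff_mul, Finset.Nat.antidiagonal_succ]
    simp
  have hφ1 : coeff 1 φ = (om ^ 2 - om) * coeff 1 F := by
    have e1 : coeff 0 (w ^ 2 - w) = om ^ 2 - om := by
      rw [map_sub, c0_pow, hw, coeff_zero_C]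
    have e2 : coeff 1 (w ^ 2 - w) = 0 := by
      have : w ^ 2 - w = C (om ^ 2 - om) := by rw [hw, map_sub, map_pow]
      rw [this, coeff_C, if_neg one_ne_zero]
    have e3 : coeff 0 ((1 + F + F ^ 2) * ψ) = 1 := by
      rw [c0_mul, map_add, map_add, c0_one, hF0, c0_pow, hF0, hψ0]; norm_num
    rw [hφd, hc1, hc1, e1, e2, hF0, e3]
    ring
  have hbig : Real.exp T < ‖coeff 1 φ‖ := by
    rw [hφ1, norm_mul, om_diff_norm]
    have e : Real.exp T = Real.sqrt 3 * Real.exp (T - Real.log 3 / 2) := by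
      have h3 : Real.sqrt 3 = Real.exp (Real.log 3 / 2) := by
        rw [Real.sqrt_eq_rpow, Real.rpow_def_of_pos (by norm_num)]
        congr 1; ring
      rw [h3, ← Real.exp_add]; congr 1; ring
    rw [e]
    exact mul_lt_mul_of_pos_left hF1 sqrt3_pos
  have hsh : sh (-om) (Polynomial.X * (1 - Polynomial.X)) = (X - w) * (1 + w - X) := by
    rw [map_mul, map_sub, map_one, sh_X, map_neg]; ring
  refine Datum.effective (mkDatum h hs φ hφ (by rwa [← coeff_zero_eq_constantCoeff_apply]) hbig) h rfl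
    hmem (Polynomial.X * (1 - Polynomial.X)) ⟨1, Eis.one_mem, ?_⟩ ?_ ?_
  · rw [hsh, c0_mul, map_sub, map_sub, map_add, coeff_zero_X, c0_one, hw, coeff_zero_C]
    linear_combination -om_sq
  · -- the inverse in the disc of radius one around the base point
    have n1 : ‖om ^ 2‖ = 1 := by rw [norm_pow, om_norm, one_pow]
    have n2 : ‖-om‖ = 1 := by rw [norm_neg, om_norm]
    obtain ⟨a1, a2⟩ := conv_geom n1
    obtain ⟨b1, b2⟩ := conv_geom n2
    rw [map_pow, ← hw] at a2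
    rw [map_neg, ← hw] at b2
    refine ⟨(-w ^ 2 * mk fun s => (om ^ 2) ^ s) * (-w * mk fun s => (-om) ^ s),
      ((hwc.pow 2).neg.mul a1).mul (hwc.neg.mul b1), ?_⟩
    rw [hsh]
    have e1 : (X - w) * (-w ^ 2 * mk fun s => (om ^ 2) ^ s) = 1 := by
      linear_combination a2 + (mk fun s => (om ^ 2) ^ s) * hw3
    have e2 : (1 + w - X) * (-w * mk fun s => (-om) ^ s) = 1 := by
      linear_combination b2 - (mk fun s => (-om) ^ s) * hw2
    calc (X - w) * (1 + w - X) * ((-w ^ 2 * mk fun s => (om ^ 2) ^ s) * (-w * mk fun s => (-om) ^ s))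
        = ((X - w) * (-w ^ 2 * mk fun s => (om ^ 2) ^ s)) *
            ((1 + w - X) * (-w * mk fun s => (-om) ^ s)) := by ring
      _ = 1 := by rw [e1, e2, one_mul]
  · refine ⟨(-w ^ 2 * (1 - F) * ((1 + w * F + w ^ 2 * F ^ 2) * ψ)) *
      (-w * (1 - F) * ((1 + w ^ 2 * F + w * F ^ 2) * ψ)), ?_, ?_⟩
    · have c1 := (hwc.pow 2).neg.mul (conv_one.sub hF)
      have c2 := ((conv_one.add (hwc.mul hF)).add ((hwc.pow 2).mul (hF.pow 2))).mul hψ
      have c3 := hwc.neg.mul (conv_one.sub hF)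
      have c4 := ((conv_one.add ((hwc.pow 2).mul hF)).add (hwc.mul (hF.pow 2))).mul hψ
      exact (c1.mul c2).mul (c3.mul c4)
    · rw [hsh, map_mul, map_sub, map_sub, map_add, map_one, Datum.σ_X, hw, Datum.σ_C, ← hw]
      change (φ - w) * (1 + w - φ) * _ = 1
      have e1 : (φ - w) * (1 - F) = w ^ 2 * F - w := by linear_combination hφF
      have e2 : (1 + w - φ) * (1 - F) = -w ^ 2 + w * F := by
        linear_combination -hφF + (1 - F) * hw2
      have e3 : (φ - w) * (-w ^ 2 * (1 - F) * ((1 + w * F + w ^ 2 * F ^ 2) * ψ)) = 1 := by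
        linear_combination (-w ^ 2 * ((1 + w * F + w ^ 2 * F ^ 2) * ψ)) * e1 + hFψ +
          (ψ * (1 - w * F ^ 3 * w ^ 2 - F ^ 3)) * hw3
      have e4 : (1 + w - φ) * (-w * (1 - F) * ((1 + w ^ 2 * F + w * F ^ 2) * ψ)) = 1 := by
        linear_combination (-w * ((1 + w ^ 2 * F + w * F ^ 2) * ψ)) * e2 + hFψ +
          (ψ * (1 - F ^ 3 + w ^ 2 * F)) * hw3
      calc (φ - w) * (1 + w - φ) * ((-w ^ 2 * (1 - F) * ((1 + w * F + w ^ 2 * F ^ 2) * ψ)) *
            (-w * (1 - F) * ((1 + w ^ 2 * F + w * F ^ 2) * ψ)))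
          = ((φ - w) * (-w ^ 2 * (1 - F) * ((1 + w * F + w ^ 2 * F ^ 2) * ψ))) *
            ((1 + w - φ) * (-w * (1 - F) * ((1 + w ^ 2 * F + w * F ^ 2) * ψ))) := by ring
        _ = 1 := by rw [e3, e4, one_mul]


section

variable {R : Type} [CommRing R] {β : Type} [Fintype β] [DecidableEq β] (b : Module.Basis β ℤ R)

/-- the size of the multiplication table -/
noncomputable def tbl : ℕ := ∑ f, ∑ a, ∑ e, (b.repr (b f * b a) e).natAbs

theorem Lam_size {r : R} {H : ℕ} (hr : ∀ e, |b.repr r e| ≤ (H : ℤ)) (a e : β) :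
    |Lam b r a e| ≤ ((tbl b * H : ℕ) : ℤ) := by
  have h1 : Lam b r a e = ∑ f, b.repr r f * b.repr (b f * b a) e := by
    change Algebra.leftMulMatrix b r e a = _
    rw [Algebra.leftMulMatrix_eq_repr_mul]
    conv_lhs => rw [← b.sum_repr r]
    rw [Finset.sum_mul, map_sum, Finsupp.finsetSum_apply]
    refine Finset.sum_congr rfl fun f _ => ?_
    rw [smul_mul_assoc, map_zsmul, Finsupp.smul_apply, smul_eq_mul]
  rw [h1]
  refine (Finset.abs_sum_le_sum_abs _ _).trans ?_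
  have h2 : ∀ f ∈ Finset.univ, |b.repr r f * b.repr (b f * b a) e| ≤
      (H : ℤ) * ((b.repr (b f * b a) e).natAbs : ℤ) := by
    intro f _
    rw [abs_mul, Int.natCast_natAbs]
    exact mul_le_mul_of_nonneg_right (hr f) (abs_nonneg _)
  refine (Finset.sum_le_sum h2).trans ?_
  rw [← Finset.mul_sum]
  have h3 : ∑ f, (b.repr (b f * b a) e).natAbs ≤ tbl b := by
    unfold tbl
    refine Finset.sum_le_sum fun f _ => ?_
    calc (b.repr (b f * b a) e).natAbs ≤ ∑ e, (b.repr (b f * b a) e).natAbs :=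
          Finset.single_le_sum (f := fun e => (b.repr (b f * b a) e).natAbs)
            (fun _ _ => Nat.zero_le _) (Finset.mem_univ e)
      _ ≤ _ := Finset.single_le_sum (f := fun a => ∑ e, (b.repr (b f * b a) e).natAbs)
            (fun _ _ => Nat.zero_le _) (Finset.mem_univ a)
  have h4 : (∑ f, ((b.repr (b f * b a) e).natAbs : ℤ)) ≤ (tbl b : ℤ) := by exact_mod_cast h3
  push_cast at h4 ⊢
  rw [mul_comm]
  exact mul_le_mul_of_nonneg_right h4 (Int.natCast_nonneg _)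

theorem Th_deg (P : Polynomial R) (a e : β) : (Th b P a e).natDegree ≤ P.natDegree := by
  rw [Polynomial.natDegree_le_iff_coeff_eq_zero]
  intro l hl
  rw [coeff_Th, Polynomial.coeff_eq_zero_of_natDegree_lt hl, map_zero, Matrix.zero_apply]

end

/-- passage to the rings which are finite and free over `ℤ` -/
theorem fr_eff {c : ℂ} {q₁ : Polynomial ℤ} {h : ℕ → ℕ} (hE : Eff c q₁ h) :
    ∃ N : ℕ, ∀ (R : Type) [CommRing R] (d : ℕ) (b : Module.Basis (Fin d) ℤ R) (n k a : ℕ), ∃ K : ℕ,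
      ∀ (ρ : R →+* ℂ) (H : ℕ) (A : Matrix (Fin n) (Fin n) (Polynomial R)),
        (∀ i j, (A i j).natDegree ≤ a) →
        (∀ i j l e, |b.repr ((A i j).coeff l) e| ≤ (H : ℤ)) →
        (∀ p : ℕ, p.Prime → p ≤ K * (H + 1) →
          Level ((q₁.map (Int.castRingHom R)) ^ k) A p (h p)) →
        ∃ L : IntermediateField (RatFunc ℂ) (LaurentSeries ℂ), FiniteDimensional (RatFunc ℂ) L ∧
          Module.finrank (RatFunc ℂ) L ≤ N ∧
          ∀ y : Fin n → ℂ⟦X⟧,
            (∀ i, sh c (q₁ ^ k) * d⁄dX ℂ (y i) = ∑ j, shR ρ c (A i j) * y j) →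
            ∀ i, toL (y i) ∈ L := by
  classical
  obtain ⟨N, hN⟩ := hE
  refine ⟨N, fun R _ d b n k a => ?_⟩
  obtain ⟨K, hK⟩ := hN (Fin n × Fin d) k a
  refine ⟨K * (tbl b + 1), fun ρ H A hAd hAH hlev => ?_⟩
  have hρ : ∃ a, ρ (b a) ≠ 0 := by
    by_contra hcon
    push Not at hcon
    have h1 : ρ 1 = 0 := by
      rw [← b.sum_repr 1, map_sum]
      refine Finset.sum_eq_zero fun a _ => ?_
      rw [zsmul_eq_mul, map_mul, hcon a, mul_zero]
    rw [map_one] at h1
    exact one_ne_zero h1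
  obtain ⟨a₀, ha₀⟩ := hρ
  obtain ⟨L, hL1, hL2, hL3⟩ := hK (tbl b * H) (Bl b A) (fun x y => (Th_deg b _ _ _).trans (hAd _ _))
    (fun x y l => by
      change |(Th b (A x.1 y.1) x.2 y.2).coeff l| ≤ _
      rw [coeff_Th]
      exact Lam_size b (fun e => hAH _ _ l e) _ _)
    (fun p hp hpK => Bl_level b _ A (by
      rw [Polynomial.map_pow]
      refine hlev p hp (hpK.trans ?_)
      calc K * (tbl b * H + 1) ≤ K * ((tbl b + 1) * (H + 1)) := by
            gcongr
            nlinarith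
        _ = _ := by ring))
  refine ⟨L, hL1, hL2, fun y hy i => ?_⟩
  have h1 := hL3 (fun x => C (ρ (b x.2)) * y x.1) (fun x => Bl_sol b ρ c (q₁ ^ k) A y hy x) (i, a₀)
  have h2 := toL_C_mul_mem L (ρ (b a₀))⁻¹ h1
  have e : C ((ρ (b a₀))⁻¹) * (C (ρ (b a₀)) * y i) = y i := by
    rw [← mul_assoc, ← map_mul, inv_mul_cancel₀ ha₀, map_one, one_mul]
  simp only at h2
  rwa [e] at h2

end Pool.Agent.N780
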