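import Mathlib
import Pool.Agent.N780.Arith

set_option autoImplicit false

/-!
Numerical bound: `∑_p log p / (p (p - 1)) ≤ 1.09487 log 2 = 0.7592...` (the true value is `0.7553...`).
-/

namespace Pool.Agent.N780

/-- the primes `p` up to `528` with exponents `k` such that `p^1024 ≤ 2^k` -/
def tab : List (ℕ × ℕ) :=
  [(2, 1024), (3, 1624), (5, 2378), (7, 2875), (11, 3543), (13, 3790), (17, 4186), (19, 4350),
   (23, 4633), (29, 4975), (31, 5074), (37, 5335), (41, 5487), (43, 5557), (47, 5688), (53, 5866),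
   (59, 6024), (61, 6074), (67, 6212), (71, 6298), (73, 6339), (79, 6456), (83, 6529), (89, 6632),
   (97, 6759), (101, 6819), (103, 6847), (107, 6904), (109, 6931), (113, 6984), (127, 7157), (131,
   7203), (137, 7269), (139, 7290), (149, 7393), (151, 7413), (157, 7470), (163, 7526), (167,
   7561), (173, 7614), (179, 7664), (181, 7680), (191, 7760), (193, 7775), (197, 7805), (199,
   7820), (211, 7907), (223, 7989), (227, 8015), (229, 8028), (233, 8053), (239, 8091), (241,
   8103), (251, 8163), (257, 8198), (263, 8232), (269, 8266), (271, 8277), (277, 8309), (281,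
   8330), (283, 8341), (293, 8392), (307, 8461), (311, 8480), (313, 8489), (317, 8508), (331,
   8572), (337, 8599), (347, 8642), (349, 8650), (353, 8667), (359, 8692), (367, 8725), (373,
   8749), (379, 8772), (383, 8788), (389, 8811), (397, 8841), (401, 8855), (409, 8885), (419,
   8920), (421, 8927), (431, 8962), (433, 8969), (439, 8989), (443, 9003), (449, 9023), (457,
   9049), (461, 9061), (463, 9068), (467, 9081), (479, 9118), (487, 9143), (491, 9155), (499,
   9179), (503, 9190), (509, 9208), (521, 9242), (523, 9248)]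

theorem tab_pow : ∀ x ∈ tab, x.1 ^ 1024 ≤ 2 ^ x.2 ∧ 2 ≤ x.1 := by decide +kernel

theorem tab_nodup : (tab.map Prod.fst).Nodup := by decide +kernel

/-- upper bound of `10^12 log p / (p (p - 1) log 2)` -/
def ub (x : ℕ × ℕ) : ℕ := (10 ^ 12 * x.2) / (1024 * x.1 * (x.1 - 1)) + 1

theorem sum_tab : (tab.map ub).sum ≤ 1087295487048 := by decide +kernel

theorem tab_mem : ∀ n < 529, 1 < n → (Nat.gcd n 9699690 = 1 ∨ n ∈ [2, 3, 5, 7, 11, 13, 17, 19]) →
    n ∈ tab.map Prod.fst := by decide +kernel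

theorem mem_small {p : ℕ} (hp : p.Prime) (h : p ≤ 528) : p ∈ tab.map Prod.fst := by
  refine tab_mem p (by omega) hp.one_lt ?_
  by_cases h1 : p ∣ 9699690
  · right
    have e : (9699690 : ℕ) = 2 * 3 * 5 * 7 * 11 * 13 * 17 * 19 := by norm_num
    rw [e] at h1
    simp only [hp.dvd_mul] at h1
    have hq : ∀ q : ℕ, q.Prime → p ∣ q → p = q := fun q hq hd => (Nat.prime_dvd_prime_iff_eq hp hq).1 hd
    rcases h1 with ((((((h1 | h1) | h1) | h1) | h1) | h1) | h1) | h1
    · rw [hq 2 (by norm_num) h1]; decide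
    · rw [hq 3 (by norm_num) h1]; decide
    · rw [hq 5 (by norm_num) h1]; decide
    · rw [hq 7 (by norm_num) h1]; decide
    · rw [hq 11 (by norm_num) h1]; decide
    · rw [hq 13 (by norm_num) h1]; decide
    · rw [hq 17 (by norm_num) h1]; decide
    · rw [hq 19 (by norm_num) h1]; decide
  · left
    exact (Nat.Prime.coprime_iff_not_dvd hp).2 h1

/-- `log n / (n (n - 1))` -/
noncomputable def w1 (n : ℕ) : ℝ := Real.log n / (((n : ℝ) - 1) * n)

theorem w1_nonneg {n : ℕ} (hn : 2 ≤ n) : 0 ≤ w1 n := by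
  have h1 : (2 : ℝ) ≤ n := by exact_mod_cast hn
  have h2 : 0 ≤ Real.log n := Real.log_nonneg (by linarith)
  have h3 : 0 < (n : ℝ) - 1 := by linarith
  unfold w1; positivity

theorem w1_le {x : ℕ × ℕ} (hx : x ∈ tab) : w1 x.1 ≤ (ub x : ℝ) / 10 ^ 12 * Real.log 2 := by
  obtain ⟨p, k⟩ := x
  obtain ⟨h4, hp⟩ := tab_pow _ hx
  simp only at h4 hp ⊢
  have h1 : (2 : ℝ) ≤ p := by exact_mod_cast hp
  have h3 : 0 < (p : ℝ) - 1 := by linarith
  have hp0 : (0 : ℝ) < p := by linarith
  have h5 : Real.log p ≤ (k : ℝ) / 1024 * Real.log 2 := by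
    have h6 : ((p : ℝ)) ^ 1024 ≤ 2 ^ k := by exact_mod_cast h4
    have h7 := Real.log_le_log (by positivity) h6
    rw [Real.log_pow, Real.log_pow] at h7
    push_cast at h7
    linarith
  have h8 : (10 ^ 12 * k : ℝ) / (1024 * p * (p - 1)) ≤ ub (p, k) := by
    have h9 : 10 ^ 12 * k < (1024 * p * (p - 1)) * ub (p, k) := by
      unfold ub
      exact Nat.lt_mul_div_succ _ (by
        have : 0 < p - 1 := by omega
        positivity)
    have h10 : ((p - 1 : ℕ) : ℝ) = (p : ℝ) - 1 := by
      rw [Nat.cast_sub (by omega)]; norm_num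
    have h11 : ((10 ^ 12 * k : ℕ) : ℝ) < ((1024 * p * (p - 1)) * ub (p, k) : ℕ) := by
      exact_mod_cast h9
    push_cast at h11
    rw [h10] at h11
    rw [div_le_iff₀ (by positivity)]
    linarith
  have hl2 : 0 < Real.log 2 := Real.log_pos (by norm_num)
  unfold w1
  calc Real.log p / (((p : ℝ) - 1) * p) ≤ ((k : ℝ) / 1024 * Real.log 2) / (((p : ℝ) - 1) * p) := by
        gcongr
    _ = ((10 ^ 12 * k : ℝ) / (1024 * p * (p - 1))) / 10 ^ 12 * Real.log 2 := by
        field_simp
    _ ≤ _ := by gcongr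

/-- Chebyshev's function -/
noncomputable def th (n : ℕ) : ℝ := ∑ p ∈ (Finset.range (n + 1)).filter Nat.Prime, Real.log p

theorem th_nonneg (n : ℕ) : 0 ≤ th n := Finset.sum_nonneg fun p _ => Real.log_natCast_nonneg p

theorem th_le (n : ℕ) : th n ≤ 2 * Real.log 2 * n := by
  have h1 := Chebyshev.theta_le_log4_mul_x (x := (n : ℝ)) (Nat.cast_nonneg n)
  have h2 : Chebyshev.theta (n : ℝ) = th n := by
    rw [Chebyshev.theta_eq_sum_Icc, Nat.floor_natCast]
    unfold th
    refine Finset.sum_congr ?_ fun _ _ => rfl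
    ext p
    simp only [Finset.mem_filter, Finset.mem_Icc, Finset.mem_range]
    constructor
    · rintro ⟨h3, h4⟩; exact ⟨by omega, h4⟩
    · rintro ⟨h3, h4⟩; exact ⟨by omega, h4⟩
  rw [h2] at h1
  have h3 : Real.log 4 = 2 * Real.log 2 := by
    rw [show (4 : ℝ) = 2 ^ 2 by norm_num, Real.log_pow]; push_cast; ring
  rwa [h3] at h1

theorem th_succ (n : ℕ) : th (n + 1) = th n + (if (n + 1).Prime then Real.log (n + 1 : ℕ) else 0) := by
  unfold th
  rw [Finset.range_add_one (n := n + 1), Finset.filter_insert]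
  split_ifs with h
  · rw [Finset.sum_insert (by simp), add_comm]
  · rw [add_zero]

/-- `1 / (n (n - 1))` -/
noncomputable def cc (n : ℕ) : ℝ := 1 / (((n : ℝ) - 1) * n)

theorem tail (P : ℕ) (hP : 2 ≤ P) (X : ℕ) (hX : P ≤ X) :
    ∑ p ∈ (Finset.Ioc P X).filter Nat.Prime, w1 p ≤ th X * cc (X + 1) - th P * cc (P + 1) +
      2 * Real.log 2 * (1 / P + 1 / (P + 1) - 1 / X - 1 / (X + 1)) := by
  induction X, hX using Nat.le_induction with
  | base => simp
  | succ X hX ih =>
    have hX2 : (2 : ℝ) ≤ X := by exact_mod_cast hP.trans hX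
    have h1 : ∑ p ∈ (Finset.Ioc P (X + 1)).filter Nat.Prime, w1 p =
        ∑ p ∈ (Finset.Ioc P X).filter Nat.Prime, w1 p + (th (X + 1) - th X) * cc (X + 1) := by
      rw [← Finset.insert_Ioc_right_eq_Ioc_add_one hX, Finset.filter_insert, th_succ]
      split_ifs with h
      · rw [Finset.sum_insert (by simp), add_comm]
        congr 1
        unfold w1 cc
        ring
      · ring
    rw [h1]
    have h2 : th (X + 1) * (cc (X + 1) - cc (X + 2)) ≤
        2 * Real.log 2 * (1 / X - 1 / ((X : ℝ) + 2)) := by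
      have h3 := th_le (X + 1)
      have h4 : cc (X + 1) - cc (X + 2) = 2 / ((X : ℝ) * (X + 1) * (X + 2)) := by
        unfold cc; push_cast
        have e1 : (X : ℝ) + 1 - 1 = X := by ring
        have e2 : (X : ℝ) + 2 - 1 = X + 1 := by ring
        rw [e1, e2]
        field_simp
        ring
      rw [h4]
      calc th (X + 1) * (2 / ((X : ℝ) * (X + 1) * (X + 2)))
          ≤ (2 * Real.log 2 * ((X + 1 : ℕ) : ℝ)) * (2 / ((X : ℝ) * (X + 1) * (X + 2))) := by
            gcongr
        _ = _ := by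
            push_cast
            field_simp
            ring
    push_cast
    have e3 : ((X : ℝ) + 1 + 1) = X + 2 := by ring
    rw [e3]
    have e4 : X + 1 + 1 = X + 2 := rfl
    rw [e4]
    have h5 : th (X + 1) * cc (X + 2) = th (X + 1) * cc (X + 1) -
      th (X + 1) * (cc (X + 1) - cc (X + 2)) := by ring
    rw [h5]
    have h6 : 2 * Real.log 2 * (1 / X - 1 / ((X : ℝ) + 2)) =
        2 * Real.log 2 * (1 / P + 1 / (P + 1) - 1 / ((X : ℝ) + 1) - 1 / (X + 2)) -
        2 * Real.log 2 * (1 / P + 1 / (P + 1) - 1 / X - 1 / (X + 1)) := by ring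
    linarith

theorem sum_w1 (F : Finset ℕ) (hF : ∀ p ∈ F, p.Prime) :
    ∑ p ∈ F, w1 p ≤ 1.09487 * Real.log 2 := by
  classical
  have hl2 : 0 < Real.log 2 := Real.log_pos (by norm_num)
  set X := 528 + F.sup id with hX
  have hsub : F ⊆ (Finset.range (X + 1)).filter Nat.Prime := by
    intro p hp
    have : id p ≤ F.sup id := Finset.le_sup hp
    simp only [id] at this
    rw [Finset.mem_filter, Finset.mem_range]
    exact ⟨by omega, hF p hp⟩
  have h0 : ∀ p : ℕ, p.Prime → 0 ≤ w1 p := fun p hp => w1_nonneg hp.two_le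
  have h1 : ∑ p ∈ F, w1 p ≤ ∑ p ∈ (Finset.range (X + 1)).filter Nat.Prime, w1 p :=
    Finset.sum_le_sum_of_subset_of_nonneg hsub fun p hp _ => h0 p (Finset.mem_filter.1 hp).2
  have h2 : (Finset.range (X + 1)).filter Nat.Prime =
      ((Finset.range 529).filter Nat.Prime) ∪ ((Finset.Ioc 528 X).filter Nat.Prime) := by
    ext p
    simp only [Finset.mem_filter, Finset.mem_union, Finset.mem_range, Finset.mem_Ioc]
    constructor
    · rintro ⟨h, hp⟩
      rcases le_or_gt p 528 with h' | h'
      · exact Or.inl ⟨by omega, hp⟩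
      · exact Or.inr ⟨⟨h', by omega⟩, hp⟩
    · rintro (⟨h, hp⟩ | ⟨h, hp⟩)
      · exact ⟨by omega, hp⟩
      · exact ⟨by omega, hp⟩
  have h3 : Disjoint ((Finset.range 529).filter Nat.Prime) ((Finset.Ioc 528 X).filter Nat.Prime) := by
    rw [Finset.disjoint_left]
    intro p hp hp'
    rw [Finset.mem_filter, Finset.mem_range] at hp
    rw [Finset.mem_filter, Finset.mem_Ioc] at hp'
    omega
  rw [h2, Finset.sum_union h3] at h1
  have h4 : ∑ p ∈ (Finset.range 529).filter Nat.Prime, w1 p ≤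
      (1087295487048 : ℝ) / 10 ^ 12 * Real.log 2 := by
    calc ∑ p ∈ (Finset.range 529).filter Nat.Prime, w1 p
        ≤ ∑ p ∈ (tab.map Prod.fst).toFinset, w1 p := by
          refine Finset.sum_le_sum_of_subset_of_nonneg ?_ ?_
          · intro p hp
            rw [Finset.mem_filter, Finset.mem_range] at hp
            exact List.mem_toFinset.2 (mem_small hp.2 (by omega))
          · intro p hp _
            obtain ⟨x, hx, rfl⟩ := List.mem_map.1 (List.mem_toFinset.1 hp)
            exact w1_nonneg (tab_pow x hx).2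
      _ = ((tab.map Prod.fst).map w1).sum := List.sum_toFinset w1 tab_nodup
      _ = (tab.map fun x => w1 x.1).sum := by rw [List.map_map]; rfl
      _ ≤ (tab.map fun x => (ub x : ℝ) * (1 / 10 ^ 12 * Real.log 2)).sum := by
          refine List.sum_le_sum fun x hx => ?_
          refine (w1_le hx).trans (le_of_eq ?_)
          ring
      _ = ((tab.map ub).sum : ℕ) * (1 / 10 ^ 12 * Real.log 2) := by
          rw [List.sum_map_mul_right, Nat.cast_list_sum, List.map_map]; rfl
      _ ≤ _ := by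
          have : (((tab.map ub).sum : ℕ) : ℝ) ≤ 1087295487048 := by exact_mod_cast sum_tab
          calc _ ≤ (1087295487048 : ℝ) * (1 / 10 ^ 12 * Real.log 2) := by gcongr
            _ = _ := by ring
  have h5 := tail 528 (by norm_num) X (by omega)
  have h6 : th X * cc (X + 1) ≤ 2 * Real.log 2 * (1 / X) := by
    have h7 := th_le X
    have hX0 : (0 : ℝ) < X := by
      have : 0 < X := by omega
      exact_mod_cast this
    have h8 : cc (X + 1) = 1 / ((X : ℝ) * (X + 1)) := by
      unfold cc; push_cast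
      have e1 : (X : ℝ) + 1 - 1 = X := by ring
      rw [e1]
    rw [h8]
    calc th X * (1 / ((X : ℝ) * (X + 1))) ≤ (2 * Real.log 2 * X) * (1 / ((X : ℝ) * (X + 1))) := by
          gcongr
      _ = 2 * Real.log 2 * (1 / (X + 1)) := by field_simp
      _ ≤ _ := by
          gcongr
          linarith
  have h9 : 0 ≤ th 528 * cc (528 + 1) := by
    refine mul_nonneg (th_nonneg _) ?_
    unfold cc; norm_num
  have h10 : 0 ≤ 2 * Real.log 2 * (1 / ((X : ℝ) + 1)) := by positivity
  have h11 : 2 * Real.log 2 * (1 / ((528 : ℕ) : ℝ) + 1 / (((528 : ℕ) : ℝ) + 1) - 1 / X - 1 / (X + 1)) =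
      Real.log 2 * (2 / 528 + 2 / 529) - 2 * Real.log 2 * (1 / X) -
      2 * Real.log 2 * (1 / ((X : ℝ) + 1)) := by
    push_cast; ring
  rw [h11] at h5
  have h12 : (1087295487048 : ℝ) / 10 ^ 12 * Real.log 2 + Real.log 2 * (2 / 528 + 2 / 529) ≤
      1.09487 * Real.log 2 := by
    have : (1087295487048 : ℝ) / 10 ^ 12 + (2 / 528 + 2 / 529) ≤ 1.09487 := by norm_num
    nlinarith
  linarith

end Pool.Agent.N780
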