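import Mathlib
import Pool.Agent.N780.Num

set_option autoImplicit false

/-!
The level function which is `0` on a set `S` of primes and `1` elsewhere.
-/

namespace Pool.Agent.N780

open Classical in
/-- level `0` on `S` and level `1` elsewhere -/
noncomputable def lvS (S : Set ℕ) (p : ℕ) : ℕ := if p ∈ S then 0 else 1

theorem wt_lvS (S : Set ℕ) {p : ℕ} (hp : p.Prime) :
    wt (lvS S) p = w1 p + S.indicator (fun p : ℕ => Real.log p / p) p := by
  have h1 : (2 : ℝ) ≤ p := by exact_mod_cast hp.two_le
  have h3 : (p : ℝ) - 1 ≠ 0 := by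
    intro h; linarith
  have h4 : (p : ℝ) ≠ 0 := by
    intro h; linarith
  unfold wt w1 lvS
  by_cases h : p ∈ S
  · rw [if_pos h, Set.indicator_of_mem h, pow_zero]
    field_simp
    ring
  · rw [if_neg h, Set.indicator_of_notMem h, pow_one, add_zero]

theorem w1_primes_nonneg : 0 ≤ fun p : Nat.Primes => w1 p := fun p => w1_nonneg p.2.two_le

theorem fin_w1 (u : Finset Nat.Primes) : ∑ p ∈ u, w1 p ≤ 1.09487 * Real.log 2 := by
  have h := sum_w1 (u.map ⟨fun p : Nat.Primes => (p : ℕ), fun a b hab => Subtype.ext hab⟩) (by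
    intro p hp
    rw [Finset.mem_map] at hp
    obtain ⟨a, _, rfl⟩ := hp
    exact a.2)
  rwa [Finset.sum_map] at h

theorem summable_w1 : Summable fun p : Nat.Primes => w1 p :=
  summable_of_sum_le w1_primes_nonneg fin_w1

theorem tsum_w1 : ∑' p : Nat.Primes, w1 p ≤ 1.09487 * Real.log 2 :=
  Real.tsum_le_of_sum_le w1_primes_nonneg fin_w1

theorem lvS_summable {S : Set ℕ}
    (hS : Summable fun p : Nat.Primes => S.indicator (fun p : ℕ => Real.log p / p) p) :
    Summable fun p : Nat.Primes => wt (lvS S) p := by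
  have h : (fun p : Nat.Primes => wt (lvS S) p) =
      fun p : Nat.Primes => w1 p + S.indicator (fun p : ℕ => Real.log p / p) p := by
    funext p; exact wt_lvS S p.2
  rw [h]
  exact summable_w1.add hS

theorem lvS_tsum {S : Set ℕ}
    (hS : Summable fun p : Nat.Primes => S.indicator (fun p : ℕ => Real.log p / p) p) :
    ∑' p : Nat.Primes, wt (lvS S) p ≤ 1.09487 * Real.log 2 +
      ∑' p : Nat.Primes, S.indicator (fun p : ℕ => Real.log p / p) p := by
  have h : (fun p : Nat.Primes => wt (lvS S) p) =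
      fun p : Nat.Primes => w1 p + S.indicator (fun p : ℕ => Real.log p / p) p := by
    funext p; exact wt_lvS S p.2
  rw [h, summable_w1.tsum_add hS]
  linarith [tsum_w1]

/-- the prime `2` -/
def p2 : Nat.Primes := ⟨2, by norm_num⟩

/-- the prime `3` -/
def p3 : Nat.Primes := ⟨3, by norm_num⟩

theorem p2_val : (p2 : ℕ) = 2 := rfl

theorem p3_val : (p3 : ℕ) = 3 := rfl

/-- the sum over `{2, 3}` -/
theorem two_three : (Summable fun p : Nat.Primes =>
      ({2, 3} : Set ℕ).indicator (fun p : ℕ => Real.log p / p) p) ∧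
    ∑' p : Nat.Primes, ({2, 3} : Set ℕ).indicator (fun p : ℕ => Real.log p / p) p =
      Real.log 2 / 2 + Real.log 3 / 3 := by
  have hs : ∀ p : Nat.Primes, p ∉ ({p2, p3} : Finset Nat.Primes) →
      ({2, 3} : Set ℕ).indicator (fun p : ℕ => Real.log p / p) p = 0 := by
    intro p hp
    refine Set.indicator_of_notMem ?_ _
    rw [Finset.mem_insert, Finset.mem_singleton, not_or] at hp
    rw [Set.mem_insert_iff, Set.mem_singleton_iff, not_or]
    exact ⟨fun h => hp.1 (Subtype.ext h), fun h => hp.2 (Subtype.ext h)⟩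
  have hne : p2 ∉ ({p3} : Finset Nat.Primes) := by
    rw [Finset.mem_singleton]
    intro h
    have := congrArg (fun p : Nat.Primes => (p : ℕ)) h
    simp only [p2_val, p3_val] at this
    omega
  refine ⟨summable_of_ne_finset_zero hs, ?_⟩
  rw [tsum_eq_sum hs, Finset.sum_insert hne, Finset.sum_singleton, p2_val, p3_val,
    Set.indicator_of_mem (by simp), Set.indicator_of_mem (by simp)]
  norm_num

theorem log_three_ge : (19 : ℝ) / 12 * Real.log 2 ≤ Real.log 3 := by
  have h : Real.log (2 ^ 19) ≤ Real.log (3 ^ 12) :=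
    Real.log_le_log (by norm_num) (by norm_num)
  rw [Real.log_pow, Real.log_pow] at h
  push_cast at h
  linarith

theorem log_sixteen : Real.log 16 = 4 * Real.log 2 := by
  rw [show (16 : ℝ) = 2 ^ 4 by norm_num, Real.log_pow]; push_cast; ring

end Pool.Agent.N780
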