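import Mathlib
import Pool.Agent.N780.Defs
import Pool.Agent.N780.Three
import Pool.Agent.N780.Nf
import Pool.Agent.N780.Thin

set_option autoImplicit false

/-!
From the engine to the definitions of the statements.
-/

namespace Pool.Agent.N780

open PowerSeries
open scoped RatFunc

theorem pcder_eq {R : Type*} [CommRing R] {n : ℕ} (q : Polynomial R)
    (A : Matrix (Fin n) (Fin n) (Polynomial R)) (s : ℕ) :
    PCurv.der q A s = der q A s := by
  induction s with
  | zero => rfl
  | succ s ih => rw [PCurv.der, der, ih]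

theorem expand_map {R : Type*} [CommRing R] (ρ : R →+* ℂ) (c : ℂ) (P : Polynomial ℤ) :
    PCurv.expand ρ c (P.map (Int.castRingHom R)) = sh c P := by
  unfold PCurv.expand sh
  rw [Polynomial.coe_eval₂RingHom, Polynomial.eval₂_map]
  congr 1
  exact RingHom.ext_int _ _

/-- the common passage -/
theorem uniform_of (c : ℂ) (q : Polynomial ℤ) (h : ℕ → ℕ)
    (hL : ∃ L : IntermediateField (RatFunc ℂ) (LaurentSeries ℂ), FiniteDimensional (RatFunc ℂ) L ∧
      ∀ (ι : Type) [Fintype ι] [DecidableEq ι] (k : ℕ) (A : Matrix ι ι (Polynomial ℤ)),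
        (∀ p : ℕ, p.Prime → Level (q ^ k) A p (h p)) →
        ∀ y : ι → ℂ⟦X⟧, (∀ i, sh c (q ^ k) * d⁄dX ℂ (y i) = ∑ j, sh c (A i j) * y j) →
          ∀ i, toL (y i) ∈ L) : PCurv.UniformlyAlgebraic c q h := by
  obtain ⟨L, hL, hL2⟩ := hL
  refine ⟨L, hL, ?_⟩
  intro R _ _ _ ρ n k A hA y hy i
  refine fr_of q c h L hL2 R ρ n k A ?_ y ?_ i
  · intro p hp s hsp a b
    have := hA p hp s hsp a b
    rwa [pcder_eq] at this
  · intro a
    have := hy a
    rw [← Polynomial.map_pow, expand_map] at this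
    exact this

/-- the thrice punctured line -/
theorem three_general (h : ℕ → ℕ) (hs : Summable fun p : Nat.Primes => wt h p)
    (hlt : ∑' p : Nat.Primes, wt h p < Real.log 3 / 2 + Real.log 16 / 3) :
    PCurv.UniformlyAlgebraic ⟨1 / 2, -(Real.sqrt 3 / 2)⟩
      (Polynomial.X * (1 - Polynomial.X)) h := by
  have e : (⟨1 / 2, -(Real.sqrt 3 / 2)⟩ : ℂ) = -om := by
    apply Complex.ext
    · simp only [om, Complex.neg_re]; norm_num
    · simp only [om, Complex.neg_im]
  rw [e]
  exact uniform_of _ _ _ (three_main h hs hlt)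

theorem three_thin (S : Set ℕ)
    (hS : Summable fun p : Nat.Primes => S.indicator (fun p : ℕ => Real.log p / p) p)
    (hle : ∑' p : Nat.Primes, S.indicator (fun p : ℕ => Real.log p / p) p ≤
      Real.log 2 / 2 + Real.log 3 / 3) :
    PCurv.UniformlyAlgebraic ⟨1 / 2, -(Real.sqrt 3 / 2)⟩
      (Polynomial.X * (1 - Polynomial.X)) (PCurv.outside S) := by
  refine three_general (PCurv.outside S) (lvS_summable hS) ?_
  have h1 := lvS_tsum hS
  have h2 := log_three_ge
  have h3 := log_sixteen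
  have h4 : 0 < Real.log 2 := Real.log_pos (by norm_num)
  refine lt_of_le_of_lt h1 ?_
  rw [h3]
  nlinarith

theorem three_23 : PCurv.UniformlyAlgebraic ⟨1 / 2, -(Real.sqrt 3 / 2)⟩
      (Polynomial.X * (1 - Polynomial.X)) (PCurv.outside {2, 3}) :=
  three_thin _ two_three.1 two_three.2.le

/-- the complement of the roots of unity in the line -/
theorem roots_general {m : ℕ} (hm : m ≠ 0) (h : ℕ → ℕ)
    (hs : Summable fun p : Nat.Primes => wt h p)
    (hlt : ∑' p : Nat.Primes, wt h p < Real.log 16 / m) :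
    PCurv.UniformlyAlgebraic 0 (1 - Polynomial.X ^ m) h :=
  uniform_of _ _ _ (roots_main hm h hs hlt)

theorem log_two_gt : (0.69 : ℝ) < Real.log 2 := lt_trans (by norm_num) Real.log_two_gt_d9

theorem roots_thin (S : Set ℕ)
    (hS : Summable fun p : Nat.Primes => S.indicator (fun p : ℕ => Real.log p / p) p)
    (hle : ∑' p : Nat.Primes, S.indicator (fun p : ℕ => Real.log p / p) p ≤ 0.16) :
    PCurv.UniformlyAlgebraic 0 (1 - Polynomial.X ^ 3) (PCurv.outside S) := by
  refine roots_general (by norm_num) (PCurv.outside S) (lvS_summable hS) ?_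
  have h1 := lvS_tsum hS
  have h3 := log_sixteen
  have h4 := log_two_gt
  refine lt_of_le_of_lt h1 ?_
  rw [h3]
  push_cast
  nlinarith

/-- level `N` at the primes up to `N` and level `1` beyond -/
theorem tendsto_upTo :
    Filter.Tendsto (fun N : ℕ => ∑' p : Nat.Primes, wt (PCurv.upTo N) p) Filter.atTop (nhds 0) := by
  have hz : ∑' p : Nat.Primes, (fun _ : Nat.Primes => (0 : ℝ)) p = 0 := tsum_zero
  rw [← hz]
  refine tendsto_tsum_of_dominated_convergence (bound := fun p : Nat.Primes => w1 p) summable_w1 ?_ ?_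
  · intro p
    have hp1 : (1 : ℝ) < (p : ℕ) := by exact_mod_cast p.2.one_lt
    have h1 : Filter.Tendsto (fun N : ℕ => Real.log (p : ℕ) / ((((p : ℕ) : ℝ) - 1) *
        ((p : ℕ) : ℝ) ^ N)) Filter.atTop (nhds 0) := by
      refine Filter.Tendsto.const_div_atTop ?_ _
      exact (tendsto_pow_atTop_atTop_of_one_lt hp1).const_mul_atTop (by linarith)
    refine h1.congr' ?_
    filter_upwards [Filter.eventually_ge_atTop (p : ℕ)] with N hN
    unfold wt PCurv.upTo
    rw [if_pos hN]
  · filter_upwards [Filter.eventually_ge_atTop 1] with N hN p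
    rw [Real.norm_of_nonneg (wt_nonneg _ p.2)]
    have hp1 : (1 : ℝ) < (p : ℕ) := by exact_mod_cast p.2.one_lt
    have hl : 0 ≤ Real.log (p : ℕ) := Real.log_nonneg hp1.le
    have hp2 : 0 < ((p : ℕ) : ℝ) - 1 := by linarith
    unfold wt w1 PCurv.upTo
    split_ifs with h
    · gcongr
      exact le_self_pow₀ hp1.le (by omega)
    · rw [pow_one]

theorem upTo_summable {N : ℕ} (hN : N ≠ 0) : Summable fun p : Nat.Primes => wt (PCurv.upTo N) p := by
  refine Summable.of_nonneg_of_le (fun p => wt_nonneg _ p.2) (fun p => ?_) summable_w1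
  have hp1 : (1 : ℝ) < (p : ℕ) := by exact_mod_cast p.2.one_lt
  have hl : 0 ≤ Real.log (p : ℕ) := Real.log_nonneg hp1.le
  have hp2 : 0 < ((p : ℕ) : ℝ) - 1 := by linarith
  unfold wt w1 PCurv.upTo
  split_ifs with h
  · gcongr
    exact le_self_pow₀ hp1.le hN
  · rw [pow_one]

theorem roots_upTo (m : ℕ) (hm : m ≠ 0) :
    ∃ N : ℕ, PCurv.UniformlyAlgebraic 0 (1 - Polynomial.X ^ m) (PCurv.upTo N) := by
  have hpos : (0 : ℝ) < Real.log 16 / m := by
    have h1 : 0 < Real.log 16 := Real.log_pos (by norm_num)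
    have h2 : (0 : ℝ) < m := by exact_mod_cast Nat.pos_of_ne_zero hm
    positivity
  have h := tendsto_upTo.eventually_lt_const hpos
  obtain ⟨N, hN, hN1⟩ := (h.and (Filter.eventually_ne_atTop 0)).exists
  exact ⟨N, roots_general hm _ (upTo_summable hN1) hN⟩

end Pool.Agent.N780
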