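import Mathlib
import Pool.Agent.N780.DefsE
import Pool.Agent.N780.Final
import Pool.Agent.N780.EffCases

set_option autoImplicit false

/-!
The effective form for the definitions of the statements.
-/

namespace Pool.Agent.N780

open PowerSeries
open scoped RatFunc

theorem effective_of {c : ℂ} {q : Polynomial ℤ} {h : ℕ → ℕ} (hE : Eff c q h) :
    PCurv.EffectivelyAlgebraic c q h := by
  obtain ⟨N, hN⟩ := fr_eff hE
  refine ⟨N, fun R _ d b n k a => ?_⟩
  obtain ⟨K, hK⟩ := hN R d b n k a
  refine ⟨K, fun ρ H A hAd hAH hlev => ?_⟩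
  obtain ⟨L, hL1, hL2, hL3⟩ := hK ρ H A hAd hAH (fun p hp hpK => by
    intro s hsp x y
    have := hlev p hp hpK s hsp x y
    rwa [pcder_eq] at this)
  refine ⟨L, hL1, hL2, fun y hy i => hL3 y (fun x => ?_) i⟩
  have := hy x
  rw [← Polynomial.map_pow, expand_map] at this
  exact this

theorem three_general_eff (h : ℕ → ℕ) (hs : Summable fun p : Nat.Primes => wt h p)
    (hlt : ∑' p : Nat.Primes, wt h p < Real.log 3 / 2 + Real.log 16 / 3) :
    PCurv.EffectivelyAlgebraic ⟨1 / 2, -(Real.sqrt 3 / 2)⟩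
      (Polynomial.X * (1 - Polynomial.X)) h := by
  have e : (⟨1 / 2, -(Real.sqrt 3 / 2)⟩ : ℂ) = -om := by
    apply Complex.ext
    · simp only [om, Complex.neg_re]; norm_num
    · simp only [om, Complex.neg_im]
  rw [e]
  exact effective_of (three_eff h hs hlt)

theorem three_thin_eff (S : Set ℕ)
    (hS : Summable fun p : Nat.Primes => S.indicator (fun p : ℕ => Real.log p / p) p)
    (hle : ∑' p : Nat.Primes, S.indicator (fun p : ℕ => Real.log p / p) p ≤
      Real.log 2 / 2 + Real.log 3 / 3) :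
    PCurv.EffectivelyAlgebraic ⟨1 / 2, -(Real.sqrt 3 / 2)⟩
      (Polynomial.X * (1 - Polynomial.X)) (PCurv.outside S) := by
  refine three_general_eff (PCurv.outside S) (lvS_summable hS) ?_
  have h1 := lvS_tsum hS
  have h2 := log_three_ge
  have h3 := log_sixteen
  have h4 : 0 < Real.log 2 := Real.log_pos (by norm_num)
  refine lt_of_le_of_lt h1 ?_
  rw [h3]
  nlinarith

theorem roots_general_eff {m : ℕ} (hm : m ≠ 0) (h : ℕ → ℕ)
    (hs : Summable fun p : Nat.Primes => wt h p)
    (hlt : ∑' p : Nat.Primes, wt h p < Real.log 16 / m) :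
    PCurv.EffectivelyAlgebraic 0 (1 - Polynomial.X ^ m) h :=
  effective_of (roots_eff hm h hs hlt)

theorem roots_thin_eff (S : Set ℕ)
    (hS : Summable fun p : Nat.Primes => S.indicator (fun p : ℕ => Real.log p / p) p)
    (hle : ∑' p : Nat.Primes, S.indicator (fun p : ℕ => Real.log p / p) p ≤ 0.16) :
    PCurv.EffectivelyAlgebraic 0 (1 - Polynomial.X ^ 3) (PCurv.outside S) := by
  refine roots_general_eff (by norm_num) (PCurv.outside S) (lvS_summable hS) ?_
  have h1 := lvS_tsum hS
  have h3 := log_sixteen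
  have h4 := log_two_gt
  refine lt_of_le_of_lt h1 ?_
  rw [h3]
  push_cast
  nlinarith

end Pool.Agent.N780
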